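import Pool.Agent.P.MP_246241_nt.VN.Iface

/-! Step ABS. -/

set_option autoImplicit false
set_option linter.unusedSectionVars false

namespace Pool.Agent.P.MP_246241_nt.VN

open Finset Matrix
open scoped Classical

namespace ABSx

theorem step {D p Δ : ℕ} {N N' : Fin D → ℕ} {g : Mt D} (hg : g ∈ box p N Δ) {a b : Fin D}
    (h : a ≠ b) (c : ℤ) (m : ℕ) (hc : |c| = m) (h1 : N b + m * N a ≤ N' b)
    (h2 : ∀ j, N j ≤ N' j) : g * (tv a b h c : Mt D) ∈ box p N' Δ := by
  rw [mem_box] at hg ⊢
  rw [tv_val, det_mul, det_transvection_of_ne _ _ h, mul_one]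
  refine ⟨fun i j => ?_, hg.2⟩
  rcases eq_or_ne j b with rfl | hj
  · rw [mul_transvection_apply_same]
    refine (abs_add_le _ _).trans (le_trans ?_ (Int.ofNat_le.2 h1))
    rw [abs_mul, hc]
    push_cast
    gcongr <;> exact hg.1 _ _
  · rw [mul_transvection_apply_of_ne _ _ _ _ hj]
    exact (hg.1 i j).trans (Int.ofNat_le.2 (h2 j))

end ABSx

theorem p_ABS :
    S_ABS := by
  intro k p Δ M R N g hg
  refine ⟨fun h1 h2 m hm a ha b hb => ?_, fun h1 m hm => ?_⟩
  · have e1 := Nat.mul_le_mul_right (N 0) (show 3 * m ≤ 3 * M by omega)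
    have e2 := Nat.mul_le_mul_right (N 0) (show 1 ≤ 3 * M by omega)
    have e3 := Nat.mul_le_mul_right (N 1) hb.le
    have e4 := Nat.mul_le_mul ha.le (show N 0 ≤ N 1 by omega)
    have u : ∀ (t : ℕ) (j : Fin (k + 3)), Function.update N 2 (t * N 2) j =
        if j = 2 then t * N 2 else N j := fun t j => Function.update_apply _ _ _ _
    rw [al, ta, tv_pow, _root_.mul_inv_rev, _root_.mul_inv_rev, tv_inv, tv_inv, tv_inv,
      Units.val_mul, Units.val_mul, ← mul_assoc, ← mul_assoc]
    refine ABSx.step (N := Function.update N 2 (3 * N 2)) (ABSx.step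
      (N := Function.update N 2 (2 * N 2)) (ABSx.step hg _ _ b (by simp) ?_ fun j => ?_) _ _ a
      (by simp) ?_ fun j => ?_) _ _ (3 * m) (by simp) ?_ fun j => ?_
    · rw [u, if_pos rfl]; omega
    · rw [u]; split_ifs with h
      · rw [h]; omega
      · rfl
    · rw [u, u, u, if_pos rfl, if_pos rfl, if_neg (ne02 k)]; omega
    · rw [u, u]; split_ifs <;> omega
    · rw [u, u, if_neg (ne12 k), if_neg (ne02 k)]; omega
    · rw [u]; split_ifs with h
      · rw [h]
      · omega
  · have e1 := Nat.mul_le_mul_right (N 1) (show 3 * m ≤ 3 * M by omega)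
    rw [be, tv_pow, tv_inv]
    exact ABSx.step hg _ _ (3 * m) (by simp) (by omega) fun j => by omega

end Pool.Agent.P.MP_246241_nt.VN
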