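import Pool.Agent.P.MP_246241_nt.VN.Iface

/-! Step BLK. -/

set_option autoImplicit false
set_option linter.unusedSectionVars false

namespace Pool.Agent.P.MP_246241_nt.VN

open Finset Matrix
open scoped Classical

namespace BLKx

theorem arith {K T P W Q Z lam ν N N₀ s s₀ c₀ c₁ : ℝ} (hK : 0 ≤ K) (hT : 0 ≤ T) (hP : 0 < P)
    (hW : 0 ≤ W) (hQ : 0 < Q) (_hl : 0 ≤ lam) (hν : 0 ≤ ν) (hN : 0 ≤ N) (hN₀ : 0 ≤ N₀)
    (hs : 0 ≤ s) (hs₀ : 0 ≤ s₀) (h : N ≤ K * T * (√N₀ * √N / P + W / Q * s * s₀))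
    (h0 : N₀ * Q ≤ ν * c₀ ^ 2) (h1 : s ≤ c₁) (h2 : s₀ ≤ c₀) (h3 : T * c₀ ≤ lam * c₁)
    (h4 : (K * lam) ^ 2 ≤ P) (h5 : 2 * (K * lam) * W ≤ Z) :
    N * Q ≤ (ν / P + Z) * c₁ ^ 2 := by
  have hc₀ : 0 ≤ c₀ := hs₀.trans h2
  have hc₁ : 0 ≤ c₁ := hs.trans h1
  have e0 : N ≤ (K * T / P) ^ 2 * N₀ + 2 * (K * T * (W / Q * s * s₀)) := by
    have a := Real.sq_sqrt hN
    have b := Real.sq_sqrt hN₀
    have c := sq_nonneg (K * T / P * √N₀ - √N)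
    have d : K * T * (√N₀ * √N / P + W / Q * s * s₀) =
        K * T / P * √N₀ * √N + K * T * (W / Q * s * s₀) := by ring
    have e : (K * T / P * √N₀ - √N) ^ 2 =
        (K * T / P) ^ 2 * √N₀ ^ 2 - 2 * (K * T / P * √N₀ * √N) + √N ^ 2 := by ring
    rw [e, a, b] at c
    linarith
  have e1 : (K * T / P) ^ 2 * (N₀ * Q) ≤ ν / P * c₁ ^ 2 :=
    calc _ ≤ (K * T / P) ^ 2 * (ν * c₀ ^ 2) := mul_le_mul_of_nonneg_left h0 (sq_nonneg _)
      _ = ν / P * (K ^ 2 * (T * c₀) ^ 2 / P) := by ring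
      _ ≤ ν / P * (K ^ 2 * (lam * c₁) ^ 2 / P) := by gcongr
      _ = ν / P * ((K * lam) ^ 2 / P * c₁ ^ 2) := by ring
      _ ≤ ν / P * (P / P * c₁ ^ 2) := by gcongr
      _ = _ := by rw [div_self hP.ne', one_mul]
  have e2 : 2 * (K * W * s * (T * s₀)) ≤ Z * c₁ ^ 2 :=
    calc _ ≤ 2 * (K * W * c₁ * (T * c₀)) := by gcongr
      _ ≤ 2 * (K * W * c₁ * (lam * c₁)) := by gcongr
      _ = 2 * (K * lam) * W * c₁ ^ 2 := by ring
      _ ≤ _ := mul_le_mul_of_nonneg_right h5 (sq_nonneg _)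
  calc N * Q ≤ ((K * T / P) ^ 2 * N₀ + 2 * (K * T * (W / Q * s * s₀))) * Q :=
        mul_le_mul_of_nonneg_right e0 hQ.le
    _ = (K * T / P) ^ 2 * (N₀ * Q) + 2 * (K * W * s * (T * s₀)) := by field_simp
    _ ≤ _ := by linarith

end BLKx

theorem p_BLK (hGAP : S_GAP) (hDOM : S_DOM) (hFFB : S_FFB) :
    S_BLK := by
  intro n hn
  obtain ⟨e₂, hG⟩ := hGAP n hn
  obtain ⟨e₁, hD⟩ := hDOM n
  refine ⟨4 * e₁ + 8 * e₂ + 6 * (n + 1) + 2, by omega,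
    fun p j hp B β m t u C ν hB hβ hch hmu hut hν hS0 S hS hfr => ?_⟩
  have hp2 : 2 ≤ p := two_le
  have hβ2 : 4 * e₁ + 8 * e₂ + 6 * (n + 1) + 2 ≤ β :=
    (Nat.pow_le_pow_iff_right (by omega : 1 < p)).1 ((Nat.pow_le_pow_left hB _).trans hβ)
  obtain ⟨b, hb⟩ : ∃ b, (n + 1) * (2 * β) = b + 1 :=
    Nat.exists_eq_succ_of_ne_zero (Nat.mul_ne_zero (by omega) (by omega))
  have e1 : u + (n + 1) * (2 * β) - m = u - m + (n + 1) * (2 * β) := by omega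
  set S0 : Finset (Vc n) := (C u).filter fun a => ∃ g, Frame p B (u - m) a g with hS0d
  have hsub : S0 ⊆ C u := filter_subset _ _
  have hn0 : ∀ a ∈ S0, ∃ g, Frame p B (u - m) a g := fun a ha => (mem_filter.1 ha).2
  have hanc : ∀ a ∈ S, pre p ((n + 1) * (2 * β)) a ∈ S0 := fun a ha => by
    have := hch.anc u b (by omega) a (hb ▸ hS ha)
    rw [hb]
    exact mem_filter.2 ⟨this.1, this.2 hmu⟩
  rw [e1] at hfr ⊢
  obtain ⟨Γ, hΓ, hN⟩ := hD p j B (u - m) (2 * β) S0 S (by omega) hanc hn0 hfr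
  obtain ⟨-, hs0, -⟩ := hFFB n p j B (u - m) S0
  obtain ⟨hI, hs1, -⟩ := hFFB n p j B (u - m + (n + 1) * (2 * β)) S
  have hGa := hG p j (2 * B) β Γ _ _ _ _ (by omega) (by omega) hΓ (FF_nonneg p j B (u - m) S0)
    (FF_nonneg p j B _ S) hI (Real.sqrt_nonneg _) (Real.sqrt_nonneg _)
    (Real.sq_sqrt (nn_nonneg _)).ge (Real.sq_sqrt (nn_nonneg _)).ge
  rw [hs0, hs1] at hGa
  have h2 : (2 : ℝ) ≤ p := two_le'
  have hB2 : (2 : ℝ) ≤ B := by exact_mod_cast hp2.trans hB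
  have hl := one_le_ls n
  have hP1 : 1 ≤ (p : ℝ) ^ β := one_le_pow₀ (by linarith)
  have hK1 : 1 ≤ (B : ℝ) ^ e₁ * ((2 * B : ℕ) : ℝ) ^ e₂ * ls n ^ ((n + 1) * (2 * β)) := by
    push_cast
    exact one_le_mul_of_one_le_of_one_le (one_le_mul_of_one_le_of_one_le
      (one_le_pow₀ (by linarith)) (one_le_pow₀ (by linarith))) (one_le_pow₀ hl)
  have hK : ((B : ℝ) ^ e₁ * ((2 * B : ℕ) : ℝ) ^ e₂) ^ 4 ≤ (p : ℝ) ^ β := by
    have : (B ^ e₁ * (2 * B) ^ e₂) ^ 4 ≤ p ^ β := by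
      refine le_trans ?_ hβ
      calc _ ≤ (B ^ e₁ * (B ^ 2) ^ e₂) ^ 4 := by
            have : 2 * B ≤ B ^ 2 := by rw [sq]; exact Nat.mul_le_mul_right _ (by omega)
            gcongr
        _ = B ^ (4 * e₁ + 8 * e₂) := by ring
        _ ≤ _ := Nat.pow_le_pow_right (by omega) (by omega)
    exact_mod_cast this
  have hL : (ls n ^ ((n + 1) * (2 * β))) ^ 4 ≤ (p : ℝ) ^ β := by
    calc _ = ((ls n ^ (4 * (n + 1))) ^ 2) ^ β := by ring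
      _ ≤ ((4 / 3 : ℝ) ^ 2) ^ β := by gcongr; exact ls_pow n
      _ ≤ _ := pow_le_pow_left₀ (by positivity) (by linarith) β
  have h4 : ((B : ℝ) ^ e₁ * ((2 * B : ℕ) : ℝ) ^ e₂ * ls n ^ ((n + 1) * (2 * β))) ^ 2 ≤
      (p : ℝ) ^ β := by
    refine (pow_le_pow_iff_left₀ (by positivity) (by positivity) two_ne_zero).1 ?_
    rw [← pow_mul, mul_pow, sq ((p : ℝ) ^ β)]
    exact mul_le_mul hK hL (by positivity) (by positivity)
  refine BLKx.arith (K := (B : ℝ) ^ e₁ * ((2 * B : ℕ) : ℝ) ^ e₂)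
    (T := (p : ℝ) ^ (n * ((n + 1) * (2 * β)))) (W := (p : ℝ) ^ (6 * (n + 1) * β))
    (lam := ls n ^ ((n + 1) * (2 * β))) (s := #S) (s₀ := #S0) (by positivity) (by positivity)
    (by positivity) (by positivity) (by positivity) (by positivity) hν (nn_nonneg _) (nn_nonneg _)
    (by positivity) (by positivity) ?_ (hS0 S0 hsub hn0) (Nat.cast_le.2 (card_le_card hS))
    (Nat.cast_le.2 (card_le_card hsub)) (hch.grow u _ hut) h4 ?_
  · refine hN.trans ((mul_le_mul_of_nonneg_left hGa (by positivity)).trans_eq ?_)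
    simp only [mul_assoc]
  · have a : (2 : ℝ) ≤ (p : ℝ) ^ β := h2.trans (le_self_pow₀ (by linarith) (by omega))
    calc _ ≤ (p : ℝ) ^ β * (p : ℝ) ^ β * (p : ℝ) ^ (6 * (n + 1) * β) := by
          gcongr
          exact (le_self_pow₀ hK1 two_ne_zero).trans h4
      _ = (p : ℝ) ^ ((6 * (n + 1) + 2) * β) := by ring
      _ ≤ _ := pow_le_pow_right₀ (by linarith) (Nat.mul_le_mul_right _ (by omega))

end Pool.Agent.P.MP_246241_nt.VN
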