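import Pool.Agent.P.MP_246241_nt.VN.Iface

/-! Step BUILD. -/

set_option autoImplicit false
set_option linter.unusedSectionVars false

namespace Pool.Agent.P.MP_246241_nt.VN

open Finset Matrix
open scoped Classical

namespace BUILDx
variable {n : ℕ}

/-- All one-digit extensions. -/
noncomputable def ext (p : ℕ) (G : Finset (Vc n)) : Finset (Vc n) :=
  (G ×ˢ Fintype.piFinset fun _ : Fin n => Ico (0 : ℤ) p).image fun z i => p * z.1 i + z.2 i

theorem pre_ch {p : ℕ} (b : Vc n) {d : Vc n}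
    (h : d ∈ Fintype.piFinset fun _ : Fin n => Ico (0 : ℤ) p) :
    pre p 1 (fun i => p * b i + d i) = b := by
  funext i
  obtain ⟨h1, h2⟩ := mem_Ico.1 (Fintype.mem_piFinset.1 h i)
  simp only [pre, pow_one]
  rw [add_comm, Int.add_mul_ediv_left _ _ (by omega), Int.ediv_eq_zero_of_lt h1 h2, zero_add]

theorem div_mem {p : ℕ} {G : Finset (Vc n)} {a : Vc n} (h : a ∈ ext p G) : pre p 1 a ∈ G := by
  obtain ⟨⟨b, d⟩, hz, rfl⟩ := mem_image.1 h
  obtain ⟨h1, h2⟩ := mem_product.1 hz
  rwa [pre_ch b h2]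

theorem card_ext (p : ℕ) (G : Finset (Vc n)) : #(ext p G) = p ^ n * #G := by
  rw [ext, card_image_of_injOn, card_product, Fintype.card_piFinset, mul_comm]
  · simp
  rintro ⟨a, d⟩ h ⟨a', d'⟩ h' e
  have h1 := pre_ch a (mem_product.1 (mem_coe.1 h)).2
  have h2 := pre_ch a' (mem_product.1 (mem_coe.1 h')).2
  have e' : (fun i => p * a i + d i) = fun i => p * a' i + d' i := e
  obtain rfl : a = a' := by rw [← h1, ← h2]; exact congrArg (pre p 1) e'
  rw [show d = d' from funext fun i => add_left_cancel (congrFun e' i)]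

/-- The candidates at each level. -/
noncomputable def DD' (p : ℕ) (q : ℕ → Vc n → Prop) : ℕ → Finset (Vc n)
  | 0 => {0}
  | t + 1 => ext p ((DD' p q t).filter (q t))

end BUILDx

open BUILDx in
theorem p_BUILD :
    S_BUILD := by
  intro n p ε g Z hp h0 h1 hg hZ
  obtain ⟨q, hq⟩ : ∃ q : ℕ → Vc n → Prop, ∀ t a, q t a ↔ g t a ∧ a ∉ Z t :=
    ⟨_, fun _ _ => Iff.rfl⟩
  have hp' : (0 : ℝ) < (p : ℝ) ^ n := pow_pos (by exact_mod_cast hp) n
  have hl := one_le_ls n
  have h2 : (0 : ℝ) < 1 - 2 * ε := pos_of_mul_pos_left (by linarith : 0 < (1 - 2 * ε) * ls n)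
    (by linarith)
  have step : ∀ t, Chain p g (DD' p q) t → ((1 - 2 * ε) * (p : ℝ) ^ n) ^ t ≤ (#(DD' p q t) : ℝ) →
      (1 - 2 * ε) * #(DD' p q t) ≤ (#((DD' p q t).filter (q t)) : ℝ) := fun t hc hl => by
    have a1 := hg t _ hc
    have a2 := (hZ t).trans (mul_le_mul_of_nonneg_left hl h0.le)
    have a3 : DD' p q t ⊆ ((DD' p q t).filter (q t) ∪ {a ∈ DD' p q t | ¬ g t a}) ∪ Z t := by
      intro a ha
      simp only [mem_union, mem_filter, hq]
      tauto
    have a4 := (card_le_card a3).trans ((card_union_le _ _).trans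
      (Nat.add_le_add_right (card_union_le _ _) _))
    have a5 : (#(DD' p q t) : ℝ) ≤ #((DD' p q t).filter (q t)) + #{a ∈ DD' p q t | ¬ g t a} +
        #(Z t) := by exact_mod_cast a4
    linarith
  have key : ∀ t, Chain p g (DD' p q) t ∧
      ((1 - 2 * ε) * (p : ℝ) ^ n) ^ t ≤ (#(DD' p q t) : ℝ) := by
    intro t
    induction t with
    | zero => exact ⟨fun u hu => absurd hu (Nat.not_lt_zero u), by simp [DD']⟩
    | succ t ih =>
      have hs := step t ih.1 ih.2
      have hc : (#(DD' p q (t + 1)) : ℝ) = (p : ℝ) ^ n * #((DD' p q t).filter (q t)) := by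
        rw [DD', card_ext, Nat.cast_mul, Nat.cast_pow]
      have hn : (0 : ℝ) ≤ #(DD' p q t) := Nat.cast_nonneg _
      refine ⟨fun u hu => ?_, ?_⟩
      · rcases Nat.lt_succ_iff_lt_or_eq.1 hu with h | rfl
        · exact ih.1 u h
        · refine ⟨fun a ha => ?_, ?_⟩
          · have := mem_filter.1 (div_mem ha)
            exact ⟨this.1, ((hq _ _).1 this.2).1⟩
          · rw [hc, mul_left_comm]
            refine mul_le_mul_of_nonneg_left ?_ hp'.le
            refine (le_mul_of_one_le_left hn h1).trans ?_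
            rw [mul_assoc]
            exact mul_le_mul_of_nonneg_left hs (by linarith)
      · rw [hc, pow_succ', mul_comm (1 - 2 * ε), mul_assoc]
        refine mul_le_mul_of_nonneg_left (le_trans ?_ hs) hp'.le
        rw [mul_comm ((p : ℝ) ^ n)]
        exact mul_le_mul_of_nonneg_left ih.2 h2.le
  refine ⟨fun t => (DD' p q t).filter (q t), fun t => ⟨?_, fun a ha => (hq _ _).1 (mem_filter.1 ha).2,
    fun a ha => div_mem (mem_filter.1 ha).1⟩⟩
  have hs := step t (key t).1 (key t).2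
  have h3 := (pow_pos (mul_pos h2 hp') t).trans_le (key t).2
  have h4 := (mul_pos h2 h3).trans_le hs
  exact card_pos.1 (by exact_mod_cast h4)

end Pool.Agent.P.MP_246241_nt.VN
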