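import Pool.Agent.P.MP_246241_nt.VN.Iface

/-! Step CONE. -/

set_option autoImplicit false
set_option linter.unusedSectionVars false

namespace Pool.Agent.P.MP_246241_nt.VN

open Finset Matrix
open scoped Classical

namespace CONEx

theorem per {G : Type} {f : ℤ → G} {Q : ℕ} [NeZero Q] (h : ∀ a, f (a + Q) = f a) (x : ℤ) :
    f ((x : ZMod Q).val : ℕ) = f x := by
  rw [ZMod.val_intCast, Int.emod_def, mul_comm]
  exact Function.Periodic.sub_int_mul_eq (f := f) (c := (Q : ℤ)) h (x / Q)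

theorem sx_le (Q : ℕ) [NeZero Q] (R : ℕ) (ξ : ZMod Q) :
    ‖∑ a ∈ range R, ZMod.stdAddChar (((a : ℕ) : ZMod Q) * ξ)‖ ≤ R :=
  (norm_sum_le _ _).trans_eq (by simp [AddChar.norm_apply])

theorem sx_le' (hDIR : S_DIR) (Q : ℕ) [NeZero Q] (M R : ℕ) (ξ : ZMod Q)
    (h : (Q : ℤ) < 8 * M * |ξ.valMinAbs|) :
    ‖∑ a ∈ range R, ZMod.stdAddChar (((a : ℕ) : ZMod Q) * ξ)‖ ≤ 4 * M := by
  have h1 := hDIR Q R ξ
  have h2 : (Q : ℝ) < 8 * M * |(ξ.valMinAbs : ℝ)| := by exact_mod_cast h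
  by_contra h3
  have := mul_le_mul_of_nonneg_left (not_le.1 h3).le (abs_nonneg (ξ.valMinAbs : ℝ))
  linarith

end CONEx

theorem p_CONE (hSPEC : S_SPEC) (hDIR : S_DIR) (hSCAL : S_SCAL) :
    S_CONE := by
  intro Z ι _ τ α β Q M R φ ψ W w X Y δ hQ hM hR hτ q1 q2 hα hβ hX hY hδ hφ hψ hW hw
  have : NeZero Q := ⟨by omega⟩
  obtain ⟨τ', key⟩ : ∃ τ' : ZMod Q → ZMod Q → Equiv.Perm Z, ∀ x y : ℤ, τ' x y = τ x y :=
    ⟨fun a b => τ (a.val : ℕ) (b.val : ℕ), fun x y =>
      (CONEx.per (f := fun a => τ a _) (fun a => by simpa [q1] using hτ a _ Q 0) x).trans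
        (CONEx.per (f := fun b => τ x b) (fun b => by simpa [q2] using hτ x b 0 Q) y)⟩
  have keyN : ∀ a b : ℕ, τ' a b = τ a b := fun a b => by simpa using key a b
  have two : ∀ P : ZMod Q → ZMod Q → Prop, (∀ x y : ℤ, P x y) → ∀ a b, P a b := fun P h a b => by
    obtain ⟨x, rfl⟩ := ZMod.intCast_surjective a
    obtain ⟨y, rfl⟩ := ZMod.intCast_surjective b
    exact h x y
  obtain ⟨ν, h1, h2, h3, h4, h5, h6⟩ := hSPEC Z Q τ' (two _ fun a b => two _ fun c d => by
    rw [← Int.cast_add, ← Int.cast_add, key, key, key, hτ])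
  have a3 := h3 α (two _ fun a b => by rw [← Int.cast_add, key, key, hα])
  have a4 := h4 β (two _ fun a b => by rw [← Int.cast_add, key, key, hβ])
  have pa : ∀ (m : ℕ) η, ν η (fun z => φ ((α ^ m) z)) = ν (η.1, η.2 + (m : ZMod Q) * η.1) φ := by
    intro m
    induction m with
    | zero => simp
    | succ m ih =>
      intro η
      refine (a3 η fun z => φ ((α ^ m) z)).trans ((ih _).trans ?_)
      congr 2
      push_cast
      ring
  have pb : ∀ (m : ℕ) η, ν η (fun z => ψ ((β ^ m) z)) = ν (η.1 + (m : ZMod Q) * η.2, η.2) ψ := by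
    intro m
    induction m with
    | zero => simp
    | succ m ih =>
      intro η
      refine (a4 η fun z => ψ ((β ^ m) z)).trans ((ih _).trans ?_)
      congr 2
      push_cast
      ring
  have R0 : (0 : ℝ) < R := by exact_mod_cast hR
  have z0 : ν 0 ψ ≤ δ := by
    have e := h6 ι W (fun s => (w s : ZMod Q)) ψ
    have k0 : ∀ y : ℤ, τ' 0 y = τ 0 y := fun y => by simpa using key 0 y
    simp only [k0] at e
    have c0 : (0 : ℝ) < #W := by exact_mod_cast hW.card_pos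
    refine le_of_mul_le_mul_left (e ▸ ?_) c0
    exact le_of_sq_le_sq ((single_le_sum (f := fun η => ν η _ ^ 2)
      (fun _ _ => sq_nonneg _) (mem_univ 0)).trans ((h2 _).trans_le hw)) (by positivity)
  set S : ZMod Q → ℝ := fun ξ => ‖∑ a ∈ range R, ZMod.stdAddChar (((a : ℕ) : ZMod Q) * ξ)‖
    with hS
  have S0 : ∀ ξ, 0 ≤ S ξ := fun _ => norm_nonneg _
  have S1 : ∀ ξ, S ξ ≤ R := CONEx.sx_le Q R
  have main := hSCAL Q M (fun η => ν η φ) (fun η => ν η ψ) (fun η => S η.1 * S η.2 / R ^ 2) X Y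
    (4 * M / R) hM (fun _ => h1 _ _) (fun _ => h1 _ _) hX hY (by positivity)
    ((h2 φ).trans_le hφ) ((h2 ψ).trans_le hψ)
    (fun η => by
      rw [div_le_one (by positivity), sq]
      exact mul_le_mul (S1 _) (S1 _) (S0 _) R0.le)
    (fun η h => by
      rw [div_le_iff₀ (by positivity), show 4 * (M : ℝ) / R * R ^ 2 = 4 * M * R by field_simp]
      rcases h with h | h
      · exact mul_le_mul (CONEx.sx_le' hDIR Q M R _ h) (S1 _) (S0 _) (by positivity)
      · rw [mul_comm (S _)]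
        exact mul_le_mul (CONEx.sx_le' hDIR Q M R _ h) (S1 _) (S0 _) (by positivity))
  calc _ ≤ ∑ m ∈ range M, ∑ m' ∈ range M, ∑ η : ZMod Q × ZMod Q, S η.1 * S η.2 *
          (ν (η.1, η.2 + ((3 * m : ℕ) : ZMod Q) * η.1) φ *
            ν (η.1 + ((3 * m' : ℕ) : ZMod Q) * η.2, η.2) ψ) := by
        refine sum_le_sum fun m _ => sum_le_sum fun m' _ => ?_
        have := h5 R (fun z => φ ((α ^ (3 * m)) z)) fun z => ψ ((β ^ (3 * m')) z)
        simp only [keyN, pa, pb] at this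
        exact this
    _ = (R : ℝ) ^ 2 * ∑ η : ZMod Q × ZMod Q, S η.1 * S η.2 / R ^ 2 *
          ((∑ m ∈ range M, ν (η.1, η.2 + ((3 * m : ℕ) : ZMod Q) * η.1) φ) *
            ∑ m ∈ range M, ν (η.1 + ((3 * m : ℕ) : ZMod Q) * η.2, η.2) ψ) := by
        rw [mul_sum, sum_congr rfl fun m _ => sum_comm, sum_comm]
        refine sum_congr rfl fun η _ => ?_
        rw [← mul_assoc, mul_div_cancel₀ _ (by positivity), sum_mul_sum, mul_sum]
        exact sum_congr rfl fun m _ => (mul_sum _ _ _).symm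
    _ ≤ (R : ℝ) ^ 2 * ((M : ℝ) ^ 2 * ((2 / √(M : ℝ) + 4 * M / R) * X * Y + X * δ)) := by
        refine mul_le_mul_of_nonneg_left (main.trans ?_) (by positivity)
        gcongr
    _ = _ := by ring

end Pool.Agent.P.MP_246241_nt.VN
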