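import Pool.Agent.P.MP_246241_nt.VN.Iface

/-! Step CORE. -/

set_option autoImplicit false
set_option linter.unusedSectionVars false

namespace Pool.Agent.P.MP_246241_nt.VN

open Finset Matrix
open scoped Classical

namespace COREx

theorem geo (n : ℕ) : ∑ σ ∈ range n, (2 / 3 : ℝ) ^ σ ≤ 3 := by
  have : ∑ σ ∈ range n, (2 / 3 : ℝ) ^ σ = 3 - 3 * (2 / 3) ^ n := by
    induction n with
    | zero => simp
    | succ n ih => rw [sum_range_succ, ih]; ring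
  rw [this]
  exact sub_le_self _ (by positivity)

theorem cover {α : Type} (S : Finset α) (A L : ℕ) (I : ℕ → Finset ℕ) (B : ℕ → ℕ → Finset α)
    (w : ℝ)
    (hw : 0 ≤ w) (hI : ∀ s, #(I s) ≤ L) (hS : ∀ a ∈ S, ∃ s ≤ A, ∃ m ∈ I s, a ∈ B s m)
    (hB : ∀ s ≤ A, ∀ m ∈ I s, (#(B s m) : ℝ) ≤ w * (2 / 3) ^ (A - s)) :
    (#S : ℝ) ≤ L * w * 3 := by
  have h1 : #S ≤ ∑ s ∈ range (A + 1), ∑ m ∈ I s, #(B s m) := by
    refine le_trans (card_le_card (t := (range (A + 1)).biUnion fun s => (I s).biUnion (B s))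
      fun a ha => ?_) (card_biUnion_le.trans (sum_le_sum fun s _ => card_biUnion_le))
    obtain ⟨s, hs, m, hm, h⟩ := hS a ha
    exact mem_biUnion.2 ⟨s, mem_range.2 (Nat.lt_succ_of_le hs), mem_biUnion.2 ⟨m, hm, h⟩⟩
  calc (#S : ℝ) ≤ ∑ s ∈ range (A + 1), ∑ m ∈ I s, (#(B s m) : ℝ) := by exact_mod_cast h1
    _ ≤ ∑ s ∈ range (A + 1), L * w * (2 / 3 : ℝ) ^ (A + 1 - 1 - s) := sum_le_sum fun s hs => by
        refine (sum_le_card_nsmul _ _ _ (hB s (Nat.le_of_lt_succ (mem_range.1 hs)))).trans ?_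
        rw [nsmul_eq_mul, mul_assoc]
        exact mul_le_mul_of_nonneg_right (by exact_mod_cast hI s) (by positivity)
    _ = L * w * ∑ σ ∈ range (A + 1), (2 / 3 : ℝ) ^ σ := by
        rw [← mul_sum, sum_range_reflect (fun σ => (2 / 3 : ℝ) ^ σ)]
    _ ≤ _ := mul_le_mul_of_nonneg_left (geo _) (by positivity)

theorem second (c T x y θ Q P : ℝ) (s σ : ℕ) (hc : 0 < c) (hT0 : 0 < T)
    (hT : (4 * P) ^ (s + σ) ≤ T) (hQ0 : 0 ≤ Q) (hQ : Q ≤ c * θ ^ 2) (hθ : 0 ≤ θ) (hy : 0 ≤ y)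
    (hx : c * T * x ^ 2 ≤ (4 * P) ^ s * (Q * P ^ σ) * y ^ 2) : x ≤ θ * y * (2 / 3) ^ σ := by
  have h1 : c * T * (2 ^ σ * x) ^ 2 ≤ c * T * (θ * y) ^ 2 :=
    calc _ = 4 ^ σ * (c * T * x ^ 2) := by
          rw [mul_pow, ← pow_mul, mul_comm σ, pow_mul]; norm_num; ring
      _ ≤ 4 ^ σ * ((4 * P) ^ s * (Q * P ^ σ) * y ^ 2) :=
          mul_le_mul_of_nonneg_left hx (by positivity)
      _ = (4 * P) ^ (s + σ) * Q * y ^ 2 := by rw [pow_add, mul_pow 4 P σ]; ring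
      _ ≤ T * (c * θ ^ 2) * y ^ 2 :=
          mul_le_mul_of_nonneg_right (mul_le_mul hT hQ hQ0 hT0.le) (sq_nonneg _)
      _ = _ := by ring
  have h2 : 2 ^ σ * x ≤ θ * y :=
    (abs_le_of_sq_le_sq' (le_of_mul_le_mul_left h1 (by positivity)) (by positivity)).2
  have h3 : (1 : ℝ) ≤ 2 ^ σ * (2 / 3) ^ σ := by
    rw [← mul_pow]; exact one_le_pow₀ (by norm_num)
  refine le_of_mul_le_mul_left (h2.trans ?_) (show (0 : ℝ) < 2 ^ σ by positivity)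
  rw [mul_left_comm]
  exact le_mul_of_one_le_right (by positivity) h3

end COREx

theorem p_CORE (hCOV : S_COV) (hCRU : S_CRU) (hWK : S_WK) :
    S_CORE := by
  intro n hn p _ ε hε
  obtain ⟨w, w1, hR⟩ := hCRU n (by omega)
  obtain ⟨e, hW⟩ := hWK n hn
  have p2 : 2 ≤ p := two_le
  obtain ⟨κ, hκ⟩ : ∃ κ : ℕ, κ = 2 * (n + 1) ^ 2 := ⟨_, rfl⟩
  have κ1 : 1 ≤ κ := by rw [hκ]; exact Nat.succ_le_of_lt (by positivity)
  rw [← hκ] at hW
  obtain ⟨P, hP⟩ : ∃ P : ℕ, P = p ^ (e * w) := ⟨_, rfl⟩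
  have P1 : 1 ≤ P := hP ▸ Nat.one_le_pow _ _ (by omega)
  obtain ⟨L, hL⟩ : ∃ L : ℕ, L = (κ + 1) * (4 * P) + 1 := ⟨_, rfl⟩
  have L0 : (0 : ℝ) < L := by rw [hL]; positivity
  have n0 : (0 : ℝ) < n := by exact_mod_cast (by omega : 0 < n)
  obtain ⟨η₀, hη₀⟩ := exists_pow_lt_of_lt_one (x := ε / (30 * n * L)) (y := (2 / 3 : ℝ))
    (by positivity) (by norm_num)
  obtain ⟨η, η1, η3⟩ : ∃ η : ℕ, 1 ≤ η ∧ (2 / 3 : ℝ) ^ η ≤ ε / (30 * n * L) :=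
    ⟨η₀ + 1, by omega,
      (pow_le_pow_of_le_one (by norm_num) (by norm_num) (by omega)).trans hη₀.le⟩
  obtain ⟨θ, hθ⟩ : ∃ θ : ℝ, θ = ε / (6 * L) := ⟨_, rfl⟩
  have θ0 : 0 < θ := by rw [hθ]; positivity
  obtain ⟨Q, hQ⟩ : ∃ Q : ℝ, Q = (p : ℝ) ^ (e * (w * η)) := ⟨_, rfl⟩
  have Q0 : 0 ≤ Q := by rw [hQ]; positivity
  obtain ⟨c₀, hc₀⟩ := exists_nat_ge (Q / θ ^ 2)
  obtain ⟨c, c1, c2⟩ : ∃ c : ℕ, p ^ (n * κ) < c ∧ Q ≤ c * θ ^ 2 :=
    ⟨c₀ + (p ^ (n * κ) + 1), by omega,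
      (div_le_iff₀ (by positivity)).1 (hc₀.trans (Nat.cast_le.2 (Nat.le_add_right _ _)))⟩
  have c0 : 0 < c := lt_of_le_of_lt (Nat.zero_le _) c1
  refine ⟨w, κ, 4 * P, η, c, c0, fun t C hC => ?_⟩
  obtain ⟨k1, k2, k3⟩ := hCOV n p w κ (4 * P) η c t p2 (by omega) κ1 c1
  refine (COREx.cover _ (Nat.log (4 * P) (t + 1)) L (II κ (4 * P) t)
    (fun s m => {a ∈ C t | Short p (th p w (4 * P) η t s) (t - m) a} ∪
      {a ∈ C t | ¬ Short p (th p w (4 * P) η t s) (t - m) a ∧ m + κ * (4 * P) ^ s ≤ t ∧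
        ∃ i ≤ (4 * P) ^ s, Short p (c * (t + 1)) (t - m - i) a})
    ((5 * n * (2 / 3) ^ η + θ) * #(C t)) (by positivity) (hL ▸ k1) (fun a ha => ?_)
    fun s hs m hm => ?_).trans ?_
  · obtain ⟨s, hs, m, hm, h⟩ := k3 a (mem_filter.1 ha).2
    exact ⟨s, hs, m, hm, mem_union.2 (h.imp (fun h => mem_filter.2 ⟨(mem_filter.1 ha).1, h⟩)
      fun h => mem_filter.2 ⟨(mem_filter.1 ha).1, h⟩)⟩
  · have hch := hC.mono (k2 s m hm)
    obtain ⟨σ, hσ⟩ : ∃ σ, σ = Nat.log (4 * P) (t + 1) - s := ⟨_, rfl⟩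
    simp only [th, ← hσ] at hch ⊢
    have b1 := hR p (η + σ) m t C p2 (by omega)
      (Nat.le_of_lt_succ (mem_range.1 (mem_filter.1 hm).1)) hch
    refine (Nat.cast_le.2 (card_union_le _ _)).trans ?_
    rw [Nat.cast_add, add_mul, add_mul]
    refine add_le_add (b1.trans_eq (by rw [pow_add]; ring)) ?_
    by_cases hmt : m + κ * (4 * P) ^ s ≤ t
    · have b2 := hW p (w * (η + σ)) ((4 * P) ^ s) m t (c * (t + 1)) C
        (Nat.mul_pos w1 (by omega)) (Nat.one_le_pow _ _ (by omega)) hch hmt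
        {a ∈ C t | ¬ Short p (p ^ (w * (η + σ))) (t - m) a ∧ m + κ * (4 * P) ^ s ≤ t ∧
          ∃ i ≤ (4 * P) ^ s, Short p (c * (t + 1)) (t - m - i) a} (filter_subset _ _)
        fun a ha => ⟨(mem_filter.1 ha).2.1, (mem_filter.1 ha).2.2.2⟩
      refine COREx.second c (t + 1) _ _ θ Q P s σ (Nat.cast_pos.2 c0) (by positivity) ?_ Q0 c2
        θ0.le (Nat.cast_nonneg _) ?_
      · rw [hσ, Nat.add_sub_cancel' hs]
        exact_mod_cast Nat.pow_log_le_self (4 * P) t.succ_ne_zero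
      · rw [show e * (w * (η + σ)) = e * (w * η) + e * w * σ by ring, pow_add (p : ℝ),
          ← hQ, pow_mul (p : ℝ), ← Nat.cast_pow p, ← hP] at b2
        exact_mod_cast b2
    · rw [filter_false_of_mem fun a _ h => hmt h.2.1, card_empty, Nat.cast_zero]
      positivity
  · have e1 : (L : ℝ) * (5 * n * (ε / (30 * n * L)) + θ) * 3 = ε := by
      rw [hθ]; field_simp; ring
    calc _ = (L : ℝ) * (5 * n * (2 / 3) ^ η + θ) * 3 * #(C t) := by ring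
      _ ≤ (L : ℝ) * (5 * n * (ε / (30 * n * L)) + θ) * 3 * #(C t) := by gcongr
      _ = _ := by rw [e1]

end Pool.Agent.P.MP_246241_nt.VN
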