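import Pool.Agent.P.MP_246241_nt.VN.Iface

/-! Step COV. -/

set_option autoImplicit false
set_option linter.unusedSectionVars false

namespace Pool.Agent.P.MP_246241_nt.VN

open Finset Matrix
open scoped Classical

namespace COVx

theorem mem {κ Λ t s m : ℕ} :
    m ∈ II κ Λ t s ↔ m ≤ t ∧ Λ ^ s ∣ m ∧ t - m ≤ (κ + 1) * (Λ ^ s * Λ) := by
  rw [II, mem_filter, mem_range, Nat.lt_succ_iff, pow_succ]

theorem card {Λ : ℕ} (h : 2 ≤ Λ) (κ t s : ℕ) : #(II κ Λ t s) ≤ (κ + 1) * Λ + 1 := by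
  have hJ : 0 < Λ ^ s := by positivity
  rw [← card_range ((κ + 1) * Λ + 1)]
  refine card_le_card_of_injOn (fun m => (t - m) / Λ ^ s) (fun m hm => ?_) fun m hm m' hm' e => ?_
  · refine mem_coe.2 (mem_range.2 (Nat.lt_succ_of_le (Nat.div_le_of_le_mul ?_)))
    exact (mem.1 hm).2.2.trans_eq (by ring)
  · obtain ⟨a1, ⟨a, rfl⟩, -⟩ := mem.1 hm
    obtain ⟨b1, ⟨b, rfl⟩, -⟩ := mem.1 hm'
    simp only [Nat.sub_mul_div] at e
    rw [mul_comm, ← Nat.le_div_iff_mul_le hJ] at a1 b1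
    rw [show a = b by omega]

theorem floor (x : ℕ) {J : ℕ} (h : 0 < J) : ∃ m, J ∣ m ∧ m ≤ x ∧ x < m + J := by
  refine ⟨J * (x / J), dvd_mul_right _ _, Nat.mul_div_le x J, ?_⟩
  have := Nat.lt_mul_div_succ x h
  rwa [mul_add, mul_one] at this

end COVx

open COVx in
theorem p_COV :
    S_COV := by
  intro n p w κ Λ η c t hp hΛ hκ hc
  refine ⟨card hΛ κ t, fun s m hm u hu a hg hmu hs => ?_, fun a hg => ?_⟩
  · obtain ⟨-, a2, a3⟩ := mem.1 hm
    refine hg.2 s m (mem.2 ⟨hmu, a2, by omega⟩)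
      (hs.mono (Nat.pow_le_pow_right (by omega) (Nat.mul_le_mul_left _ ?_)))
    have := Nat.log_mono_right (b := Λ) (show u + 1 ≤ t + 1 by omega)
    omega
  by_cases h2 : ∀ s, ∀ m ∈ II κ Λ t s, ¬ Short p (th p w Λ η t s) (t - m) a
  · have h1 : ¬ ∀ l ≤ t, ¬ Short p (c * (t + 1)) l a := fun h => hg ⟨h, h2⟩
    push Not at h1
    obtain ⟨l, hl, hs⟩ := h1
    have a1 : κ < l := Nat.lt_of_mul_lt_mul_left ((Nat.pow_lt_pow_iff_right (by omega : 1 < p)).1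
      (hc.trans_le ((Nat.le_mul_of_pos_right c t.succ_pos).trans (short_le (by omega) hs))))
    have a0 : 0 < l / κ := Nat.div_pos a1.le hκ
    have a2 := Nat.pow_log_le_self Λ a0.ne'
    have a3 := Nat.lt_pow_succ_log_self (by omega : 1 < Λ) (l / κ)
    generalize Nat.log Λ (l / κ) = s at a2 a3
    rw [pow_succ] at a3
    have c1 : κ * Λ ^ s ≤ l := (Nat.mul_le_mul_left κ a2).trans (Nat.mul_div_le l κ)
    have c2 : l < κ * (Λ ^ s * Λ) :=
      (Nat.lt_mul_div_succ l hκ).trans_le (Nat.mul_le_mul_left κ a3)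
    have c3 : Λ ^ s ≤ Λ ^ s * Λ := Nat.le_mul_of_pos_right _ (by omega)
    have c4 : Λ ^ s ≤ l := a2.trans (Nat.div_le_self _ _)
    obtain ⟨m, b1, b2, b3⟩ := floor (t - l) (show 0 < Λ ^ s by positivity)
    have hm : m ∈ II κ Λ t s := mem.2 ⟨by omega, b1, by rw [add_mul, one_mul]; omega⟩
    refine ⟨s, Nat.le_log_of_pow_le (by omega) (by omega), m, hm,
      Or.inr ⟨h2 s m hm, by omega, t - l - m, by omega, ?_⟩⟩
    rwa [show t - m - (t - l - m) = l by omega]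
  · push Not at h2
    obtain ⟨s, m, hm, hs⟩ := h2
    by_cases e : s ≤ Nat.log Λ (t + 1)
    · exact ⟨s, e, m, hm, Or.inl hs⟩
    have a1 := Nat.lt_pow_succ_log_self (by omega : 1 < Λ) (t + 1)
    have a2 : Λ ^ (Nat.log Λ (t + 1)).succ ≤ Λ ^ s := Nat.pow_le_pow_right (by omega) (by omega)
    obtain ⟨b1, b2, -⟩ := mem.1 hm
    obtain rfl : m = 0 := Nat.eq_zero_of_dvd_of_lt b2 (by omega)
    rw [pow_succ] at a1
    refine ⟨_, le_rfl, 0, mem.2 ⟨b1, dvd_zero _, by rw [add_mul, one_mul]; omega⟩, Or.inl ?_⟩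
    rw [th, show Nat.log Λ (t + 1) - s = 0 by omega] at hs
    rwa [th, Nat.sub_self]

end Pool.Agent.P.MP_246241_nt.VN
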