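import Pool.Agent.P.MP_246241_nt.VN.Iface

/-! Step CRU. -/

set_option autoImplicit false
set_option linter.unusedSectionVars false

namespace Pool.Agent.P.MP_246241_nt.VN

open Finset Matrix
open scoped Classical

theorem p_CRU (hCRU1 : S_CRU1) :
    S_CRU := by
  intro n hn
  obtain ⟨w, hw, h1⟩ := hCRU1 n hn
  refine ⟨w, le_trans (by nlinarith) hw, fun p η m t C hp hη hm hC => ?_⟩
  by_cases h0 : t - m < (n + 1) * η
  · rw [filter_eq_empty_iff.2 fun a _ hs => ?_]
    · simp only [card_empty, Nat.cast_zero]; positivity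
    · have h2 := (Nat.pow_le_pow_iff_right (by omega)).1 (short_le (by omega) hs)
      have h3 := Nat.mul_le_mul_right η hw
      have h4 := (Nat.mul_lt_mul_left (a := n) (by omega)).2 h0
      rw [mul_assoc] at h3
      omega
  have hb : 1 ≤ (n + 1) * η := Nat.mul_pos (by omega) hη
  have hl : ls n ^ ((n + 1) * η) ≤ (2 / 3) ^ η * (p : ℝ) ^ η := by
    have hp' : (2 : ℝ) ≤ p := by exact_mod_cast hp
    have := one_le_ls n
    rw [pow_mul, ← mul_pow]
    refine pow_le_pow_left₀ (by positivity) ?_ _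
    have := (pow_le_pow_right₀ this (show n + 1 ≤ 4 * (n + 1) by omega)).trans (ls_pow n)
    linarith
  have h1' := fun l a₀ S => h1 p η l a₀ S hp hη
  generalize (n + 1) * η = b at h0 hb hl h1'
  obtain ⟨u, rfl⟩ : ∃ u, t = u + b := ⟨t - b, by omega⟩
  have hu : m ≤ u := by omega
  have ha := hC.anc u (b - 1) (by omega)
  rw [show b - 1 + 1 = b by omega] at ha
  have hq : 0 < p ^ η := by positivity
  have h2 : #{a ∈ C (u + b) | Short p (p ^ (w * η)) (u + b - m) a} ≤
      5 * n * p ^ (n * b) / p ^ η * #(C u) := by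
    refine card_le_mul_card_image_of_maps_to (f := pre p b)
      (fun a h => (ha a (mem_filter.1 h).1).1) _ fun c _ => ?_
    rcases eq_empty_or_nonempty
      {a ∈ {a ∈ C (u + b) | Short p (p ^ (w * η)) (u + b - m) a} | pre p b a = c} with h | ⟨a, h⟩
    · rw [h]; simp
    · have h2 := mem_filter.1 h
      refine (Nat.le_div_iff_mul_le hq).2 (h1' (u - m) c _
        (h2.2 ▸ (ha a (mem_filter.1 h2.1).1).2 hu) fun x hx => ?_)
      have h3 := mem_filter.1 hx
      refine ⟨h3.2, ?_⟩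
      rw [show u - m + b = u + b - m by omega]
      exact (mem_filter.1 h3.1).2
  have h3 : #{a ∈ C (u + b) | Short p (p ^ (w * η)) (u + b - m) a} * p ^ η ≤
      5 * n * (p ^ (n * b) * #(C u)) :=
    calc _ ≤ 5 * n * p ^ (n * b) / p ^ η * #(C u) * p ^ η := Nat.mul_le_mul_right _ h2
      _ = 5 * n * p ^ (n * b) / p ^ η * p ^ η * #(C u) := by ring
      _ ≤ 5 * n * p ^ (n * b) * #(C u) := Nat.mul_le_mul_right _ (Nat.div_mul_le_self _ _)
      _ = _ := by ring
  have hq' : (0 : ℝ) < (p : ℝ) ^ η := by exact_mod_cast hq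
  refine le_of_mul_le_mul_right ?_ hq'
  calc _ ≤ 5 * n * ((p : ℝ) ^ (n * b) * #(C u)) := by exact_mod_cast h3
    _ ≤ 5 * n * (ls n ^ b * #(C (u + b))) :=
        mul_le_mul_of_nonneg_left (hC.grow u b le_rfl) (by positivity)
    _ ≤ 5 * n * ((2 / 3) ^ η * (p : ℝ) ^ η * #(C (u + b))) := by gcongr
    _ = _ := by ring

end Pool.Agent.P.MP_246241_nt.VN
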