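import Pool.Agent.P.MP_246241_nt.VN.Iface

/-! Step DIR. -/

set_option autoImplicit false
set_option linter.unusedSectionVars false

namespace Pool.Agent.P.MP_246241_nt.VN

open Finset Matrix
open scoped Classical

theorem p_DIR :
    S_DIR := by
  intro Q _ R ξ
  have hQ : (0 : ℝ) < Q := Nat.cast_pos.2 (NeZero.pos Q)
  set x : ℤ := ξ.valMinAbs with hx
  set z : ℂ := ZMod.stdAddChar ξ with hz
  have hs : ∑ a ∈ range R, ZMod.stdAddChar (((a : ℕ) : ZMod Q) * ξ) = ∑ a ∈ range R, z ^ a :=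
    sum_congr rfl fun a _ => by rw [← nsmul_eq_mul, AddChar.map_nsmul_eq_pow]
  have hz1 : ‖z‖ = 1 := by rw [hz, ZMod.stdAddChar_apply, Circle.norm_coe]
  have h2 : ‖∑ a ∈ range R, z ^ a‖ * ‖z - 1‖ ≤ 2 := by
    rw [← norm_mul, geom_sum_mul]
    refine (norm_sub_le _ _).trans ?_
    rw [norm_pow, hz1]; norm_num
  have hze : z = Complex.exp (Complex.I * ((2 * Real.pi * x / Q : ℝ) : ℂ)) := by
    rw [hz, ← ZMod.coe_valMinAbs ξ, ZMod.stdAddChar_coe, ← hx]
    congr 1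
    push_cast
    ring
  have hxa : 2 * |(x : ℝ)| ≤ Q := by
    have h := ZMod.natAbs_valMinAbs_le ξ
    have h' : 2 * x.natAbs ≤ Q := by rw [hx]; omega
    have h3 : ((2 * x.natAbs : ℕ) : ℝ) ≤ Q := Nat.cast_le.2 h'
    rw [Nat.cast_mul, Nat.cast_natAbs, Int.cast_abs] at h3
    exact_mod_cast h3
  have h4 : 4 * |(x : ℝ)| ≤ Q * ‖z - 1‖ := by
    rw [hze, Complex.norm_exp_I_mul_ofReal_sub_one, norm_mul, Real.norm_eq_abs, Real.norm_eq_abs,
      abs_two]
    have e : |2 * Real.pi * x / Q / 2| = Real.pi * |(x : ℝ)| / Q := by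
      rw [show 2 * Real.pi * x / Q / 2 = Real.pi * x / Q by ring, abs_div, abs_mul,
        abs_of_pos Real.pi_pos, abs_of_pos hQ]
    have h5 := Real.mul_abs_le_abs_sin (x := 2 * Real.pi * x / Q / 2) (by
      rw [e, div_le_iff₀ hQ]
      nlinarith [Real.pi_pos])
    rw [e, show 2 / Real.pi * (Real.pi * |(x : ℝ)| / Q) = 2 * |(x : ℝ)| / Q by
      field_simp, div_le_iff₀ hQ] at h5
    nlinarith
  rw [hs]
  nlinarith [norm_nonneg (∑ a ∈ range R, z ^ a),
    mul_le_mul_of_nonneg_left h4 (norm_nonneg (∑ a ∈ range R, z ^ a)),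
    mul_le_mul_of_nonneg_left h2 hQ.le]

end Pool.Agent.P.MP_246241_nt.VN
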