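import Pool.Agent.P.MP_246241_nt.VN.Iface

/-! Step EDEN. -/

set_option autoImplicit false
set_option linter.unusedSectionVars false

namespace Pool.Agent.P.MP_246241_nt.VN

open Finset Matrix
open scoped Classical

namespace EDENx

theorem key {p j i : ℕ} [Fact p.Prime] (h : i ≤ j) {M : Type} [Fintype M] [AddCommGroup M]
    (φ : M → RR p j) (e : RR p j → M) (he : ∀ m r, φ (m + e r) = φ m + r) :
    #{m : M | (p : RR p j) ^ i ∣ φ m} * p ^ i ≤ Fintype.card M := by
  rw [← card_range (p ^ i), ← card_product]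
  refine le_trans (card_le_card_of_injOn (t := univ) (fun x => x.1 + e (x.2 : RR p j))
    (fun _ _ => mem_univ _) ?_) (by rw [card_univ])
  rintro ⟨a, r⟩ ha ⟨b, s⟩ hb (e1 : a + e r = b + e s)
  simp only [coe_product, Set.mem_prod, mem_coe, mem_filter, mem_range] at ha hb
  have e2 := congrArg φ e1
  rw [he, he] at e2
  have h1 : (p : RR p j) ^ i ∣ (((r : ℤ) - s : ℤ) : RR p j) := by
    have e3 : (((r : ℤ) - s : ℤ) : RR p j) = φ b - φ a := by
      push_cast; linear_combination e2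
    rw [e3]
    exact dvd_sub hb.1.2 ha.1.2
  have h2 := Int.eq_zero_of_abs_lt_dvd ((int_dvd_iff h _).1 h1) (by
    have a1 : (r : ℤ) < p ^ i := mod_cast ha.2
    have a2 : (s : ℤ) < p ^ i := mod_cast hb.2
    rw [abs_lt]; omega)
  obtain rfl : r = s := by omega
  rw [add_right_cancel e1]

end EDENx

theorem p_EDEN :
    S_EDEN := by
  rintro D p j _ i x h ⟨c₀, u, hu⟩
  have h1 : ∀ r : RR p j, Pi.single c₀ (r * ↑u⁻¹) ⬝ᵥ x = r := fun r => by
    rw [single_dotProduct, ← hu, Units.inv_mul_cancel_right]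
  refine ⟨(EDENx.key h (fun ρ : AA D p j => ρ ⬝ᵥ x) (fun r => Pi.single c₀ (r * ↑u⁻¹))
    fun m r => ?_).trans_eq card_AA, fun c => (EDENx.key h (fun G : MM D p j => (G *ᵥ x) c)
      (fun r => Matrix.of fun _ => Pi.single c₀ (r * ↑u⁻¹)) fun m r => ?_).trans_eq card_MM⟩
  · rw [add_dotProduct, h1]
  · rw [add_mulVec, Pi.add_apply]
    exact congrArg _ (h1 r)

end Pool.Agent.P.MP_246241_nt.VN
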