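import Pool.Agent.P.MP_246241_nt.VN.Iface

/-! Step ESET. -/

set_option autoImplicit false
set_option linter.unusedSectionVars false

namespace Pool.Agent.P.MP_246241_nt.VN

open Finset Matrix
open scoped Classical

namespace ESETx

/-- The radius of the box. -/
def rad (D H N : ℕ) : ℕ := Nat.findGreatest (fun r => H * r ^ D ≤ N) N

/-- The admissible vectors in a box. -/
noncomputable def bx (D p r : ℕ) : Finset (Fin D → ℤ) :=
  (Fintype.piFinset fun _ : Fin D => Icc (-(r : ℤ)) r).filter fun ρ => ∃ c, ¬ (p : ℤ) ∣ ρ c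

theorem mul_card (D p H N : ℕ) : H * #(bx D p (rad D H N)) ≤ 3 ^ D * N := by
  rcases Nat.eq_zero_or_pos (rad D H N) with h | h
  · have : bx D p (rad D H N) = ∅ := by
      rw [h]
      refine filter_eq_empty_iff.2 fun ρ hρ ⟨c, hc⟩ => hc ?_
      have := Fintype.mem_piFinset.1 hρ c
      simp only [Nat.cast_zero, neg_zero, Icc_self, mem_singleton] at this
      rw [this]
      exact dvd_zero _
    rw [this]; simp
  · have h1 : H * rad D H N ^ D ≤ N :=
      Nat.findGreatest_of_ne_zero (P := fun r => H * r ^ D ≤ N) rfl h.ne'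
    have h2 : #(bx D p (rad D H N)) ≤ (3 * rad D H N) ^ D := by
      refine (card_filter_le _ _).trans ((Fintype.card_piFinset _).trans_le ?_)
      simp only [Int.card_Icc, prod_const, card_univ, Fintype.card_fin]
      exact Nat.pow_le_pow_left (by omega) _
    calc _ ≤ H * (3 * rad D H N) ^ D := Nat.mul_le_mul_left _ h2
      _ = 3 ^ D * (H * rad D H N ^ D) := by ring
      _ ≤ _ := Nat.mul_le_mul_left _ h1

theorem mem_Icc_of {D H N : ℕ} (hH : 1 ≤ H) (hD : D ≠ 0) {w : ℤ} (h : (H : ℤ) * |w| ^ D ≤ (N : ℤ)) :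
    w ∈ Icc (-(rad D H N : ℤ)) (rad D H N) := by
  have h1 : H * w.natAbs ^ D ≤ N := by
    have : ((H * w.natAbs ^ D : ℕ) : ℤ) ≤ N := by
      push_cast
      exact h
    exact_mod_cast this
  have h2 : w.natAbs ≤ N :=
    (Nat.le_self_pow hD _).trans ((Nat.le_mul_of_pos_left _ hH).trans h1)
  have h3 : w.natAbs ≤ rad D H N := Nat.le_findGreatest (P := fun r => H * r ^ D ≤ N) h2 h1
  rw [mem_Icc]
  omega

end ESETx

open ESETx in
theorem p_ESET (hEDEN : S_EDEN) :
    S_ESET := by
  intro D p j hp G H hH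
  have hp0 : 0 < p := hp.out.pos
  refine ⟨(Icc 1 j).biUnion fun i => (bx D p (rad D H (G * p ^ i))).biUnion fun ρ =>
    {x : AA D p j | (p : RR p j) ^ i ∣ x ⬝ᵥ rv (RR p j) ρ}, ?_, ?_⟩
  · have key : ∀ i ∈ Icc 1 j, H * #((bx D p (rad D H (G * p ^ i))).biUnion fun ρ =>
        ({x : AA D p j | (p : RR p j) ^ i ∣ x ⬝ᵥ rv (RR p j) ρ} : Finset (AA D p j))) ≤
        3 ^ D * G * (p ^ j) ^ D := by
      intro i hi
      rw [mem_Icc] at hi
      refine Nat.le_of_mul_le_mul_right ?_ (pow_pos hp0 i)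
      have h1 : #((bx D p (rad D H (G * p ^ i))).biUnion fun ρ =>
          ({x : AA D p j | (p : RR p j) ^ i ∣ x ⬝ᵥ rv (RR p j) ρ} : Finset (AA D p j))) * p ^ i ≤
          #(bx D p (rad D H (G * p ^ i))) * (p ^ j) ^ D := by
        refine (Nat.mul_le_mul_right _ card_biUnion_le).trans ?_
        rw [sum_mul, ← smul_eq_mul]
        refine sum_le_card_nsmul _ _ _ fun ρ hρ => ?_
        obtain ⟨c, hc⟩ := (mem_filter.1 hρ).2
        exact (hEDEN D p j i (rv (RR p j) ρ) hi.2 ⟨c, unit_int hc⟩).1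
      rw [mul_assoc]
      refine (Nat.mul_le_mul_left _ h1).trans ?_
      rw [← mul_assoc]
      refine (Nat.mul_le_mul_right _ (mul_card D p H (G * p ^ i))).trans (le_of_eq ?_)
      ring
    refine (Nat.mul_le_mul_left _ card_biUnion_le).trans ?_
    rw [mul_sum]
    refine (sum_le_card_nsmul _ _ _ key).trans (le_of_eq ?_)
    rw [Nat.card_Icc, smul_eq_mul, Nat.add_sub_cancel]
    ring
  · intro u ρ i
    induction i generalizing ρ with
    | zero =>
      intro _ h0 _ h2
      obtain ⟨c, hc⟩ := Function.ne_iff.1 h0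
      have h3 := (le_mul_of_one_le_right (Nat.cast_nonneg H)
        (one_le_pow₀ (Int.one_le_abs hc))).trans (h2 c)
      rw [pow_zero, mul_one] at h3
      omega
    | succ i ih =>
      intro hi h0 h1 h2
      obtain ⟨c₀, hc₀⟩ := Function.ne_iff.1 h0
      have hD : D ≠ 0 := c₀.pos.ne'
      have hpz : (0 : ℤ) < p := by exact_mod_cast hp0
      by_cases hd : ∀ c, (p : ℤ) ∣ ρ c
      · choose σ hσ using hd
        have e : ρ = (p : ℤ) • σ := funext fun c => hσ c
        refine ih σ (by omega) (fun h => h0 (by rw [e, h, smul_zero])) ?_ fun c => ?_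
        · rw [e, smul_dotProduct, smul_eq_mul, pow_succ'] at h1
          exact (mul_dvd_mul_iff_left hpz.ne').1 h1
        · have h3 := h2 c
          rw [hσ c, abs_mul, abs_of_pos hpz, mul_pow, pow_succ] at h3
          have h4 : (p : ℤ) ≤ (p : ℤ) ^ D := le_self_pow₀ hpz hD
          have h5 : (0 : ℤ) ≤ (H : ℤ) * |σ c| ^ D := by positivity
          refine le_of_mul_le_mul_right ?_ hpz
          calc _ ≤ (H : ℤ) * |σ c| ^ D * (p : ℤ) ^ D := mul_le_mul_of_nonneg_left h4 h5
            _ = (H : ℤ) * ((p : ℤ) ^ D * |σ c| ^ D) := by ring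
            _ ≤ _ := h3
            _ = _ := by ring
      · push Not at hd
        refine mem_biUnion.2 ⟨i + 1, mem_Icc.2 ⟨by omega, hi⟩, mem_biUnion.2 ⟨ρ, mem_filter.2
          ⟨Fintype.mem_piFinset.2 fun c => mem_Icc_of (by omega) hD (by exact_mod_cast h2 c), hd⟩,
          mem_filter.2 ⟨mem_univ _, ?_⟩⟩⟩
        rw [dotProduct_comm, rv_dot]
        exact (int_dvd_iff hi _).2 h1

end Pool.Agent.P.MP_246241_nt.VN
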