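import Pool.Agent.P.MP_246241_nt.VN.Iface

/-! Step FFB. -/

set_option autoImplicit false
set_option linter.unusedSectionVars false

namespace Pool.Agent.P.MP_246241_nt.VN

open Finset Matrix
open scoped Classical

namespace FFBx

theorem pr {n p j : ℕ} [Fact p.Prime] (g : Gl (n + 1)) : Pr (rv (RR p j) (col g)) := by
  by_contra h
  have h1 : (p : RR p j) ∣ 1 := by
    have e := congrFun (congrFun (rd_inv_mul (R := RR p j) g) 0) 0
    rw [mul_apply, one_apply_eq] at e
    rw [← e]
    exact dvd_sum fun k _ =>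
      ((unit_or_dvd _).resolve_left fun hk => h ⟨k, hk⟩).mul_left _
  obtain ⟨t, ht⟩ := h1
  have h2 := unit_one_add (-t)
  rw [mul_neg, ← ht, add_neg_cancel, isUnit_zero_iff] at h2
  exact h ⟨0, by rw [← mul_one (rv _ _ _), ← h2, mul_zero, h2]; exact isUnit_one⟩

end FFBx

theorem p_FFB :
    S_FFB := by
  intro n p j _ B l S
  have hs : ∑ x, FF p j B l S x = #S := by
    simp only [FF]
    exact_mod_cast (card_eq_sum_card_fiberwise fun a _ => mem_coe.2 (mem_univ _)).symm
  refine ⟨fun x h => ?_, hs, ?_⟩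
  · rw [FF, Nat.cast_eq_zero, card_eq_zero, filter_eq_empty_iff]
    exact fun a _ e => h (e ▸ FFBx.pr _)
  · rw [← hs]
    exact sum_sq_le_sq_sum_of_nonneg fun x _ => FF_nonneg _ _ _ _ _ _

end Pool.Agent.P.MP_246241_nt.VN
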