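import Pool.Agent.P.MP_246241_nt.VN.Iface

/-! Step FIBR. -/

set_option autoImplicit false
set_option linter.unusedSectionVars false

namespace Pool.Agent.P.MP_246241_nt.VN

open Finset Matrix
open scoped Classical

namespace FIBRx

/-- The integers of an interval in a residue class. -/
noncomputable def cl {p j : ℕ} (N : ℕ) (a : RR p j) : Finset ℤ :=
  (Icc (-(N : ℤ)) (N : ℤ)).filter fun x : ℤ => (x : RR p j) = a

theorem mem_cl {p j N : ℕ} {a : RR p j} {x : ℤ} :
    x ∈ cl N a ↔ (-(N : ℤ) ≤ x ∧ x ≤ N) ∧ (x : RR p j) = a := by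
  rw [cl, mem_filter, mem_Icc]

theorem cnt {p j : ℕ} {N : ℕ} (h : p ^ j ≤ N) (a : RR p j) : p ^ j * #(cl N a) ≤ 3 * N := by
  have h1 : #(range (p ^ j) ×ˢ cl N a) ≤ #(Ico (-(N : ℤ)) (N + N)) := by
    refine card_le_card_of_injOn (fun z : ℕ × ℤ => z.2 + z.1) (fun z hz => ?_)
      fun z hz w hw e => ?_
    · rw [mem_coe, mem_product, mem_range, mem_cl] at hz
      rw [mem_coe, mem_Ico]
      beta_reduce
      omega
    · rw [mem_coe, mem_product, mem_range, mem_cl] at hz hw
      have e1 := congrArg (Int.cast : ℤ → RR p j) e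
      simp only [Int.cast_add, Int.cast_natCast, hz.2.2, hw.2.2, add_right_inj] at e1
      have e2 : z.1 = w.1 := by
        have := (ZMod.natCast_eq_natCast_iff' _ _ _).1 e1
        rwa [Nat.mod_eq_of_lt hz.1, Nat.mod_eq_of_lt hw.1] at this
      refine Prod.ext e2 ?_
      simp only [e2, add_left_inj] at e
      exact e
  rw [card_product, card_range, Int.card_Ico] at h1
  omega

theorem fibre {D p j : ℕ} {N : Fin D → ℕ} (Δ : ℕ) (h : ∀ c, p ^ j ≤ N c) (G : MM D p j) :
    (p ^ j) ^ (D * D) * #{g ∈ box p N Δ | rd (RR p j) g = G} ≤ (∏ c, 3 * N c) ^ D := by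
  have h1 : {g ∈ box p N Δ | rd (RR p j) g = G} ⊆ (Fintype.piFinset fun i : Fin D =>
      Fintype.piFinset fun c => cl (N c) (G i c) : Finset (Fin D → Fin D → ℤ)) := fun g hg => by
    obtain ⟨h2, rfl⟩ := mem_filter.1 hg
    exact Fintype.mem_piFinset.2 fun i => Fintype.mem_piFinset.2 fun c =>
      mem_cl.2 ⟨abs_le.1 ((mem_box.1 h2).1 i c), rfl⟩
  refine (Nat.mul_le_mul_left _ ((card_le_card h1).trans_eq (Fintype.card_piFinset _))).trans ?_
  simp only [Fintype.card_piFinset]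
  calc _ = ∏ i : Fin D, ∏ c : Fin D, p ^ j * #(cl (N c) (G i c)) := by
        simp only [prod_mul_distrib, prod_const, card_univ, Fintype.card_fin, ← pow_mul, mul_assoc]
    _ ≤ ∏ _i : Fin D, ∏ c : Fin D, 3 * N c :=
        prod_le_prod' fun i _ => prod_le_prod' fun c _ => cnt (h c) _
    _ = _ := by rw [prod_const, card_univ, Fintype.card_fin]

end FIBRx

theorem p_FIBR :
    S_FIBR := by
  intro D p j _ N Δ Φ h0 h
  rw [← sum_fiberwise_of_maps_to (s := box p N Δ) (t := UU D p j) (g := rd (RR p j))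
    (fun g hg => rd_mem_UU (mem_box.1 hg).2.1), mul_sum, mul_sum]
  refine sum_le_sum fun G _ => ?_
  rw [sum_congr rfl fun g hg => congrArg Φ (mem_filter.1 hg).2, sum_const, nsmul_eq_mul,
    ← mul_assoc]
  refine mul_le_mul_of_nonneg_right ?_ (h0 G)
  exact_mod_cast FIBRx.fibre Δ h G

end Pool.Agent.P.MP_246241_nt.VN
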