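import Pool.Agent.P.MP_246241_nt.VN.Iface

/-! Step FIN. -/

set_option autoImplicit false
set_option linter.unusedSectionVars false

namespace Pool.Agent.P.MP_246241_nt.VN

open Finset Matrix
open scoped Classical

namespace FINx

theorem exists_v (c B : ℕ) : ∃ v, c * (B + v) ≤ 2 ^ v := by
  obtain ⟨x, hx⟩ : ∃ x, x = 2 * c + c * B + 1 := ⟨_, rfl⟩
  refine ⟨x + x, ?_⟩
  have h : x + 1 ≤ 2 ^ x := Nat.lt_two_pow_self
  rw [pow_add]
  refine le_trans ?_ (Nat.mul_le_mul h h)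
  have h1 : x * (2 * c + c * B) ≤ x * x := Nat.mul_le_mul_left _ (by omega)
  have h2 : c * B ≤ x * (c * B) := Nat.le_mul_of_pos_left _ (by omega)
  nlinarith

theorem exists_l {n p c v m q L : ℕ} (hn : 1 ≤ n) (hp : 2 ≤ p) (hc : 1 ≤ c)
    (hv : c * (2 * (n + 1) + 2 + v) ≤ 2 ^ v) (hq : 1 ≤ q) (hqL : q < 2 ^ L) (hm : m < L) :
    ∃ l, (2 * q) ^ (n + 1) * (c * (m + l + 1)) ≤ p ^ (n * l) ∧
      m + l + 1 ≤ (2 * (n + 1) + 2 + v) * L ∧
      p ^ (n * l) ≤ p ^ n * ((2 * q) ^ (n + 1) * (c * ((2 * (n + 1) + 2 + v) * L))) := by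
  obtain ⟨u, hu⟩ : ∃ u, u = 2 * (n + 1) + 1 + v := ⟨_, rfl⟩
  rw [show 2 * (n + 1) + 2 + v = u + 1 by omega] at hv ⊢
  have h1 : m + u * L + 1 ≤ (u + 1) * L := by nlinarith
  have h0 : (2 * q) ^ (n + 1) * (c * (m + u * L + 1)) ≤ p ^ (n * (u * L)) := by
    have h2 : L ≤ 2 ^ L := Nat.lt_two_pow_self.le
    have h3 : 2 * q ≤ 2 ^ L * 2 ^ L :=
      Nat.mul_le_mul (Nat.le_self_pow (by omega) 2) hqL.le
    have h4 : 2 ^ v ≤ 2 ^ (v * L) :=
      Nat.pow_le_pow_right two_pos (Nat.le_mul_of_pos_right _ (by omega))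
    calc _ ≤ (2 * q) ^ (n + 1) * (c * ((u + 1) * L)) := by gcongr
      _ = (2 * q) ^ (n + 1) * L * (c * (u + 1)) := by ring
      _ ≤ (2 ^ L * 2 ^ L) ^ (n + 1) * 2 ^ L * 2 ^ (v * L) := by gcongr; exact hv.trans h4
      _ = 2 ^ (u * L) := by rw [hu]; ring
      _ ≤ p ^ (u * L) := Nat.pow_le_pow_left hp _
      _ ≤ _ := Nat.pow_le_pow_right (by omega) (Nat.le_mul_of_pos_left _ hn)
  have hex : ∃ l, (2 * q) ^ (n + 1) * (c * (m + l + 1)) ≤ p ^ (n * l) := ⟨_, h0⟩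
  have hle : Nat.find hex ≤ u * L := Nat.find_min' hex h0
  refine ⟨Nat.find hex, Nat.find_spec hex, by omega, ?_⟩
  rcases hl : Nat.find hex with _ | l
  · rw [mul_zero, pow_zero]
    have : 0 < L := by omega
    exact Nat.succ_le_of_lt (by positivity)
  · have h3 := not_le.1 (Nat.find_min hex (m := l) (by omega))
    have h4 : m + l + 1 ≤ (u + 1) * L := by omega
    rw [mul_add_one, pow_add, mul_comm]
    refine Nat.mul_le_mul_left _ (h3.le.trans ?_)
    gcongr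

theorem log_le {k : ℕ} (hk : 2 ≤ k) : ((Nat.log 2 k + 1 : ℕ) : ℝ) ≤ 3 * Real.log k := by
  have h1 := Real.natLog_le_logb k 2
  have h2 := Real.log_two_gt_d9
  have h3 : Real.log 2 ≤ Real.log k := Real.log_le_log two_pos (by exact_mod_cast hk)
  rw [Real.logb, Nat.cast_ofNat, le_div_iff₀ (by linarith)] at h1
  have h4 : (0 : ℝ) ≤ Nat.log 2 k := Nat.cast_nonneg _
  push_cast
  nlinarith

theorem core {n : ℕ} {p P Q H H' A R x : ℝ} (hp : 1 ≤ p) (hQ : 0 < Q) (hH : 0 < H) (hP : 0 < P)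
    (hA : |A| ≤ 1) (hx : x = P * R - Q * A) (h1 : (2 * Q) ^ (n + 1) * H ≤ P ^ n)
    (h2 : P ^ n < H * |x| ^ (n + 1)) (h3 : H ≤ H') (h4 : P ^ n ≤ p ^ n * ((2 * Q) ^ (n + 1) * H')) :
    1 ≤ p * 2 ^ (n + 1) * H' * Q * |R| ^ n := by
  have h5 : 2 * Q < |x| := lt_of_pow_lt_pow_left₀ (n + 1) (abs_nonneg _)
    (lt_of_mul_lt_mul_left (a := H) (by linarith) hH.le)
  have h6 : |x| ≤ P * |R| + Q * |A| := by
    rw [hx]
    refine (abs_sub _ _).trans (le_of_eq ?_)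
    rw [abs_mul, abs_mul, abs_of_pos hP, abs_of_pos hQ]
  have h7 : |x| ≤ 2 * P * |R| := by nlinarith
  have hH' := hH.trans_le h3
  have h8 : 1 ≤ H' * 2 ^ (n + 1) * P * |R| ^ (n + 1) := by
    refine le_of_mul_le_mul_left ?_ (pow_pos hP n)
    calc _ ≤ H * |x| ^ (n + 1) := by linarith
      _ ≤ H' * (2 * P * |R|) ^ (n + 1) := by gcongr
      _ = _ := by ring
  refine (one_le_pow_iff_of_nonneg (by positivity) n.add_one_ne_zero).1 ?_
  calc _ ≤ (H' * 2 ^ (n + 1) * P * |R| ^ (n + 1)) ^ n := one_le_pow₀ h8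
    _ = (H' * 2 ^ (n + 1) * |R| ^ (n + 1)) ^ n * P ^ n := by ring
    _ ≤ (H' * 2 ^ (n + 1) * |R| ^ (n + 1)) ^ n * (p ^ (n + 1) * ((2 * Q) ^ (n + 1) * H')) := by
        refine mul_le_mul_of_nonneg_left (h4.trans ?_) (by positivity)
        gcongr
        omega
    _ = _ := by ring

end FINx

theorem p_FIN :
    S_FIN := by
  intro n p c α hn hp hc h
  have : Fact p.Prime := ⟨hp⟩
  obtain ⟨v, hv⟩ := FINx.exists_v c (2 * (n + 1) + 2)
  have hp0 : (0 : ℝ) < p := by exact_mod_cast hp.pos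
  have hc0 : (0 : ℝ) < c := by exact_mod_cast hc
  obtain ⟨K, hK⟩ : ∃ K : ℝ, K = p * 2 ^ (n + 1) * (c * ((2 * (n + 1) + 2 + v : ℕ) * 3)) := ⟨_, rfl⟩
  have K0 : 0 < K := by rw [hK]; positivity
  refine ⟨(1 / K) ^ ((1 : ℝ) / n), by positivity, fun k hk => ?_⟩
  obtain ⟨q, hq⟩ := pow_padicValNat_dvd (p := p) (n := k)
  set m := padicValNat p k with hm
  have hq1 : 1 ≤ q := Nat.pos_of_ne_zero fun e => by rw [e] at hq; omega
  have hq0 : (0 : ℝ) < q := by exact_mod_cast hq1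
  have hkq : (k : ℝ) = p ^ m * q := by exact_mod_cast hq
  have hk' : (k : ℝ) * ((padicNorm p (k : ℚ) : ℚ) : ℝ) = q := by
    rw [padicNorm.eq_zpow_of_nonzero (by exact_mod_cast (by omega : k ≠ 0)), padicValRat.of_nat,
      ← hm, hkq]
    push_cast
    rw [_root_.zpow_neg, _root_.zpow_natCast]
    field_simp
  have hL := Nat.lt_pow_succ_log_self (b := 2) one_lt_two k
  have hpm : 2 ^ m ≤ p ^ m := Nat.pow_le_pow_left hp.two_le _
  have h2m : 1 ≤ 2 ^ m := Nat.one_le_two_pow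
  obtain ⟨l, l1, l2, l3⟩ := FINx.exists_l (m := m) (L := Nat.log 2 k + 1) hn hp.two_le hc hv hq1
    (lt_of_le_of_lt (by nlinarith) hL)
    ((Nat.pow_lt_pow_iff_right one_lt_two).1 (lt_of_le_of_lt (by nlinarith) hL))
  obtain ⟨a, ha, hs⟩ := h (m + l)
  obtain ⟨i, h3⟩ : ∃ i, (p : ℤ) ^ (n * l) <
      ((c * (m + l + 1) : ℕ) : ℤ) * |q * a i - p ^ l * round (k * α i)| ^ (n + 1) := by
    by_contra e
    push Not at e
    refine hs l (Nat.le_add_left _ _) ⟨Fin.cons q fun i => round (k * α i),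
      fun e => by simpa [show q ≠ 0 by omega] using congrFun e 0, fun j => ?_⟩
    refine Fin.cases ?_ (fun i => ?_) j
    · rw [vecMul_Tm_zero, Fin.cons_zero, Nat.abs_cast]
      have : c * (m + l + 1) * q ^ (n + 1) ≤ p ^ (n * l) := by
        refine le_trans ?_ l1
        rw [mul_comm]
        gcongr
        omega
      exact_mod_cast this
    · rw [vecMul_Tm_succ, Fin.cons_zero, Fin.cons_succ]
      exact e i
  refine ⟨i, ?_⟩
  have h4 := FINx.core (n := n) (p := p) (P := (p : ℝ) ^ l) (Q := q)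
    (H := ((c * (m + l + 1) : ℕ) : ℝ))
    (H' := ((c * ((2 * (n + 1) + 2 + v) * (Nat.log 2 k + 1)) : ℕ) : ℝ))
    (x := q * a i - p ^ l * round (k * α i)) (R := k * α i - round (k * α i))
    (by exact_mod_cast hp.pos) hq0 (by exact_mod_cast (by positivity : 0 < c * (m + l + 1)))
    (by positivity) (ha i) (by rw [hkq]; ring) (by rw [← pow_mul, mul_comm l]; exact_mod_cast l1)
    (by rw [← pow_mul, mul_comm l]; exact_mod_cast h3)
    (by exact_mod_cast Nat.mul_le_mul_left c l2) (by rw [← pow_mul, mul_comm l]; exact_mod_cast l3)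
  have h5 := FINx.log_le hk
  have h6 : 0 ≤ Real.log k := Real.log_natCast_nonneg k
  have h7 : 1 / K ≤ q * Real.log k * |k * α i - round (k * α i)| ^ n := by
    rw [div_le_iff₀ K0, hK]
    refine h4.trans ?_
    rw [Nat.cast_mul, Nat.cast_mul]
    calc _ ≤ p * 2 ^ (n + 1) * (c * ((2 * (n + 1) + 2 + v : ℕ) * (3 * Real.log k))) * q *
          |k * α i - round (k * α i)| ^ n := by gcongr
      _ = _ := by ring
  rw [hk']
  refine (Real.rpow_le_rpow (by positivity) h7 (by positivity)).trans_eq ?_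
  rw [Real.mul_rpow (by positivity) (by positivity), one_div,
    Real.pow_rpow_inv_natCast (abs_nonneg _) (by omega)]

end Pool.Agent.P.MP_246241_nt.VN
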