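import Pool.Agent.P.MP_246241_nt.VN.Iface

/-! Step GAP. -/

set_option autoImplicit false
set_option linter.unusedSectionVars false

namespace Pool.Agent.P.MP_246241_nt.VN

open Finset Matrix
open scoped Classical

namespace GAPx

theorem const (D e₁ : ℕ) : ∃ e : ℕ, ∀ C : ℕ, 2 ≤ C →
    8 * ((2 * (2 * (D.factorial * (3 * C ^ e₁) ^ D)) + 1) ^ (D * D) * ((9 * C ^ e₁) ^ D) ^ D *
      C ^ e₁) ≤ C ^ e := by
  obtain ⟨a, ha⟩ : ∃ a, a = 8 * ((5 * (D.factorial * 3 ^ D)) ^ (D * D) * (9 ^ D) ^ D) := ⟨_, rfl⟩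
  refine ⟨a + e₁ * (D * (D * D) + D * D + 1), fun C hC => ?_⟩
  have h1 : a ≤ C ^ a := Nat.lt_two_pow_self.le.trans (Nat.pow_le_pow_left hC _)
  rw [pow_add, pow_mul C e₁]
  have h2 : 0 < C ^ e₁ := by positivity
  generalize C ^ e₁ = K at h2
  have h3 : 0 < D.factorial * (3 * K) ^ D := by positivity
  calc _ ≤ 8 * ((5 * (D.factorial * (3 * K) ^ D)) ^ (D * D) * ((9 * K) ^ D) ^ D * K) := by
        gcongr; omega
    _ = a * K ^ (D * (D * D) + D * D + 1) := by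
        rw [ha]; simp only [mul_pow, ← pow_mul, pow_add]; ring
    _ ≤ _ := Nat.mul_le_mul_right _ h1

theorem prod_mul {D : ℕ} (a K : ℕ) (x : Fin D → ℕ) :
    ∏ c, a * (K * x c) = (a * K) ^ D * ∏ c, x c := by
  simp only [← mul_assoc, prod_mul_distrib, prod_const, card_univ, Fintype.card_fin, mul_pow]

theorem prod_ite {n : ℕ} (lam : ℕ) (N : Fin (n + 1) → ℕ) :
    ∏ c, (if c = 0 then lam ^ (n + 1) * N c else N c) = ∏ c, lam * N c := by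
  rw [prod_mul_distrib, Fin.prod_univ_succ, Fin.prod_univ_succ N]
  simp [mul_assoc]

theorem eight (x : ℝ) (h : 1 ≤ x) :
    2 / √(x ^ 2) + 4 * x ^ 2 / (x ^ 2) ^ 2 + √(2 / x ^ 2) ≤ 8 / x := by
  have h0 : 0 < x := by linarith
  have h1 : √(2 / x ^ 2) ≤ 2 / x := by
    refine Real.sqrt_le_iff.2 ⟨by positivity, ?_⟩
    rw [div_pow]
    gcongr
    norm_num
  have h2 : 4 * x ^ 2 / (x ^ 2) ^ 2 ≤ 4 / x := by
    rw [show 4 * x ^ 2 / (x ^ 2) ^ 2 = 4 / x ^ 2 by field_simp]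
    gcongr
    nlinarith
  rw [Real.sqrt_sq h0.le, show 8 / x = 2 / x + 4 / x + 2 / x by ring]
  linarith

end GAPx

open GAPx in
theorem p_GAP (hUNF : S_UNF) (hPAIR : S_PAIR) (hKLOW : S_KLOW) (hMU : S_MU) :
    S_GAP := by
  intro n hn
  obtain ⟨k, rfl⟩ : ∃ k, n = k + 2 := ⟨n - 2, by omega⟩
  obtain ⟨e₁, hK⟩ := hKLOW (k + 2)
  obtain ⟨e, he⟩ := const (k + 3) e₁
  refine ⟨e, fun p j _ C β S F₁ F₂ X Y hC hβ hS h1 h2 h3 hX hY n1 n2 => ?_⟩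
  have p2 : 2 ≤ p := two_le
  have p0 : (0 : ℝ) < p := by positivity
  replace he := he C (p2.trans hC)
  obtain ⟨M, hM⟩ : ∃ M, M = p ^ (2 * β) := ⟨_, rfl⟩
  have M9 : 9 ≤ M := hM ▸ le_trans (by norm_num) ((Nat.pow_le_pow_left p2 4).trans
    (Nat.pow_le_pow_right (by omega) (by omega)))
  rw [← hM] at hS
  choose! n₀ hn₀ using fun γ (h : γ ∈ S) => hK p C M γ p2 hC (by omega) (hS γ h)
  obtain ⟨b, hb⟩ : ∃ b, b = S.sup n₀ + p ^ j := ⟨_, rfl⟩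
  have q1 : 1 ≤ p ^ j := Nat.one_le_pow _ _ (by omega)
  obtain ⟨N, hN⟩ : ∃ N : Fin (k + 3) → ℕ, N = fun c =>
    if c = 0 then b else if c = 1 then 3 * M * b else M ^ 2 * (3 * M * b) := ⟨_, rfl⟩
  have N0 : N 0 = b := by rw [hN]; rfl
  have N1 : N 1 = 3 * M * b := by rw [hN]; simp
  have N2 : N 2 = M ^ 2 * (3 * M * b) := by
    rw [hN]; simp only [if_neg (ne02 k).symm, if_neg (ne12 k).symm]
  have Nb : ∀ c, b ≤ N c := fun c => by
    have a1 : b ≤ 3 * M * b := Nat.le_mul_of_pos_left _ (by omega)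
    rw [hN]
    dsimp only
    split_ifs
    exacts [le_rfl, a1, a1.trans (Nat.le_mul_of_pos_left _ (by positivity))]
  have K0 : 0 < C ^ e₁ := pow_pos (by omega) _
  generalize C ^ e₁ = K at he hn₀ K0
  obtain ⟨P, hP⟩ : ∃ P, P = ∏ c, M * N c := ⟨_, rfl⟩
  have P0 : 0 < P := hP ▸ prod_pos fun c _ => Nat.mul_pos (by omega) (by have := Nb c; omega)
  obtain ⟨Q, Q0, Qc, hQ⟩ := exists_modulus (Fact.out : p.Prime)
    ((k + 3).factorial * ((3 * K) ^ (k + 3) * P))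
  have : NeZero Q := ⟨Q0⟩
  have mu : ∀ x : Fin (k + 3) → ℕ, ∏ c, x c = P → (∀ L,
      (#(fib Q (box p (fun c => 3 * (K * x c)) P) L) : ℝ) ≤
        ((2 * (2 * ((k + 3).factorial * (3 * K) ^ (k + 3))) + 1) ^ ((k + 3) * (k + 3)) : ℕ)) ∧
      ((∏ c, 3 * (3 * (K * x c)) : ℕ) : ℝ) ^ (k + 3) ≤
        ((((9 * K) ^ (k + 3)) ^ (k + 3) : ℕ) : ℝ) * (P : ℝ) ^ (k + 3) := fun x hx => by
    refine ⟨fun L => Nat.cast_le.2 (hMU _ p Q _ P _ L P0 ?_ (le_of_eq ?_)), le_of_eq ?_⟩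
    · rwa [prod_mul, hx]
    · rw [prod_mul, hx]; ring
    · simp only [← mul_assoc 3 3, prod_mul, hx]; push_cast; rw [mul_pow]
  have m1 := mu _ hP.symm
  have m2 := mu _ ((prod_ite (n := k + 2) M N).trans hP.symm)
  have a1 := hPAIR k Q p j M (M ^ 2) (2 * β) P (fun c => K * (M * N c))
    (fun c => K * (if c = 0 then M ^ (k + 3) * N c else N c)) F₁ F₂ _ _ X Y Qc (by omega)
    (Nat.one_le_pow _ _ (by omega)) (by omega) (by simp only [N0, N1]; exact le_of_eq (by ring))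
    (by simp only [N1, N2]; exact le_of_eq (by ring))
    (by
      simp only [if_neg (ne01 k).symm, if_true, N0, N1]
      calc _ = K * (9 * M ^ 2 * b) := by ring
        _ ≤ K * (M * M ^ 2 * b) := by gcongr
        _ ≤ _ := by
          rw [← pow_succ']
          exact Nat.mul_le_mul_left _ (Nat.mul_le_mul_right _
            (Nat.pow_le_pow_right (by omega) (Nat.le_add_left _ _))))
    (fun c => Nat.mul_pos K0 (Nat.mul_pos (by omega) (by have := Nb c; omega)))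
    (fun c => by
      have a1 : p ^ j ≤ N c := le_trans (hb ▸ Nat.le_add_left _ _) (Nb c)
      refine le_trans ?_ (Nat.le_mul_of_pos_left _ K0)
      split_ifs
      exacts [a1.trans (Nat.le_mul_of_pos_left _ (by positivity)), a1])
    m1.1 m2.1 m1.2 m2.2 h1 h2 h3 hX hY n1 n2
  have KM : (0 : ℝ) < (K * M ^ ((k + 2) * (k + 3)) : ℕ) := by
    exact_mod_cast Nat.mul_pos K0 (pow_pos (by omega) _)
  have a2 := (hUNF _ Q p j S _ _ F₁ F₂ ((P : ℝ) ^ (k + 3) / (K * M ^ ((k + 2) * (k + 3)) : ℕ)) h1 h2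
    (fun g hg => (mem_box.1 hg).2.1) fun γ hγ => by
      have := hn₀ γ hγ N fun c => le_trans ((le_sup hγ).trans (by omega)) (Nb c)
      rw [← hP] at this
      rw [div_le_iff₀' KM]
      exact_mod_cast this).trans a1
  have a3 := eight ((p : ℝ) ^ β) (one_le_pow₀ (by exact_mod_cast (by omega : 1 ≤ p)))
  have eM : (M : ℝ) = ((p : ℝ) ^ β) ^ 2 := by rw [hM, ← pow_mul, mul_comm]; push_cast; rfl
  have s1 : 0 ≤ ∑ x, F₁ x := sum_nonneg fun x _ => h1 x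
  have s2 : 0 ≤ ∑ x, F₂ x := sum_nonneg fun x _ => h2 x
  rw [Nat.cast_pow M 2, eM, mul_comm 2 β, pow_mul (p : ℝ) β 2] at a2
  rw [div_mul_eq_mul_div, div_le_iff₀ KM] at a2
  have he' : (_ : ℝ) ≤ _ := Nat.cast_le.2 he
  generalize (2 * (2 * ((k + 3).factorial * (3 * K) ^ (k + 3))) + 1) ^ ((k + 3) * (k + 3)) = μ
    at a2 he'
  generalize ((9 * K) ^ (k + 3)) ^ (k + 3) = V at a2 he'
  push_cast at a2 he'
  refine le_of_mul_le_mul_left (a2.trans ?_) (by positivity : (0 : ℝ) < (P : ℝ) ^ (k + 3))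
  have e1 : (M : ℝ) ^ ((k + 2) * (k + 3)) = (p : ℝ) ^ ((k + 2) * ((k + 2 + 1) * (2 * β))) := by
    rw [eM, ← pow_mul, ← pow_mul]; congr 1; ring
  have e2 : ((p : ℝ) ^ (3 * (β * 2))) ^ (k + 3) = (p : ℝ) ^ (6 * (k + 2 + 1) * β) := by
    rw [← pow_mul]; congr 1; ring
  have u0 : 0 ≤ (p : ℝ) ^ (6 * (k + 2 + 1) * β) / ((p : ℝ) ^ j) ^ (k + 3) * (∑ x, F₂ x) *
    ∑ x, F₁ x := by positivity
  rw [e1, e2]
  generalize (p : ℝ) ^ (6 * (k + 2 + 1) * β) / ((p : ℝ) ^ j) ^ (k + 3) * (∑ x, F₂ x) *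
    ∑ x, F₁ x = u at u0
  generalize 2 / √(((p : ℝ) ^ β) ^ 2) + 4 * ((p : ℝ) ^ β) ^ 2 / (((p : ℝ) ^ β) ^ 2) ^ 2 +
    √(2 / ((p : ℝ) ^ β) ^ 2) = θ at a3
  have a4 : θ * X * Y + u ≤ 8 * (X * Y / (p : ℝ) ^ β + u) := by
    have := mul_le_mul_of_nonneg_right a3 (mul_nonneg hX hY)
    rw [← mul_assoc, div_mul_comm, mul_comm _ 8] at this
    linarith
  have v0 : 0 ≤ X * Y / (p : ℝ) ^ β + u := by positivity
  generalize X * Y / (p : ℝ) ^ β + u = v at a4 v0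
  calc _ ≤ μ * (V * (P : ℝ) ^ (k + 3)) * (8 * v) *
        (K * (p : ℝ) ^ ((k + 2) * ((k + 2 + 1) * (2 * β)))) := by gcongr
    _ = (P : ℝ) ^ (k + 3) * (8 * (μ * V * K) * (p : ℝ) ^ ((k + 2) * ((k + 2 + 1) * (2 * β))) * v) := by
        ring
    _ ≤ _ := by gcongr

end Pool.Agent.P.MP_246241_nt.VN
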