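import Pool.Agent.P.MP_246241_nt.VN.Iface

/-! Step HYP. -/

set_option autoImplicit false
set_option linter.unusedSectionVars false

namespace Pool.Agent.P.MP_246241_nt.VN

open Finset Matrix
open scoped Classical

theorem p_HYP :
    S_HYP := by
  intro D V hV
  have h1 : Submodule.span ℝ V < ⊤ := by
    refine lt_top_iff_ne_top.2 fun e => ?_
    obtain ⟨f, hf, -, hl⟩ := Submodule.exists_fun_fin_finrank_span_eq ℝ V
    have hd : Module.finrank ℝ (Submodule.span ℝ V) = D := by rw [e]; simp
    have hl' : LinearIndependent ℝ (Matrix.of fun i : Fin D => f (Fin.cast hd.symm i)).row :=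
      hl.comp _ (Fin.cast_injective hd.symm)
    have hu := (isUnit_iff_isUnit_det _).1 (Matrix.linearIndependent_rows_iff_isUnit.1 hl')
    exact hu.ne_zero (hV _ fun i => hf _)
  obtain ⟨φ, h0, hφ⟩ := Submodule.exists_le_ker_of_lt_top _ h1
  have e : ∀ v : Fin D → ℝ, v ⬝ᵥ (fun i => φ (Pi.single i 1)) = φ v := fun v => by
    rw [LinearMap.pi_apply_eq_sum_univ φ v]
    refine sum_congr rfl fun i _ => ?_
    rw [smul_eq_mul, show (fun c => if i = c then (1 : ℝ) else 0) = Pi.single i 1 from
      funext fun c => by simp [Pi.single_apply, eq_comm]]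
  refine ⟨fun i => φ (Pi.single i 1), fun h => h0 (LinearMap.ext fun v => ?_), fun v hv => ?_⟩
  · rw [← e v, h, dotProduct_zero, LinearMap.zero_apply]
  · rw [e]; exact hφ (Submodule.subset_span hv)

end Pool.Agent.P.MP_246241_nt.VN
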