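import Pool.Agent.P.MP_246241_nt.VN.Iface

/-! Step KA. -/

set_option autoImplicit false
set_option linter.unusedSectionVars false

namespace Pool.Agent.P.MP_246241_nt.VN

open Finset Matrix
open scoped Classical

theorem p_KA :
    S_KA := by
  intro D
  have hc : Continuous fun X : Fin D → Fin D → ℝ => (1 + Matrix.of X).det :=
    (continuous_const.add continuous_id).matrix_det
  obtain ⟨δ, h0, h1⟩ := Metric.continuousAt_iff.1 (hc.continuousAt (x := 0)) (1 / 2) one_half_pos
  obtain ⟨T, hT⟩ := exists_nat_gt (1 / δ)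
  have T0 : (0 : ℝ) < T := (one_div_pos.2 h0).trans hT
  refine ⟨T, by exact_mod_cast T0, fun X hX => ?_⟩
  have h2 := h1 (x := fun i c => X i c) ((dist_pi_lt_iff h0).2 fun i =>
    (dist_pi_lt_iff h0).2 fun c => by
      rw [div_lt_iff₀ h0] at hT
      rw [Pi.zero_apply, Pi.zero_apply, dist_zero_right, Real.norm_eq_abs]
      exact lt_of_mul_lt_mul_left ((hX i c).trans_lt hT) T0.le)
  rw [Matrix.of_zero, add_zero, det_one, Real.dist_eq] at h2
  have h3 : -(1 / 2) < (1 + X).det - 1 := (abs_lt.1 h2).1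
  linarith

end Pool.Agent.P.MP_246241_nt.VN
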