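import Pool.Agent.P.MP_246241_nt.VN.Iface

/-! Step KB. -/

set_option autoImplicit false
set_option linter.unusedSectionVars false

namespace Pool.Agent.P.MP_246241_nt.VN

open Finset Matrix
open scoped Classical

namespace KBx

theorem mul_le {D : ℕ} {A B : Matrix (Fin D) (Fin D) ℝ} {a b : ℝ} {i c : Fin D}
    (hA : ∀ k, |A i k| ≤ a) (hB : ∀ k, |B k c| ≤ b) : |(A * B) i c| ≤ D * (a * b) := by
  rw [mul_apply]
  refine (abs_sum_le_sum_abs _ _).trans ((sum_le_card_nsmul _ _ (a * b) fun k _ => ?_).trans_eq ?_)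
  · rw [abs_mul]; exact mul_le_mul (hA k) (hB k) (abs_nonneg _) ((abs_nonneg _).trans (hA k))
  · simp

end KBx

open KBx in
theorem p_KB (hKA : S_KA) (hINV : S_INV) :
    S_KB := by
  intro n
  obtain ⟨T, T1, hT⟩ := hKA (n + 1)
  obtain ⟨e, he⟩ := hINV (n + 1)
  refine ⟨2 * T, 2 * n + 4, by omega, fun C lam γ w hC hl ⟨w1, w2, w3, w4⟩ => ⟨1 +
    2 * (T * ((n + 1) * (C ^ e * C))) + C * ∑ i, ∑ k, (γ i k).natAbs, fun N Y g hN hY hY0 hg => ?_⟩⟩
  have T1' : (1 : ℝ) ≤ T := by exact_mod_cast T1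
  have C2 : (2 : ℝ) ≤ C := by exact_mod_cast hC
  have l1 : (1 : ℝ) ≤ lam := by exact_mod_cast hl
  have n0 : (0 : ℝ) ≤ n := Nat.cast_nonneg n
  have N1 : ∀ c, (1 : ℝ) ≤ N c := fun c => by exact_mod_cast (by have := hN c; omega : 1 ≤ N c)
  have N2 : ∀ c, 2 * (T * ((n + 1 : ℕ) * ((C : ℝ) ^ e * C))) ≤ N c := fun c => by
    exact_mod_cast (by have := hN c; omega : 2 * (T * ((n + 1) * (C ^ e * C))) ≤ N c)
  have N3 : ∀ i c, (∑ k, |(γ i k : ℝ)|) * C ≤ N c := fun i c => by
    have h1 : C * ∑ k, (γ i k).natAbs ≤ N c := le_trans (Nat.mul_le_mul_left C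
      (single_le_sum (f := fun i => ∑ k, (γ i k).natAbs) (fun _ _ => Nat.zero_le _) (mem_univ i)))
        (by have := hN c; omega)
    have h2 : ((C * ∑ k, (γ i k).natAbs : ℕ) : ℝ) ≤ N c := by exact_mod_cast h1
    simpa [mul_comm] using h2
  have NL : ∀ c, (N c : ℝ) ≤ lam * N c := fun c => le_mul_of_one_le_left (Nat.cast_nonneg _) l1
  have hK : (2 * n + 3 : ℝ) * C ≤ (C : ℝ) ^ (2 * n + 4) := by
    rw [pow_succ]
    have : ((2 * n + 3 : ℕ) : ℝ) ≤ (C : ℝ) ^ (2 * n + 3) := by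
      exact_mod_cast (Nat.lt_pow_self (by omega : 1 < C)).le
    push_cast at this
    gcongr
  simp only [Nat.cast_mul, Nat.cast_ofNat] at hY hg
  set Δ : Matrix (Fin (n + 1)) (Fin (n + 1)) ℝ := diagonal fun c => (lam : ℝ) * N c with hΔ
  set E := rd ℝ g - w * (Δ + Y) with hE
  have bE : ∀ i c, |E i c| ≤ C := hg
  have eg : rd ℝ g = w * (Δ + Y) + E := by rw [hE, add_sub_cancel]
  have bY : ∀ i c, |Y i c| ≤ lam * N c := fun i c => by
    have := hY i c
    nlinarith [abs_nonneg (Y i c)]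
  have bμ : ∀ i c, |(Δ + Y) i c| ≤ 2 * (lam * N c) := fun i c => by
    have : |Δ i c| ≤ lam * N c := by
      rw [hΔ, diagonal_apply]
      split_ifs with h
      · rw [h, abs_of_nonneg (by positivity)]
      · rw [abs_zero]; positivity
    exact (abs_add_le _ _).trans (by linarith [bY i c])
  refine ⟨?_, fun i c => ?_, fun i c => ?_⟩
  · have wu : IsUnit w.det := Ne.isUnit fun h => by rw [h, abs_zero] at w1; linarith
    set X : Matrix (Fin (n + 1)) (Fin (n + 1)) ℝ :=
      of fun i c => (Y i c + (w⁻¹ * E) i c) / (lam * N c) with hX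
    have p0 : ∀ c, (0 : ℝ) < lam * N c := fun c => by linarith [NL c, N1 c]
    have e1 : X * Δ = Y + w⁻¹ * E := by
      ext i c
      rw [hΔ, mul_diagonal, hX, of_apply, div_mul_cancel₀ _ (p0 c).ne', Matrix.add_apply]
    have e2 : rd ℝ g = w * ((1 + X) * Δ) := by
      rw [add_mul, one_mul, e1, ← add_assoc, mul_add, ← mul_assoc, mul_nonsing_inv _ wu, one_mul, eg]
    have h1 := hT X fun i c => by
      rw [hX, of_apply, abs_div, abs_of_pos (p0 c), ← mul_div_assoc, div_le_one (p0 c)]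
      have a := mul_le_mul_of_nonneg_left ((abs_add_le (Y i c) _).trans (add_le_add le_rfl
        (mul_le (he C w hC w1 w2 i) fun k => bE k c))) (Nat.cast_nonneg (α := ℝ) T)
      linarith [hY i c, N2 c, NL c]
    have h2 : (g.det : ℝ) = w.det * ((1 + X).det * ∏ c, (lam : ℝ) * N c) := by
      rw [← det_rd, e2, det_mul, det_mul, hΔ, det_diagonal]
    have h3 : (0 : ℝ) ≤ ∏ c, (lam : ℝ) * N c := prod_nonneg fun c _ => (p0 c).le
    have h4 : ∏ c, (lam : ℝ) * N c ≤ 2 * |(g.det : ℝ)| := by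
      have h5 : 0 ≤ (1 + X).det * ∏ c, (lam : ℝ) * N c := mul_nonneg (by linarith) h3
      rw [h2, abs_mul, abs_of_nonneg h5]
      nlinarith [le_mul_of_one_le_left h5 w1, mul_le_mul_of_nonneg_right h1 h3]
    exact_mod_cast h4
  · have h1 : |(g i c : ℝ)| ≤ (C : ℝ) ^ (2 * n + 4) * (lam * N c) := by
      rw [← rd_apply, eg, Matrix.add_apply]
      refine (abs_add_le _ _).trans ((add_le_add (mul_le (w2 i) fun k => bμ k c) (bE i c)).trans
        (le_trans ?_ (mul_le_mul_of_nonneg_right hK (by positivity))))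
      push_cast
      nlinarith [mul_le_mul_of_nonneg_left ((N1 c).trans (NL c)) (Nat.cast_nonneg (α := ℝ) C)]
    exact_mod_cast h1
  · have a : |(rd ℝ γ * E) i c| ≤ N c := by
      rw [mul_apply]
      refine (abs_sum_le_sum_abs _ _).trans (le_trans ?_ (N3 i c))
      rw [sum_mul]
      exact sum_le_sum fun k _ => by
        rw [abs_mul]; exact mul_le_mul_of_nonneg_left (bE k c) (abs_nonneg _)
    have b : |(rd ℝ γ * w * (Δ + Y)) i c| ≤
        C * ((lam : ℝ) ^ n * |(Δ + Y) 0 c|) + n * (2 * (C * N c)) := by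
      rw [mul_apply, Fin.sum_univ_succ]
      refine (abs_add_le _ _).trans (add_le_add ?_ ((abs_sum_le_sum_abs _ _).trans
        ((sum_le_card_nsmul _ _ (2 * ((C : ℝ) * N c)) fun k _ => ?_).trans_eq (by simp))))
      · rw [abs_mul, ← mul_assoc]; exact mul_le_mul_of_nonneg_right (w3 i) (abs_nonneg _)
      · rw [abs_mul]
        refine (mul_le_mul_of_nonneg_left (bμ _ c) (abs_nonneg _)).trans ?_
        nlinarith [mul_le_mul_of_nonneg_right (w4 i k) (Nat.cast_nonneg (α := ℝ) (N c))]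
    have h0 : |((γ * g) i c : ℝ)| ≤
        C * ((lam : ℝ) ^ n * |(Δ + Y) 0 c|) + n * (2 * (C * N c)) + N c := by
      rw [← rd_apply, map_mul, eg, mul_add, ← mul_assoc, Matrix.add_apply]
      exact (abs_add_le _ _).trans (add_le_add b a)
    have cN : (N c : ℝ) ≤ C * N c := le_mul_of_one_le_left (Nat.cast_nonneg _) (by linarith)
    have h1 : |((γ * g) i c : ℝ)| ≤ (C : ℝ) ^ (2 * n + 4) *
        ((if c = 0 then lam ^ (n + 1) * N c else N c : ℕ) : ℝ) := by
      refine h0.trans (le_trans ?_ (mul_le_mul_of_nonneg_right hK (Nat.cast_nonneg _)))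
      induction c using Fin.cases with
      | zero =>
        rw [if_pos rfl]
        push_cast
        have h2 : (lam : ℝ) ^ n * |(Δ + Y) 0 0| ≤ 2 * (lam ^ (n + 1) * N 0) :=
          (mul_le_mul_of_nonneg_left (bμ 0 0) (by positivity)).trans_eq (by ring)
        have h3 : (C : ℝ) * N 0 ≤ C * (lam ^ (n + 1) * N 0) := mul_le_mul_of_nonneg_left
          (le_mul_of_one_le_left (Nat.cast_nonneg _) (one_le_pow₀ l1)) (Nat.cast_nonneg _)
        nlinarith [mul_le_mul_of_nonneg_left h2 (Nat.cast_nonneg (α := ℝ) C),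
          mul_le_mul_of_nonneg_left h3 n0]
      | succ c =>
        rw [if_neg (Fin.succ_ne_zero c), Matrix.add_apply, hΔ, diagonal_apply_ne _ (Fin.succ_ne_zero c).symm,
          zero_add]
        nlinarith [mul_le_mul_of_nonneg_left (hY0 c) (Nat.cast_nonneg (α := ℝ) C)]
    exact_mod_cast h1

end Pool.Agent.P.MP_246241_nt.VN
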