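import Pool.Agent.P.MP_246241_nt.VN.Iface

/-! Step KLOW. -/

set_option autoImplicit false
set_option linter.unusedSectionVars false

namespace Pool.Agent.P.MP_246241_nt.VN

open Finset Matrix
open scoped Classical

namespace KLOWx

theorem near (p : ℕ) (hp : 0 < p) (δ : ℤ) (x : ℝ) :
    ∃ z : ℤ, (p : ℤ) ∣ z - δ ∧ |(z : ℝ) - x| ≤ p := by
  refine ⟨δ + p * ⌊(x - δ) / p⌋, by simp, ?_⟩
  have h0 : (0 : ℝ) < p := by exact_mod_cast hp
  have h1 := Int.floor_le ((x - δ) / p)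
  have h2 := Int.lt_floor_add_one ((x - δ) / p)
  rw [le_div_iff₀ h0] at h1
  rw [div_lt_iff₀ h0] at h2
  push_cast
  rw [abs_le]
  constructor <;> nlinarith

theorem not_dvd_det {D p : ℕ} (hp : 2 ≤ p) (g : Mt D)
    (h : ∀ i c, (p : ℤ) ∣ g i c - (1 : Mt D) i c) : ¬ (p : ℤ) ∣ g.det := by
  intro hd
  have e : rd (ZMod p) g = 1 := by
    rw [← map_one (rd (D := D) (ZMod p))]
    ext i c
    simp only [rd_apply]
    exact ((ZMod.intCast_eq_intCast_iff_dvd_sub _ _ _).2 (h i c)).symm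
  have e2 := det_rd (R := ZMod p) g
  rw [e, det_one, (ZMod.intCast_zmod_eq_zero_iff_dvd _ _).2 hd] at e2
  have : Fact (1 < p) := ⟨hp⟩
  exact one_ne_zero e2

theorem small {D : ℕ} (w Y : Matrix (Fin D) (Fin D) ℝ) (a b : ℝ) (hw : w.det ≠ 0) (ha0 : 0 ≤ a)
    (ha : ∀ i c, |w⁻¹ i c| ≤ a) (hb : ∀ i c, |(w * Y) i c| ≤ b) (i c : Fin D) :
    |Y i c| ≤ D * (a * b) := by
  have e : Y = w⁻¹ * (w * Y) := by
    rw [← Matrix.mul_assoc, nonsing_inv_mul _ (isUnit_iff_ne_zero.2 hw), Matrix.one_mul]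
  rw [e, mul_apply]
  refine (abs_sum_le_sum_abs _ _).trans ((sum_le_card_nsmul _ _ (a * b) fun k _ => ?_).trans_eq ?_)
  · rw [abs_mul]
    exact mul_le_mul (ha _ _) (hb _ _) (abs_nonneg _) ha0
  · simp

theorem le_pow' {C : ℕ} (hC : 2 ≤ C) (k : ℕ) : k ≤ C ^ k :=
  (Nat.lt_two_pow_self).le.trans (Nat.pow_le_pow_left hC k)

theorem box_mono {D p Δ : ℕ} {N N' : Fin D → ℕ} (h : ∀ c, N c ≤ N' c) {g : Mt D}
    (hg : g ∈ box p N Δ) : g ∈ box p N' Δ := by
  rw [mem_box] at hg ⊢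
  exact ⟨fun i c => (hg.1 i c).trans (by exact_mod_cast h c), hg.2⟩

end KLOWx

open KLOWx in
theorem p_KLOW (hINV : S_INV) (hKB : S_KB) :
    S_KLOW := by
  intro n
  obtain ⟨T, e1, hT, hK⟩ := hKB n
  obtain ⟨e2, hI⟩ := hINV (n + 1)
  refine ⟨e1 + (T + (2 * (n + 1) + 1) + (e2 + 1)) * ((n + 1) * (n + 1)), ?_⟩
  rintro p C lam γ hp hpC hlam ⟨w, hw⟩
  have hC : 2 ≤ C := hp.trans hpC
  obtain ⟨n₀, hn₀⟩ := hK C lam γ w hC hlam hw
  refine ⟨n₀, fun N hN => ?_⟩
  generalize he : e1 + (T + (2 * (n + 1) + 1) + (e2 + 1)) * ((n + 1) * (n + 1)) = e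
  obtain ⟨G, hG⟩ : ∃ G : ℕ, G = (n + 1) * (C ^ e2 * (2 * C)) + 1 := ⟨_, rfl⟩
  have hG0 : 0 < G := by omega
  have hC1 : ∀ k, 1 ≤ C ^ k := fun k => Nat.one_le_pow _ _ (by omega)
  have hTG : (T * G) ^ ((n + 1) * (n + 1)) ≤ C ^ e := by
    have h1 : G ≤ (2 * (n + 1) + 1) * C ^ (e2 + 1) := by
      have := hC1 (e2 + 1)
      rw [hG, add_mul (2 * (n + 1)), one_mul]
      refine Nat.add_le_add (le_of_eq ?_) this
      ring
    have h2 : T * G ≤ C ^ (T + (2 * (n + 1) + 1) + (e2 + 1)) := by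
      rw [pow_add, pow_add, mul_assoc]
      exact Nat.mul_le_mul (le_pow' hC T)
        (h1.trans (Nat.mul_le_mul_right _ (le_pow' hC _)))
    refine (Nat.pow_le_pow_left h2 _).trans ?_
    rw [← pow_mul]
    exact Nat.pow_le_pow_right (by omega) (by omega)
  have he1 : C ^ e1 ≤ C ^ e := Nat.pow_le_pow_right (by omega) (by omega)
  obtain ⟨d, hd⟩ : ∃ d : Fin (n + 1) → Fin (n + 1) → ℕ,
      d = fun i c => if i = 0 ∧ c ≠ 0 then lam ^ (n + 1) else 1 := ⟨_, rfl⟩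
  have hd1 : ∀ i c, 1 ≤ d i c := fun i c => by
    rw [hd]; dsimp only
    split_ifs
    · exact Nat.one_le_pow _ _ hlam
    · exact le_rfl
  have hdp : ∏ i, ∏ c, d i c = lam ^ (n * (n + 1)) := by
    rw [hd]
    simp [Fin.prod_univ_succ, Fin.succ_ne_zero, ← pow_mul, mul_comm]
  obtain ⟨U, hU⟩ : ∃ U : Fin (n + 1) → Fin (n + 1) → ℕ,
      U = fun i c => lam * N c / (d i c * (T * G)) + 1 := ⟨_, rfl⟩
  obtain ⟨I, hIdx⟩ : ∃ I : Finset (Fin (n + 1) → Fin (n + 1) → ℕ),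
      I = Fintype.piFinset fun i => Fintype.piFinset fun c => range (U i c) := ⟨_, rfl⟩
  have hmem : ∀ t ∈ I, ∀ i c, d i c * (T * G) * t i c ≤ lam * N c := fun t ht i c => by
    rw [hIdx] at ht
    have h := mem_range.1 (Fintype.mem_piFinset.1 (Fintype.mem_piFinset.1 ht i) c)
    rw [hU] at h
    exact (Nat.mul_le_mul_left _ (Nat.lt_succ_iff.1 h)).trans (Nat.mul_div_le _ _)
  have hcard : (∏ c, lam * N c) ^ (n + 1) ≤
      (T * G) ^ ((n + 1) * (n + 1)) * lam ^ (n * (n + 1)) * #I := by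
    have h1 : #I = ∏ i, ∏ c, U i c := by
      rw [hIdx]
      simp only [Fintype.card_piFinset, card_range]
    have h2 : (∏ c, lam * N c) ^ (n + 1) = ∏ _i : Fin (n + 1), ∏ c, lam * N c := by simp
    have h3 : (T * G) ^ ((n + 1) * (n + 1)) =
        ∏ _i : Fin (n + 1), ∏ _c : Fin (n + 1), T * G := by simp [← pow_mul]
    rw [h1, h2, h3, ← hdp, ← prod_mul_distrib, ← prod_mul_distrib]
    refine prod_le_prod' fun i _ => ?_
    rw [← prod_mul_distrib, ← prod_mul_distrib]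
    refine prod_le_prod' fun c _ => ?_
    rw [hU, mul_comm (T * G)]
    exact (Nat.lt_mul_div_succ _ (Nat.mul_pos (hd1 i c) (Nat.mul_pos hT hG0))).le
  obtain ⟨Y, hY⟩ : ∃ Y : (Fin (n + 1) → Fin (n + 1) → ℕ) → Matrix (Fin (n + 1)) (Fin (n + 1)) ℝ,
      ∀ t i c, Y t i c = ((G * t i c : ℕ) : ℝ) := ⟨fun t => of fun i c => _, fun _ _ _ => rfl⟩
  have hz := fun t i c => near p (by omega) ((1 : Mt (n + 1)) i c)
    ((w * (diagonal (fun c => ((lam * N c : ℕ) : ℝ)) + Y t)) i c)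
  choose z hz1 hz2 using hz
  have hpC' : (p : ℝ) ≤ C := by exact_mod_cast hpC
  have hinj : Set.InjOn (fun t => (of (z t) : Mt (n + 1))) I := fun t _ t' _ h => by
    have h' : z t = z t' := of.injective h
    have hb : ∀ i c, |(w * (Y t - Y t')) i c| ≤ 2 * C := fun i c => by
      have a1 := hz2 t i c
      have a2 := hz2 t' i c
      rw [← h'] at a2
      rw [Matrix.mul_add, Matrix.add_apply, abs_le] at a1 a2
      rw [Matrix.mul_sub, Matrix.sub_apply, abs_le]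
      constructor <;> linarith [a1.1, a1.2, a2.1, a2.2]
    have hs := small w _ ((C : ℝ) ^ e2) _ (fun h0 => by
      have := hw.1
      rw [h0, abs_zero] at this
      linarith) (by positivity) (hI C w hC hw.1 hw.2.1) hb
    funext i c
    have h1 := hs i c
    rw [Matrix.sub_apply, hY, hY, abs_le] at h1
    have h2 : (G : ℝ) = ((n + 1 : ℕ) : ℝ) * ((C : ℝ) ^ e2 * (2 * C)) + 1 := by
      rw [hG]; push_cast; ring
    have h3 : G * t i c < G * t' i c + G := by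
      have : ((G * t i c : ℕ) : ℝ) < ((G * t' i c : ℕ) : ℝ) + G := by linarith [h1.2]
      exact_mod_cast this
    have h4 : G * t' i c < G * t i c + G := by
      have : ((G * t' i c : ℕ) : ℝ) < ((G * t i c : ℕ) : ℝ) + G := by linarith [h1.1]
      exact_mod_cast this
    have h5 := Nat.lt_of_mul_lt_mul_left (a := G) (b := t i c) (c := t' i c + 1) (by
      rw [mul_add, mul_one]; exact h3)
    have h6 := Nat.lt_of_mul_lt_mul_left (a := G) (b := t' i c) (c := t i c + 1) (by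
      rw [mul_add, mul_one]; exact h4)
    omega
  refine hcard.trans (Nat.mul_le_mul (Nat.mul_le_mul_right _ hTG)
    (card_le_card_of_injOn _ (fun t ht => ?_) hinj))
  have ht' := hmem t ht
  obtain ⟨k1, k2, k3⟩ := hn₀ N (Y t) (of (z t)) hN (fun i c => by
      rw [hY, Nat.abs_cast]
      have : T * (G * t i c) ≤ lam * N c := by
        refine le_trans ?_ (ht' i c)
        rw [mul_assoc, mul_assoc]
        exact Nat.le_mul_of_pos_left _ (hd1 i c)
      exact_mod_cast this) (fun c => by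
      rw [hY, Nat.abs_cast]
      have h1 := ht' 0 c.succ
      rw [hd] at h1
      simp only [true_and, ne_eq, Fin.succ_ne_zero, not_false_eq_true, if_true] at h1
      have h2 : lam ^ n * (T * G * t 0 c.succ) ≤ N c.succ := by
        refine Nat.le_of_mul_le_mul_left (c := lam) (le_trans (le_of_eq ?_) h1) hlam
        ring
      have : lam ^ n * (G * t 0 c.succ) ≤ N c.succ := by
        refine le_trans (Nat.mul_le_mul_left _ ?_) h2
        rw [mul_assoc]
        exact Nat.le_mul_of_pos_left _ hT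
      exact_mod_cast this) (fun i c => (hz2 t i c).trans hpC')
  have hnd : ¬ (p : ℤ) ∣ (of (z t) : Mt (n + 1)).det := not_dvd_det hp _ (hz1 t)
  have hab : |((γ : Mt (n + 1)) * (of (z t) : Mt (n + 1))).det| = |(of (z t) : Mt (n + 1)).det| := by
    rw [det_mul, abs_mul, det_unit, one_mul]
  refine mem_coe.2 (mem_filter.2 ⟨box_mono (fun c => Nat.mul_le_mul_right _ he1)
    (mem_box.2 ⟨k2, hnd, k1⟩), box_mono (fun c => Nat.mul_le_mul_right _ he1)
    (mem_box.2 ⟨k3, fun h => hnd ?_, ?_⟩)⟩)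
  · rwa [← dvd_abs, hab, dvd_abs] at h
  · rw [hab]; exact k1

end Pool.Agent.P.MP_246241_nt.VN
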