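import Pool.Agent.P.MP_246241_nt.VN.Iface

/-! Step LEV. -/

set_option autoImplicit false
set_option linter.unusedSectionVars false

namespace Pool.Agent.P.MP_246241_nt.VN

open Finset Matrix
open scoped Classical

namespace LEVx

lemma level {p s d e : ℝ} (hp : 2 ≤ p) (hs : 0 < s) (hd : 0 ≤ d) (hd1 : d ≤ 1)
    (he : 0 < e) : ∃ τ : ℕ, d ≤ 1 / p ^ τ ∧ 1 / (p ^ s) ^ τ ≤ p ^ s * d ^ s + e := by
  have hp0 : 0 < p := by linarith
  have hp1 : 1 < p := by linarith
  rcases hd.eq_or_lt with rfl | hd0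
  · have h1 : 1 / p ^ s < 1 := (div_lt_one (by positivity)).2 (Real.one_lt_rpow hp1 hs)
    obtain ⟨τ, hτ⟩ := exists_pow_lt_of_lt_one he h1
    refine ⟨τ, by positivity, ?_⟩
    rw [Real.zero_rpow hs.ne', mul_zero, zero_add, ← _root_.one_div_pow]
    exact hτ.le
  · obtain ⟨τ, h1, h2⟩ := exists_nat_pow_near_of_lt_one hd0 hd1 (y := 1 / p) (by positivity)
      ((div_lt_one hp0).2 hp1)
    refine ⟨τ, by rwa [_root_.one_div_pow] at h2, ?_⟩
    have h3 : (1 / p) ^ τ ≤ p * d := by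
      rw [pow_succ, mul_one_div, div_lt_iff₀ hp0] at h1
      linarith
    have h4 : 1 / (p ^ s) ^ τ = ((1 / p) ^ τ) ^ s := by
      rw [← Real.rpow_pow_comm (by positivity), Real.div_rpow zero_le_one hp0.le, Real.one_rpow,
        _root_.one_div_pow]
    have h6 := Real.rpow_le_rpow (by positivity) h3 hs.le
    rw [Real.mul_rpow hp0.le hd] at h6
    linarith

lemma cover {n : ℕ} {M : Set (Fin n → ℝ)} {s c : ℝ} (hs : 0 < s) (hc : 0 < c)
    (h : MeasureTheory.Measure.hausdorffMeasure s M = 0) :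
    ∃ t : ℕ → Set (Fin n → ℝ), M ⊆ ⋃ k, t k ∧ (∀ k, Metric.ediam (t k) ≤ 1) ∧
      ∀ F : Finset ℕ, ∑ k ∈ F, Metric.diam (t k) ^ s ≤ c := by
  rw [MeasureTheory.Measure.hausdorffMeasure_apply] at h
  have h1 := (le_iSup₂_of_le (1 : ENNReal) one_pos le_rfl).trans_lt
    (h.trans_lt (ENNReal.ofReal_pos.2 hc))
  simp only [iInf_lt_iff] at h1
  obtain ⟨t, h2, h3, h4⟩ := h1
  refine ⟨t, h2, h3, fun F => ?_⟩
  rw [← ENNReal.ofReal_le_ofReal_iff hc.le,
    ENNReal.ofReal_sum_of_nonneg fun k _ => Real.rpow_nonneg Metric.diam_nonneg s]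
  refine (sum_le_sum fun k _ => ?_).trans ((ENNReal.sum_le_tsum F).trans h4.le)
  rcases (t k).eq_empty_or_nonempty with e | e
  · simp [e, Real.zero_rpow hs.ne']
  · rw [iSup_pos e, ← ENNReal.ofReal_rpow_of_nonneg Metric.diam_nonneg hs.le, Metric.diam,
      ENNReal.ofReal_toReal ((h3 k).trans_lt ENNReal.one_lt_top).ne]

end LEVx

theorem p_LEV :
    S_LEV := by
  intro n p M s η hp hs hη h
  have hp' : (2 : ℝ) ≤ p := by exact_mod_cast hp
  have hp0 : (0 : ℝ) < p := by linarith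
  have hq : (0 : ℝ) < (p : ℝ) ^ s := Real.rpow_pos_of_pos hp0 s
  obtain ⟨t, h1, h2, h3⟩ := LEVx.cover (c := η / (2 * (p : ℝ) ^ s)) hs (by positivity) h
  have hd : ∀ k, Metric.diam (t k) ≤ 1 := fun k =>
    ENNReal.toReal_le_of_le_ofReal zero_le_one (by simpa using h2 k)
  choose τ h4 h5 using fun k => LEVx.level (e := η / 2 / 2 / 2 ^ k) hp' hs
    Metric.diam_nonneg (hd k) (by positivity)
  refine ⟨fun k => if h : (t k).Nonempty then h.some else 0, τ, fun α hα => ?_, fun F => ?_⟩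
  · obtain ⟨k, hk⟩ := Set.mem_iUnion.1 (h1 hα)
    refine ⟨k, fun i => le_trans ?_ (h4 k)⟩
    have hne : (t k).Nonempty := ⟨α, hk⟩
    simp only [dif_pos hne]
    exact (dist_le_pi_dist α hne.some i).trans
      (Metric.dist_le_diam_of_mem' ((h2 k).trans_lt ENNReal.one_lt_top).ne hk hne.some_mem)
  · refine (sum_le_sum fun k _ => h5 k).trans ?_
    rw [sum_add_distrib, ← mul_sum]
    have h6 := mul_le_mul_of_nonneg_left (h3 F) hq.le
    have h7 : (p : ℝ) ^ s * (η / (2 * (p : ℝ) ^ s)) = η / 2 := by field_simp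
    have h8 := sum_le_hasSum F (fun k _ => by positivity) (hasSum_geometric_two' (η / 2))
    linarith

end Pool.Agent.P.MP_246241_nt.VN
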