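import Pool.Agent.P.MP_246241_nt.VN.Iface

/-! Step LIFT. -/

set_option autoImplicit false
set_option linter.unusedSectionVars false

namespace Pool.Agent.P.MP_246241_nt.VN

open Finset Matrix
open scoped Classical

theorem p_LIFT (hNL : S_NL) :
    S_LIFT := by
  intro D Q p j _ _ B f μ hB hμ
  have hu : ∀ g ∈ B, IsUnit (rd (RR p j) g).det := fun g hg => mem_UU.1 (rd_mem_UU (hB g hg))
  refine ⟨?_, ?_, fun c hc hf z => ?_⟩
  · refine (hNL D Q (AA D p j) B (fun g y => f (rd (RR p j) g *ᵥ y)) μ hμ).trans_eq ?_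
    rw [sum_congr rfl fun g hg => (show nn (fun y => f (rd (RR p j) g *ᵥ y)) = nn f from
      sum_mulVec_unit (hu g hg) fun x => f x ^ 2), sum_const,
      nsmul_eq_mul, mul_assoc]
  · rw [Fintype.sum_prod_type]
    calc _ = ∑ L, ∑ g ∈ fib Q B L, ∑ y, f (rd (RR p j) g *ᵥ y) :=
          sum_congr rfl fun L _ => sum_comm
      _ = ∑ g ∈ B, ∑ y, f (rd (RR p j) g *ᵥ y) := sum_fiberwise B (rowL Q) _
      _ = _ := by
          rw [sum_congr rfl fun g hg => sum_mulVec_unit (hu g hg) f, sum_const, nsmul_eq_mul]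
  · refine (sum_le_card_nsmul _ _ c fun g _ => hf _).trans ?_
    rw [nsmul_eq_mul]
    exact mul_le_mul_of_nonneg_right (hμ _) hc

end Pool.Agent.P.MP_246241_nt.VN
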