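import Pool.Agent.P.MP_246241_nt.VN.Iface

/-! Step LIM. -/

set_option autoImplicit false
set_option linter.unusedSectionVars false

namespace Pool.Agent.P.MP_246241_nt.VN

open Finset Matrix
open scoped Classical

theorem p_LIM :
    S_LIM := by
  intro n p C hp hC
  have hp0 : (0 : ℝ) < p := by
    have : (2 : ℝ) ≤ p := by exact_mod_cast hp
    linarith
  have hpz : (0 : ℤ) < p := by exact_mod_cast (by omega : 0 < p)
  let T : ℕ → Set (Fin n → ℝ) := fun t =>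
    ⋃ a ∈ C t, Set.Icc (fun i => ((a i : ℤ) : ℝ) / (p : ℝ) ^ t)
      (fun i => (((a i : ℤ) : ℝ) + 1) / (p : ℝ) ^ t)
  have hcomp : ∀ t, IsCompact (T t) := fun t =>
    (C t).isCompact_biUnion fun _ _ => isCompact_Icc
  have hne : ∀ t, (T t).Nonempty := fun t => by
    obtain ⟨a, ha⟩ := (hC t).1
    refine ⟨fun i => ((a i : ℤ) : ℝ) / (p : ℝ) ^ t, Set.mem_biUnion ha ⟨le_rfl, fun i => ?_⟩⟩
    dsimp only
    gcongr
    linarith
  have hsub : ∀ t, T (t + 1) ⊆ T t := fun t x hx => by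
    obtain ⟨a, ha, h1, h2⟩ := Set.mem_iUnion₂.1 hx
    have hpt : (0 : ℝ) < (p : ℝ) ^ t := pow_pos hp0 t
    have e1 : ∀ i, (((a i / (p : ℤ) ^ 1 : ℤ)) : ℝ) * p ≤ a i := fun i => by
      rw [pow_one]
      exact_mod_cast Int.ediv_mul_le (a i) hpz.ne'
    have e2 : ∀ i, ((a i : ℤ) : ℝ) + 1 ≤ ((((a i / (p : ℤ) ^ 1 : ℤ)) : ℝ) + 1) * p := fun i => by
      rw [pow_one]
      have h3 : a i + 1 ≤ (a i / (p : ℤ) + 1) * p := Int.lt_ediv_add_one_mul_self (a i) hpz
      exact_mod_cast h3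
    refine Set.mem_biUnion ((hC t).2 a ha) ⟨fun i => ?_, fun i => ?_⟩
    · have h := h1 i
      have e := e1 i
      dsimp only [EK.pre] at h ⊢
      rw [div_le_iff₀ (pow_pos hp0 _), pow_succ] at h
      rw [div_le_iff₀ hpt]
      refine le_of_mul_le_mul_right ?_ hp0
      linarith
    · have h := h2 i
      have e := e2 i
      dsimp only [EK.pre] at h ⊢
      rw [le_div_iff₀ (pow_pos hp0 _), pow_succ] at h
      rw [le_div_iff₀ hpt]
      refine le_of_mul_le_mul_right ?_ hp0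
      linarith
  obtain ⟨α, hα⟩ := IsCompact.nonempty_iInter_of_sequence_nonempty_isCompact_isClosed T hsub hne
    (hcomp 0) fun t => (hcomp t).isClosed
  refine ⟨α, fun t => ?_⟩
  obtain ⟨a, ha, h1, h2⟩ := Set.mem_iUnion₂.1 (Set.mem_iInter.1 hα t)
  have hpt : (0 : ℝ) < (p : ℝ) ^ t := pow_pos hp0 t
  refine ⟨a, ha, fun i => ?_⟩
  have g1 := h1 i
  have g2 := h2 i
  dsimp only at g1 g2
  rw [div_le_iff₀ hpt] at g1
  rw [le_div_iff₀ hpt] at g2
  exact abs_le.2 ⟨by linarith, by linarith⟩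

end Pool.Agent.P.MP_246241_nt.VN
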