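import Pool.Agent.P.MP_246241_nt.VN.Iface

/-! Step LOW. -/

set_option autoImplicit false
set_option linter.unusedSectionVars false

namespace Pool.Agent.P.MP_246241_nt.VN

open Finset Matrix
open scoped Classical

namespace LOWx

variable {D p j : ℕ} [hp : Fact p.Prime]

theorem one (i : ℕ) (a : RR p j) : #{u : RR p j | (p : RR p j) ^ i * u = a} ≤ p ^ i := by
  have h0 : 0 < p := hp.out.pos
  rcases le_total j i with h | h
  · exact (card_le_univ _).trans (card_RR.trans_le (Nat.pow_le_pow_right h0 h))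
  obtain ⟨e, rfl⟩ := Nat.exists_eq_add_of_le h
  rw [← card_range (p ^ i)]
  refine card_le_card_of_injOn (fun u => u.val / p ^ e) (fun u _ => ?_) fun u hu v hv q => ?_
  · rw [coe_range, Set.mem_Iio, Nat.div_lt_iff_lt_mul (Nat.pow_pos h0), ← pow_add]
    exact ZMod.val_lt u
  · have h1 : ((p ^ i * u.val : ℕ) : RR p (i + e)) = ((p ^ i * v.val : ℕ) : RR p (i + e)) := by
      push_cast
      rw [ZMod.natCast_zmod_val, ZMod.natCast_zmod_val, (mem_filter.1 hu).2, (mem_filter.1 hv).2]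
    have h2 : u.val ≡ v.val [MOD p ^ e] := Nat.ModEq.mul_left_cancel' (Nat.pow_pos h0).ne'
      (((ZMod.natCast_eq_natCast_iff _ _ _).1 h1).of_dvd (pow_add p i e).symm.dvd)
    refine ZMod.val_injective _ ?_
    rw [← Nat.div_add_mod u.val (p ^ e), ← Nat.div_add_mod v.val (p ^ e), h2]
    exact congrArg (p ^ e * · + _) q

theorem fibre (i : ℕ) (x y : AA D p j) :
    #{t : AA D p j | x + (p : RR p j) ^ i • t = y} ≤ (p ^ i) ^ D := by
  refine (card_le_card (t := Fintype.piFinset fun c =>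
    ({u : RR p j | (p : RR p j) ^ i * u = y c - x c} : Finset _)) fun t ht => ?_).trans ?_
  · refine Fintype.mem_piFinset.2 fun c => mem_filter.2 ⟨mem_univ _, ?_⟩
    rw [← (mem_filter.1 ht).2]
    simp
  · rw [Fintype.card_piFinset]
    exact (prod_le_pow_card _ _ _ fun c _ => one i _).trans_eq (by simp)

theorem pr {i : ℕ} (hi : 1 ≤ i) {x t : AA D p j} (h : Pr (x + (p : RR p j) ^ i • t)) : Pr x := by
  obtain ⟨c, hc⟩ := h
  have h1 : IsNilpotent (-((p : RR p j) ^ i * t c)) := ⟨j, by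
    rw [neg_pow, mul_pow, ← pow_mul, pow_eq_zero' (Nat.le_mul_of_pos_left j hi), zero_mul,
      mul_zero]⟩
  have := h1.isUnit_add_left_of_commute hc (Commute.all _ _)
  exact ⟨c, by simpa using this⟩

end LOWx

theorem p_LOW :
    S_LOW := by
  intro D p j hp i F hi h0 hs
  have hN : (0 : ℝ) < ((p : ℝ) ^ j) ^ D := by have := two_le' (p := p); positivity
  obtain ⟨g, hg⟩ : ∃ g : AA D p j → ℝ, ∀ x,
      g x = (((p : ℝ) ^ j) ^ D)⁻¹ * ∑ t : AA D p j, F (x + (p : RR p j) ^ i • t) := ⟨_, fun _ => rfl⟩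
  have h1 : ∀ x s, g (x + (p : RR p j) ^ i • s) = g x := fun x s => by
    rw [hg, hg, ← Equiv.sum_comp (Equiv.addLeft s) fun t => F (x + (p : RR p j) ^ i • t)]
    simp only [Equiv.coe_addLeft, smul_add, add_assoc]
  have h2 : ∀ x, ∑ t : AA D p j, (F - g) (x + (p : RR p j) ^ i • t) = 0 := fun x => by
    simp only [Pi.sub_apply, h1, sum_sub_distrib, sum_const, card_univ, card_AA, nsmul_eq_mul]
    rw [hg]
    push_cast
    rw [mul_inv_cancel_left₀ hN.ne', sub_self]
  have h3 : ip (F - g) g = 0 := by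
    have a1 : ∑ t : AA D p j, ∑ x, (F - g) (x + (p : RR p j) ^ i • t) * g x = 0 := by
      rw [sum_comm]
      exact sum_eq_zero fun x _ => by rw [← sum_mul, h2, zero_mul]
    have a2 : ∀ t : AA D p j, ∑ x, (F - g) (x + (p : RR p j) ^ i • t) * g x = ip (F - g) g :=
      fun t => by
        rw [ip, ← Equiv.sum_comp (Equiv.addRight ((p : RR p j) ^ i • t)) fun y => (F - g) y * g y]
        simp only [Equiv.coe_addRight, h1]
    simp only [a2, sum_const, card_univ, nsmul_eq_mul] at a1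
    exact (mul_eq_zero.1 a1).resolve_left (Nat.cast_ne_zero.2 Fintype.card_ne_zero)
  refine ⟨F - g, g, (sub_add_cancel _ _).symm, fun x => ⟨?_, ?_⟩, ?_, fun x hx => ?_, h2⟩
  · rw [hg]
    exact mul_nonneg (inv_nonneg.2 hN.le) (sum_nonneg fun _ _ => h0 _)
  · rw [hg, div_eq_inv_mul, mul_assoc, mul_sum univ F,
      sum_comp F fun t : AA D p j => x + (p : RR p j) ^ i • t]
    refine mul_le_mul_of_nonneg_left ((sum_le_sum_of_subset_of_nonneg (subset_univ _)
      fun y _ _ => nsmul_nonneg (h0 y) _).trans (sum_le_sum fun y _ => ?_)) (inv_nonneg.2 hN.le)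
    rw [nsmul_eq_mul]
    exact mul_le_mul_of_nonneg_right (by exact_mod_cast LOWx.fibre i x y) (h0 y)
  · have := nn_add (F - g) g
    rw [sub_add_cancel, h3] at this
    linarith [nn_nonneg g]
  · rw [Pi.sub_apply, hs x hx, hg, sum_eq_zero fun t _ => hs _ fun h => hx (LOWx.pr hi h), mul_zero,
      sub_zero]

end Pool.Agent.P.MP_246241_nt.VN
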