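import Pool.Agent.P.MP_246241_nt.VN.Iface

/-! Step MU. -/

set_option autoImplicit false
set_option linter.unusedSectionVars false

namespace Pool.Agent.P.MP_246241_nt.VN

open Finset Matrix
open scoped Classical

theorem p_MU (hSAME : S_SAME) (hBOX : EK.S_BOX) :
    S_MU := by
  intro D p Q R Δ N L hΔ hQ hR
  rcases (fib Q (box p N Δ) L).eq_empty_or_nonempty with e | ⟨g0, h0⟩
  · simp [e]
  obtain ⟨F, hF, hF'⟩ := hBOX D R
  obtain ⟨h1, h2⟩ := mem_fib.1 h0
  obtain ⟨h3, h4, h5⟩ := mem_box.1 h1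
  have h6 : g0.det ∣ (Q : ℤ) := by
    refine Int.natAbs_dvd.1 (Int.natCast_dvd_natCast.2 (hQ _ ?_ fun h => h4 ?_))
    · have := det_le_prod g0 (fun c => (N c : ℤ)) h3
      rw [Int.abs_eq_natAbs] at this
      exact_mod_cast this
    · exact Int.natCast_dvd.2 h
  refine (card_le_card fun g hg => ?_).trans ((card_image_le (f := (· * g0))).trans hF)
  obtain ⟨g1, g2⟩ := mem_fib.1 hg
  obtain ⟨γ, rfl⟩ := hSAME D Q g0 g h6 (g2.trans h2.symm)
  refine mem_image_of_mem _ (hF' γ fun i k => ?_)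
  have e : (g0.updateRow k ((γ * g0) i)).det = γ i k * g0.det := by
    rw [show (γ * g0) i = ∑ l, γ i l • g0 l from funext fun c => by simp [mul_apply],
      det_updateRow_sum, smul_eq_mul]
  have h7 := det_le_prod (g0.updateRow k ((γ * g0) i)) (fun c => (N c : ℤ)) fun a c => by
    rw [updateRow_apply]
    split_ifs
    exacts [(mem_box.1 g1).1 i c, h3 a c]
  rw [e, abs_mul] at h7
  have h8 : 2 * ((D.factorial : ℤ) * ∏ c, (N c : ℤ)) ≤ R * Δ := by exact_mod_cast hR
  refine le_of_mul_le_mul_right (a := (Δ : ℤ)) ?_ (by exact_mod_cast hΔ)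
  nlinarith [mul_le_mul_of_nonneg_left h5 (abs_nonneg (γ i k))]

end Pool.Agent.P.MP_246241_nt.VN
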