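import Pool.Agent.P.MP_246241_nt.VN.Iface

/-! Step NL. -/

set_option autoImplicit false
set_option linter.unusedSectionVars false

namespace Pool.Agent.P.MP_246241_nt.VN

open Finset Matrix
open scoped Classical

theorem p_NL :
    S_NL := by
  intro D Q _ A _ B Φ μ h
  have e : ∑ g ∈ B, BV.nn (Φ g) = ∑ L : Set (Fin D → ZMod Q), ∑ g ∈ fib Q B L, BV.nn (Φ g) :=
    (sum_fiberwise B (rowL Q) fun g => BV.nn (Φ g)).symm
  rw [e, mul_sum, BV.nn, Fintype.sum_prod_type]
  refine sum_le_sum fun L _ => ?_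
  simp only [BV.nn]
  rw [sum_comm, mul_sum]
  refine sum_le_sum fun a _ => ?_
  exact sq_sum_le_card_mul_sum_sq.trans
    (mul_le_mul_of_nonneg_right (h L) (sum_nonneg fun _ _ => sq_nonneg _))

end Pool.Agent.P.MP_246241_nt.VN
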