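import Pool.Agent.P.MP_246241_nt.VN.Iface
import Pool.Agent.P.MP_246241_nt.BV.Main

/-! Step ONE. -/

set_option autoImplicit false
set_option linter.unusedSectionVars false

namespace Pool.Agent.P.MP_246241_nt.VN

open Finset Matrix
open scoped Classical

theorem p_ONE :
    S_ONE := by
  intro p hp
  have i : Isometry fun (x : ℝ) (_ : Fin 1) => x :=
    Isometry.of_dist_eq fun x y => by simp [dist_pi_def]
  have e : Mad 1 p = (fun (x : ℝ) (_ : Fin 1) => x) '' BV.Mad p := by
    ext α
    simp only [Mad, BV.Mad, Set.mem_image, Set.mem_ofPred_eq, Nat.cast_one, div_one, Real.rpow_one,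
      Fin.exists_fin_one]
    exact ⟨fun h => ⟨α 0, h, funext fun i => by rw [Subsingleton.elim i 0]⟩,
      fun ⟨x, h, e⟩ => by rw [← e]; exact h⟩
  rw [e, i.dimH_image, BV.final p hp, Nat.cast_one]

end Pool.Agent.P.MP_246241_nt.VN
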