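import Pool.Agent.P.MP_246241_nt.VN.Iface

/-! Step REC. -/

set_option autoImplicit false
set_option linter.unusedSectionVars false

namespace Pool.Agent.P.MP_246241_nt.VN

open Finset Matrix
open scoped Classical

namespace RECx

theorem step_le {A Q J : ℝ} (e : ℕ) (hA : 0 ≤ A) (hQ : 2 ≤ Q) :
    (2 * A + J / Q ^ e) / Q + A ≤ 2 * A + J / Q ^ (e + 1) := by
  have h1 : 2 * A / Q ≤ A := by
    rw [div_le_iff₀ (by linarith)]
    nlinarith
  rw [add_div, div_div, pow_succ]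
  linarith

theorem last_le {Q B J : ℝ} {e i : ℕ} (hQ : 2 ≤ Q) (hB : 2 ≤ B) (he : 2 ≤ e) (h : Q ≤ B ^ (e + 1))
    (hJ : J ≤ Q ^ (i + 1)) : 2 * Q ^ e + J / Q ^ i ≤ B ^ (2 + (e + 1) * e) := by
  have a1 : J / Q ^ i ≤ Q := by
    rw [div_le_iff₀ (by positivity), ← pow_succ']
    exact hJ
  have a2 : Q ≤ Q ^ e := le_self_pow₀ (by linarith) (by omega)
  have a3 : Q ^ e ≤ (B ^ (e + 1)) ^ e := pow_le_pow_left₀ (by linarith) h e
  have a4 : 4 ≤ B ^ 2 := by nlinarith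
  rw [pow_add, pow_mul]
  nlinarith

end RECx

theorem p_REC (hBLK : S_BLK) (hFFB : S_FFB) :
    S_REC := by
  intro n hn
  obtain ⟨e, he, hB⟩ := hBLK n hn
  refine ⟨2 + (e + 1) * e, fun p j hp B m t C hpB hC hm S hS hN => ?_⟩
  have p2 := hp.out.two_le
  have b1 : 1 < B ^ e := one_lt_pow₀ (by omega) (by omega)
  obtain ⟨β, β1, β2, β3⟩ : ∃ β, 1 ≤ β ∧ B ^ e ≤ p ^ β ∧ p ^ β ≤ B ^ (e + 1) := by
    have c0 := Nat.clog_pos p2 b1
    have c1 := Nat.pow_pred_clog_lt_self p2 b1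
    refine ⟨Nat.clog p (B ^ e), c0, Nat.le_pow_clog p2 _, ?_⟩
    rw [← Nat.succ_pred_eq_of_pos c0, pow_succ, pow_succ]
    exact Nat.mul_le_mul c1.le hpB
  have hP : (2 : ℝ) ≤ p := by exact_mod_cast p2
  have hQ : (2 : ℝ) ≤ (p : ℝ) ^ β := hP.trans (le_self_pow₀ (by linarith) (by omega))
  have key : ∀ i u, u ≤ t → m + (n + 1) * (2 * β) * i ≤ u → ∀ S ⊆ C u,
      (∀ a ∈ S, ∃ g, Frame p B (u - m) a g) →
      nn (FF p j B (u - m) S) * ((p : ℝ) ^ j) ^ (n + 1) ≤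
        (2 * (p : ℝ) ^ (e * β) + ((p : ℝ) ^ j) ^ (n + 1) / ((p : ℝ) ^ β) ^ i) *
          (#(C u) : ℝ) ^ 2 := by
    intro i
    induction i with
    | zero =>
      intro u _ _ S hS _
      have b3 : (#S : ℝ) ≤ #(C u) := by exact_mod_cast card_le_card hS
      rw [pow_zero, div_one, mul_comm]
      exact mul_le_mul (le_add_of_nonneg_left (by positivity))
        ((hFFB n p j B (u - m) S).2.2.trans (by gcongr)) (nn_nonneg _) (by positivity)
    | succ i ih =>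
      intro u hu hm S hS hN
      rw [mul_add, mul_one, ← add_assoc] at hm
      obtain ⟨u', rfl⟩ : ∃ u', u = u' + (n + 1) * (2 * β) := ⟨u - (n + 1) * (2 * β), by omega⟩
      refine (hB p j B β m t u' C _ hpB β2 hC (by omega) hu (by positivity)
        (ih u' (by omega) (by omega)) S hS hN).trans ?_
      exact mul_le_mul_of_nonneg_right (RECx.step_le i (by positivity) hQ) (sq_nonneg _)
  have hpos : 0 < (n + 1) * (2 * β) := by positivity
  have d1 := Nat.mul_div_le (t - m) ((n + 1) * (2 * β))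
  have d2 := Nat.lt_mul_div_succ (t - m) hpos
  refine (key ((t - m) / ((n + 1) * (2 * β))) t le_rfl (by omega) S hS hN).trans ?_
  rw [mul_comm e, pow_mul]
  refine mul_le_mul_of_nonneg_right (RECx.last_le hQ (hP.trans (by exact_mod_cast hpB)) he
    (by exact_mod_cast β3) ?_) (sq_nonneg _)
  rw [← pow_mul, ← pow_mul]
  refine pow_le_pow_right₀ (by linarith) (Nat.le_of_mul_le_mul_left ?_ (show 0 < 2 * (n + 1) by omega))
  generalize (t - m) / ((n + 1) * (2 * β)) + 1 = i at d2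
  have d3 : 2 * (n + 1) * (j * (n + 1)) = 2 * (n + 1) ^ 2 * j := by ring
  have d4 : 2 * (n + 1) * (β * i) = (n + 1) * (2 * β) * i := by ring
  omega

end Pool.Agent.P.MP_246241_nt.VN
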