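import Pool.Agent.P.MP_246241_nt.VN.Iface

/-! Step REL. -/

set_option autoImplicit false
set_option linter.unusedSectionVars false

namespace Pool.Agent.P.MP_246241_nt.VN

open Finset Matrix
open scoped Classical

namespace RELx

theorem ta_val (k : ℕ) (a b : ℤ) : (ta k a b : Mt (k + 3)) = 1 + single 0 2 a + single 1 2 b := by
  simp only [ta, Units.val_mul, tv_val, transvection, Matrix.add_mul, Matrix.mul_add,
    Matrix.one_mul, Matrix.mul_one, single_mul_single_of_ne _ _ _ _ (ne12 k).symm, add_zero]

theorem rd_single {D : ℕ} (R : Type) [CommRing R] (a b : Fin D) (c : ℤ) :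
    rd R (single a b c) = single a b (c : R) := by
  ext i j
  simp only [rd_apply, single_apply]
  split_ifs <;> simp

theorem rd_ta (k : ℕ) (R : Type) [CommRing R] (a b : ℤ) :
    rd R (ta k a b : Mt (k + 3)) = 1 + single 0 2 (a : R) + single 1 2 (b : R) := by
  rw [ta_val, map_add, map_add, map_one, rd_single, rd_single]

theorem rd_one (k : ℕ) {R : Type} [CommRing R] {a b : ℤ} (ha : (a : R) = 0) (hb : (b : R) = 0) :
    rd R (ta k a b : Mt (k + 3)) = 1 := by
  rw [rd_ta, ha, hb, single_zero, single_zero, add_zero, add_zero]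

theorem sg_one {D Q p j : ℕ} {g : Gl D} (h1 : rd (ZMod Q) (g : Mt D) = 1)
    (h2 : rd (RR p j) (g : Mt D) = 1) : sg D Q p j g = 1 :=
  Equiv.ext fun z => by simp [sg_apply, h1, h2]

theorem z1 (Q s : ℕ) : (((Q * s : ℕ) : ℤ) : ZMod Q) = 0 := by simp

theorem z2 (Q p j : ℕ) : (((Q * p ^ j : ℕ) : ℤ) : RR p j) = 0 := by
  rw [Int.cast_natCast, Nat.cast_mul, ZMod.natCast_self, mul_zero]

end RELx

open RELx in
theorem p_REL :
    S_REL := by
  intro k
  have a := ne01 k
  have b := ne02 k
  have c := ne12 k
  refine ⟨fun _ _ _ _ => Units.ext ?_, fun _ _ => Units.ext ?_, fun _ _ => Units.ext ?_,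
    fun Q p j => ⟨sg_one (rd_one k (z1 _ _) Int.cast_zero) (rd_one k (z2 _ _ _) Int.cast_zero),
      sg_one (rd_one k Int.cast_zero (z1 _ _)) (rd_one k Int.cast_zero (z2 _ _ _)), fun s z => ?_⟩⟩
  · simp only [Units.val_mul, ta_val, Matrix.add_mul, Matrix.mul_add, Matrix.one_mul,
      Matrix.mul_one, single_mul_single_of_ne _ _ _ _ b.symm,
      single_mul_single_of_ne _ _ _ _ c.symm, single_add]
    abel
  · simp only [Units.val_mul, ta_val, al, tv_val, transvection, Matrix.add_mul, Matrix.mul_add,
      Matrix.one_mul, Matrix.mul_one, single_mul_single_of_ne _ _ _ _ b.symm,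
      single_mul_single_of_ne _ _ _ _ a.symm, single_mul_single_same, single_add, neg_one_mul]
    simp only [← single_neg]
    abel
  · simp only [Units.val_mul, ta_val, be, tv_val, transvection, Matrix.add_mul, Matrix.mul_add,
      Matrix.one_mul, Matrix.mul_one, single_mul_single_of_ne _ _ _ _ c.symm,
      single_mul_single_of_ne _ _ _ _ a, single_mul_single_same, single_add, neg_one_mul]
    simp only [← single_neg]
    abel
  · rw [sg_apply, rd_one k Int.cast_zero (z1 _ _), rd_ta, Int.cast_zero, single_zero, add_zero,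
      add_mulVec, one_mulVec, single_mulVec, Int.cast_natCast]
    simp only [vecMul_one, Set.preimage_id']
    rfl

end Pool.Agent.P.MP_246241_nt.VN
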