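import Pool.Agent.P.MP_246241_nt.VN.Iface

/-! Step SAME. -/

set_option autoImplicit false
set_option linter.unusedSectionVars false

namespace Pool.Agent.P.MP_246241_nt.VN

open Finset Matrix
open scoped Classical

theorem p_SAME :
    S_SAME := by
  intro D Q g g' ⟨d, hd⟩ h
  have key : ∀ i, ∃ w : Fin D → ℤ, w ᵥ* g = g' i := fun i => by
    have hi : Pi.single i 1 ᵥ* rd (ZMod Q) g' ∈ rowL Q g := h ▸ ⟨_, rfl⟩
    obtain ⟨ρ, hρ⟩ := hi
    choose r hr using fun c => ZMod.intCast_surjective (ρ c)
    have e : ∀ c, (Q : ℤ) ∣ g' i c - (r ᵥ* g) c := fun c => by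
      rw [← ZMod.intCast_zmod_eq_zero_iff_dvd]
      have h1 := congrFun (rv_vecMul (R := ZMod Q) g r) c
      have h2 := congrFun hρ c
      have h3 : rv (ZMod Q) r = ρ := funext hr
      rw [h3, rv_apply] at h1
      simp only [single_one_vecMul, row, rd_apply] at h2
      push_cast
      rw [h1, h2, sub_self]
    choose v hv using e
    refine ⟨r + d • (v ᵥ* adjugate g), ?_⟩
    rw [add_vecMul, smul_vecMul, vecMul_vecMul, adjugate_mul]
    ext c
    have := hv c
    rw [hd] at this
    simp only [vecMul_smul, vecMul_one, Pi.add_apply, Pi.smul_apply, smul_eq_mul]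
    linear_combination -this
  choose w hw using key
  exact ⟨of w, by ext i c; rw [← hw i]; simp [mul_apply, vecMul, dotProduct]⟩

end Pool.Agent.P.MP_246241_nt.VN
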