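import Pool.Agent.P.MP_246241_nt.VN.Iface

/-! Step SCAL. -/

set_option autoImplicit false
set_option linter.unusedSectionVars false

namespace Pool.Agent.P.MP_246241_nt.VN

open Finset Matrix
open scoped Classical

namespace SCALx

variable {Q : ℕ} [NeZero Q]

/-- The shear. -/
def sh (m : ℕ) (η : ZMod Q × ZMod Q) : ZMod Q × ZMod Q :=
  (η.1, η.2 + ((3 * m : ℕ) : ZMod Q) * η.1)

/-- The sum along the shears. -/
noncomputable def SS (M : ℕ) (f : ZMod Q × ZMod Q → ℝ) (η : ZMod Q × ZMod Q) : ℝ :=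
  ∑ m ∈ range M, f (sh m η)

/-- The cone. -/
noncomputable def CC (Q : ℕ) [NeZero Q] (M : ℕ) : Finset (ZMod Q × ZMod Q) :=
  {η | 8 * M * |η.1.valMinAbs| ≤ (Q : ℤ) ∧ η.1.valMinAbs ≠ 0 ∧ |η.2.valMinAbs| ≤ |η.1.valMinAbs|}

theorem sh_inj (m : ℕ) : Function.Injective (sh (Q := Q) m) := by
  rintro ⟨x, y⟩ ⟨x', y'⟩ h
  simp only [sh, Prod.mk.injEq] at h
  obtain ⟨rfl, h⟩ := h
  rw [add_right_cancel h]

theorem sq_SS (M : ℕ) (f : ZMod Q × ZMod Q → ℝ) (η : ZMod Q × ZMod Q) :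
    SS M f η ^ 2 ≤ M * ∑ m ∈ range M, f (sh m η) ^ 2 := by
  simpa [SS] using sq_sum_le_card_mul_sum_sq (s := range M) (f := fun m => f (sh m η))

theorem full (M : ℕ) (f : ZMod Q × ZMod Q → ℝ) :
    ∑ η, SS M f η ^ 2 ≤ (M : ℝ) ^ 2 * ∑ η, f η ^ 2 := by
  refine (sum_le_sum fun η _ => sq_SS M f η).trans_eq ?_
  rw [← mul_sum, sum_comm]
  have : ∀ m ∈ range M, ∑ η, f (sh m η) ^ 2 = ∑ η, f η ^ 2 := fun m _ =>
    Fintype.sum_bijective (sh m) (Finite.injective_iff_bijective.1 (sh_inj m)) _ _ fun _ => rfl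
  rw [sum_congr rfl this, sum_const, card_range, nsmul_eq_mul]
  ring

theorem inj (M : ℕ) : Set.InjOn (fun z : (ZMod Q × ZMod Q) × ℕ => sh z.2 z.1)
    (↑(CC Q M ×ˢ range M) : Set ((ZMod Q × ZMod Q) × ℕ)) := by
  rintro ⟨⟨x, y⟩, m⟩ h ⟨⟨x', y'⟩, m'⟩ h' e
  simp only [coe_product, Set.mem_prod, mem_coe, CC, mem_filter, mem_univ, true_and,
    mem_range] at h h'
  simp only [sh, Prod.mk.injEq] at e
  obtain ⟨rfl, e⟩ := e
  obtain ⟨⟨h1, h2, h3⟩, hm⟩ := h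
  obtain ⟨⟨-, -, h3'⟩, hm'⟩ := h'
  have hd : (Q : ℤ) ∣ y.valMinAbs - y'.valMinAbs + 3 * ((m : ℤ) - m') * x.valMinAbs := by
    rw [← ZMod.intCast_zmod_eq_zero_iff_dvd]
    push_cast at e ⊢
    linear_combination e
  have hx : 0 < |x.valMinAbs| := abs_pos.2 h2
  have hmm : |(m : ℤ) - m'| ≤ M := by rw [abs_le]; omega
  have hM : (1 : ℤ) ≤ M := by omega
  have hyy : |y.valMinAbs - y'.valMinAbs| ≤ 2 * |x.valMinAbs| :=
    (abs_sub _ _).trans (by linarith)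
  have h0 : y.valMinAbs - y'.valMinAbs + 3 * ((m : ℤ) - m') * x.valMinAbs = 0 := by
    refine Int.eq_zero_of_abs_lt_dvd hd ((abs_add_le _ _).trans_lt ?_)
    rw [abs_mul, abs_mul, show |(3 : ℤ)| = 3 by norm_num]
    nlinarith [mul_le_mul_of_nonneg_right hmm hx.le]
  have hmm' : m = m' := by
    by_contra hne
    have h4 : (1 : ℤ) ≤ |(m : ℤ) - m'| := Int.one_le_abs (by omega)
    have h5 : |y.valMinAbs - y'.valMinAbs| = 3 * |(m : ℤ) - m'| * |x.valMinAbs| := by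
      rw [eq_neg_of_add_eq_zero_left h0, abs_neg, abs_mul, abs_mul,
        show |(3 : ℤ)| = 3 by norm_num]
    nlinarith [mul_le_mul_of_nonneg_right h4 hx.le]
  subst hmm'
  rw [add_right_cancel e]

theorem cone (M : ℕ) (f : ZMod Q × ZMod Q → ℝ) :
    ∑ η ∈ CC Q M, SS M f η ^ 2 ≤ (M : ℝ) * ∑ η, f η ^ 2 := by
  refine (sum_le_sum fun η _ => sq_SS M f η).trans ?_
  rw [← mul_sum]
  refine mul_le_mul_of_nonneg_left ?_ (Nat.cast_nonneg M)
  rw [← sum_product' (CC Q M) (range M) fun η m => f (sh m η) ^ 2,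
    ← sum_image (f := fun η => f η ^ 2) (inj M)]
  exact sum_le_sum_of_subset_of_nonneg (subset_univ _) fun _ _ _ => sq_nonneg _

theorem cs {ι : Type} (s : Finset ι) (A B : ι → ℝ) {u v : ℝ} (hu : 0 ≤ u) (hv : 0 ≤ v)
    (hA : ∑ i ∈ s, A i ^ 2 ≤ u ^ 2) (hB : ∑ i ∈ s, B i ^ 2 ≤ v ^ 2) :
    ∑ i ∈ s, A i * B i ≤ u * v :=
  (Real.sum_mul_le_sqrt_mul_sqrt s A B).trans
    (mul_le_mul (Real.sqrt_le_iff.2 ⟨hu, hA⟩) (Real.sqrt_le_iff.2 ⟨hv, hB⟩) (Real.sqrt_nonneg _) hu)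

theorem sum_swap (f : ZMod Q × ZMod Q → ℝ) : ∑ η : ZMod Q × ZMod Q, f η.swap = ∑ η, f η :=
  Fintype.sum_bijective Prod.swap Prod.swap_bijective _ _ fun _ => rfl

theorem one {M : ℕ} {f g : ZMod Q × ZMod Q → ℝ} {X Y : ℝ} (hX : 0 ≤ X) (hY : 0 ≤ Y)
    (hf : ∑ η, f η ^ 2 ≤ X ^ 2) (hg : ∑ η, g η ^ 2 ≤ ((M : ℝ) * Y) ^ 2) :
    ∑ η, (if η ∈ CC Q M then SS M f η * g η else 0) ≤ √(M : ℝ) * X * (M * Y) := by
  rw [← sum_filter, filter_mem_eq_inter, univ_inter]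
  refine cs _ _ _ (by positivity) (by positivity) ((cone M f).trans ?_) ?_
  · rw [mul_pow, Real.sq_sqrt (Nat.cast_nonneg M)]
    exact mul_le_mul_of_nonneg_left hf (Nat.cast_nonneg M)
  · exact (sum_le_sum_of_subset_of_nonneg (subset_univ _) fun _ _ _ => sq_nonneg _).trans hg

end SCALx

open SCALx in
theorem p_SCAL :
    S_SCAL := by
  intro Q _ M a b π X Y θ hM ha hb hX hY hθ hA hB hπ hπ'
  set b' : ZMod Q × ZMod Q → ℝ := fun η => b η.swap with hb'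
  have hB' : ∑ η, b' η ^ 2 ≤ Y ^ 2 := (sum_swap fun η => b η ^ 2).trans_le hB
  have fA : ∑ η, SS M a η ^ 2 ≤ ((M : ℝ) * X) ^ 2 := (full M a).trans (by
    rw [mul_pow]; exact mul_le_mul_of_nonneg_left hA (sq_nonneg _))
  have fB' : ∑ η, SS M b' η ^ 2 ≤ ((M : ℝ) * Y) ^ 2 := (full M b').trans (by
    rw [mul_pow]; exact mul_le_mul_of_nonneg_left hB' (sq_nonneg _))
  have fB : ∑ η : ZMod Q × ZMod Q, SS M b' η.swap ^ 2 ≤ ((M : ℝ) * Y) ^ 2 :=
    (sum_swap fun η => SS M b' η ^ 2).trans_le fB'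
  have fA' : ∑ η : ZMod Q × ZMod Q, SS M a η.swap ^ 2 ≤ ((M : ℝ) * X) ^ 2 :=
    (sum_swap fun η => SS M a η ^ 2).trans_le fA
  have t0 := cs univ (SS M a) (fun η => SS M b' η.swap) (by positivity) (by positivity) fA fB
  have t1 := one (M := M) (g := fun η => SS M b' η.swap) hX hY hA fB
  have t2 := one (M := M) (g := fun η => SS M a η.swap) hY hX hB' fA'
  rw [← sum_swap] at t2
  have ha0 : a 0 ≤ X := by
    have : a 0 ^ 2 ≤ X ^ 2 :=
      (single_le_sum (f := fun η => a η ^ 2) (fun _ _ => sq_nonneg _) (mem_univ 0)).trans hA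
    exact (pow_le_pow_iff_left₀ (ha 0) hX two_ne_zero).1 this
  have t3 : ∑ η : ZMod Q × ZMod Q, (if η = 0 then SS M a η * SS M b' η.swap else 0) ≤
      (M : ℝ) ^ 2 * (X * b 0) := by
    rw [sum_ite_eq' univ (0 : ZMod Q × ZMod Q), if_pos (mem_univ _)]
    have e1 : SS M a 0 = M * a 0 := by simp [SS, sh, Prod.mk_zero_zero]
    have e2 : SS M b' (0 : ZMod Q × ZMod Q).swap = M * b 0 := by
      simp [SS, sh, hb', Prod.mk_zero_zero]
    rw [e1, e2]
    nlinarith [mul_nonneg (mul_nonneg (sq_nonneg (M : ℝ)) (hb 0)) (sub_nonneg.2 ha0)]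
  have key : ∀ η : ZMod Q × ZMod Q, π η * (SS M a η * SS M b' η.swap) ≤
      θ * (SS M a η * SS M b' η.swap) +
      (if η ∈ CC Q M then SS M a η * SS M b' η.swap else 0) +
      (if η.swap ∈ CC Q M then SS M b' η.swap * SS M a η.swap.swap else 0) +
      (if η = 0 then SS M a η * SS M b' η.swap else 0) := by
    intro η
    have hp : 0 ≤ SS M a η * SS M b' η.swap :=
      mul_nonneg (sum_nonneg fun _ _ => ha _) (sum_nonneg fun _ _ => hb _)
    rw [Prod.swap_swap, mul_comm (SS M b' η.swap) (SS M a η)]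
    generalize SS M a η * SS M b' η.swap = P at hp
    have hθP := mul_nonneg hθ hp
    have h1 : π η * P ≤ P := by nlinarith [hπ η]
    by_cases hc : (Q : ℤ) < 8 * M * |η.1.valMinAbs| ∨ (Q : ℤ) < 8 * M * |η.2.valMinAbs|
    · have := mul_le_mul_of_nonneg_right (hπ' η hc) hp
      split_ifs <;> linarith
    · rw [not_or, not_lt, not_lt] at hc
      have : η ∈ CC Q M ∨ η.swap ∈ CC Q M ∨ η = 0 := by
        simp only [CC, mem_filter, mem_univ, true_and, Prod.fst_swap, Prod.snd_swap]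
        rcases le_total |η.2.valMinAbs| |η.1.valMinAbs| with h | h
        · by_cases hx : η.1.valMinAbs = 0
          · refine Or.inr (Or.inr ?_)
            rw [hx, abs_zero, abs_nonpos_iff] at h
            exact Prod.ext ((ZMod.valMinAbs_eq_zero _).1 hx) ((ZMod.valMinAbs_eq_zero _).1 h)
          · exact Or.inl ⟨hc.1, hx, h⟩
        · by_cases hx : η.2.valMinAbs = 0
          · refine Or.inr (Or.inr ?_)
            rw [hx, abs_zero, abs_nonpos_iff] at h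
            exact Prod.ext ((ZMod.valMinAbs_eq_zero _).1 h) ((ZMod.valMinAbs_eq_zero _).1 hx)
          · exact Or.inr (Or.inl ⟨hc.2, hx, h⟩)
      split_ifs with i1 i2 i3 <;> first | linarith | tauto
  have hs : 0 < √(M : ℝ) := Real.sqrt_pos.2 (by exact_mod_cast hM)
  have hs2 : √(M : ℝ) * √(M : ℝ) = M := Real.mul_self_sqrt (Nat.cast_nonneg M)
  have e : (M : ℝ) ^ 2 * (2 / √(M : ℝ)) = 2 * (√(M : ℝ) * M) := by
    field_simp
    nlinarith
  refine (sum_le_sum fun η _ => key η).trans ?_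
  rw [sum_add_distrib, sum_add_distrib, sum_add_distrib, ← mul_sum]
  have t0' := mul_le_mul_of_nonneg_left t0 hθ
  have : (M : ℝ) ^ 2 * ((2 / √(M : ℝ) + θ) * X * Y + X * b 0) =
      (M : ℝ) ^ 2 * (2 / √(M : ℝ)) * X * Y + θ * (M * X * (M * Y)) + (M : ℝ) ^ 2 * (X * b 0) := by
    ring
  rw [this, e]
  linarith

end Pool.Agent.P.MP_246241_nt.VN
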