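import Pool.Agent.P.MP_246241_nt.VN.Iface

/-! Step SHELL. -/

set_option autoImplicit false
set_option linter.unusedSectionVars false

namespace Pool.Agent.P.MP_246241_nt.VN

open Finset Matrix
open scoped Classical

namespace SHELLx

theorem ent {n p B l : ℕ} {x : Vc n} {g : Gl (n + 1)} (h : Frame p B l x g) (hB : 1 ≤ B) {s : ℝ}
    (s0 : 0 ≤ s) (hs : s ^ (n + 1) = (p : ℝ) ^ (n * l)) (i c : Fin (n + 1)) :
    |((((g : Mt (n + 1)) * Tm p l x) i c : ℤ) : ℝ)| ≤ B * s := by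
  have B1 : (1 : ℝ) ≤ B := by exact_mod_cast hB
  have a : |((((g : Mt (n + 1)) * Tm p l x) i c : ℤ) : ℝ)| ^ (n + 1) ≤ B * (p : ℝ) ^ (n * l) := by
    exact_mod_cast h i c
  refine (pow_le_pow_iff_left₀ (abs_nonneg _) (by positivity) n.succ_ne_zero).1 (a.trans ?_)
  rw [mul_pow, hs]
  exact mul_le_mul_of_nonneg_right (le_self_pow₀ B1 n.succ_ne_zero) (by positivity)

end SHELLx

theorem p_SHELL :
    S_SHELL := by
  intro n p B l β x x' g g' hp hB hx h h'
  have p0 : (0 : ℝ) < p := by exact_mod_cast hp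
  have B0 : (0 : ℝ) ≤ B := Nat.cast_nonneg B
  obtain ⟨r, r0, hr⟩ : ∃ r : ℝ, 0 < r ∧ r ^ (n + 1) = (p : ℝ) ^ (n * l) :=
    ⟨((p : ℝ) ^ (n * l)) ^ ((n + 1 : ℕ) : ℝ)⁻¹, by positivity,
      Real.rpow_inv_natCast_pow (by positivity) n.succ_ne_zero⟩
  obtain ⟨m, hm⟩ : ∃ m : ℝ, m = (p : ℝ) ^ β := ⟨_, rfl⟩
  have m0 : 0 < m := by rw [hm]; positivity
  have hb : (p : ℝ) ^ ((n + 1) * β) = m ^ (n + 1) := by rw [hm, ← pow_mul, mul_comm]
  have hs : (r * m ^ n) ^ (n + 1) = (p : ℝ) ^ (n * (l + (n + 1) * β)) := by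
    rw [mul_pow, hr, hm]; ring
  have e1 := SHELLx.ent h hB r0.le hr
  have e2 := SHELLx.ent h' hB (by positivity) hs
  have e3 : rd ℝ ((g' * g⁻¹ : Gl (n + 1)) : Mt (n + 1)) *
      (rd ℝ ((g : Mt (n + 1)) * Tm p (l + (n + 1) * β) x') *
        diagonal (Fin.cons (1 / r) fun _ => 1 / (r * m ^ (n + 1)))) =
      rd ℝ ((g' : Mt (n + 1)) * Tm p (l + (n + 1) * β) x') *
        diagonal (Fin.cons (1 / r) fun _ => 1 / (r * m ^ (n + 1))) := by
    rw [← mul_assoc, ← map_mul, ← mul_assoc, ← Units.val_mul, inv_mul_cancel_right]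
  refine ⟨rd ℝ ((g : Mt (n + 1)) * Tm p (l + (n + 1) * β) x') *
    diagonal (Fin.cons (1 / r) fun _ => 1 / (r * m ^ (n + 1))), ?_, fun i c => ?_, fun i => ?_,
      fun i c => ?_⟩
  · have a : |((((g : Mt (n + 1)) * Tm p (l + (n + 1) * β) x').det : ℤ) : ℝ)| =
        (p : ℝ) ^ (n * (l + (n + 1) * β)) := by exact_mod_cast det_frame p _ x' g
    rw [det_mul, abs_mul, det_rd, a, ← hs, det_diagonal, Fin.prod_univ_succ]
    simp only [Fin.cons_zero, Fin.cons_succ, prod_const, card_univ, Fintype.card_fin]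
    rw [abs_of_pos (by positivity), _root_.one_div_pow, mul_pow, mul_pow]
    refine le_of_eq ?_
    field_simp
    ring
  · have z := e1 i 0
    rw [mul_Tm_zero] at z
    rw [mul_diagonal, rd_apply, abs_mul]
    push_cast
    refine Fin.cases ?_ (fun c => ?_) c
    · rw [mul_Tm_zero, Fin.cons_zero, abs_of_pos (one_div_pos.2 r0), mul_one_div, div_le_iff₀ r0]
      nlinarith
    · have q0 : (0 : ℤ) < (p : ℤ) ^ ((n + 1) * β) := by positivity
      have d0 : (0 : ℝ) ≤ (x' c % (p : ℤ) ^ ((n + 1) * β) : ℤ) := by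
        exact_mod_cast Int.emod_nonneg _ q0.ne'
      have d1 : ((x' c % (p : ℤ) ^ ((n + 1) * β) : ℤ) : ℝ) ≤ m ^ (n + 1) := by
        rw [← hb]; exact_mod_cast (Int.emod_lt_of_pos _ q0).le
      have a : ((g : Mt (n + 1)) * Tm p (l + (n + 1) * β) x') i c.succ =
          (p : ℤ) ^ ((n + 1) * β) * ((g : Mt (n + 1)) * Tm p l x) i c.succ +
            (g : Mt (n + 1)) i 0 * (x' c % (p : ℤ) ^ ((n + 1) * β)) := by
        rw [mul_Tm_succ, mul_Tm_succ, ← hx, pre, Int.emod_def]; ring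
      rw [Fin.cons_succ, abs_of_pos (one_div_pos.2 (mul_pos r0 (pow_pos m0 _))), mul_one_div,
        div_le_iff₀ (by positivity), a, Int.cast_add, Int.cast_mul, Int.cast_mul, Int.cast_pow,
        Int.cast_natCast, hb]
      refine (abs_add_le _ _).trans ?_
      rw [abs_mul, abs_mul, abs_of_pos (pow_pos m0 _), abs_of_nonneg d0]
      have u1 := mul_le_mul_of_nonneg_left (e1 i c.succ) (pow_pos m0 (n + 1)).le
      have u2 := mul_le_mul z d1 d0 (by positivity)
      linarith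
  · rw [e3, mul_diagonal, rd_apply, abs_mul, Fin.cons_zero, abs_of_pos (one_div_pos.2 r0),
      mul_one_div, div_le_iff₀ r0]
    push_cast
    rw [← hm]
    have := e2 i 0
    nlinarith [show 0 ≤ B * (r * m ^ n) by positivity]
  · rw [e3, mul_diagonal, rd_apply, abs_mul, Fin.cons_succ,
      abs_of_pos (one_div_pos.2 (mul_pos r0 (pow_pos m0 _))), mul_one_div, div_mul_eq_mul_div,
      div_le_iff₀ (by positivity)]
    push_cast
    rw [← hm, pow_succ]
    have := mul_le_mul_of_nonneg_right (e2 i c.succ) m0.le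
    nlinarith [show 0 ≤ B * (r * m ^ n) * m by positivity]

end Pool.Agent.P.MP_246241_nt.VN
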