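import Pool.Agent.P.MP_246241_nt.VN.Iface

/-! Step SLAB. -/

set_option autoImplicit false
set_option linter.unusedSectionVars false

namespace Pool.Agent.P.MP_246241_nt.VN

open Finset Matrix
open scoped Classical

theorem p_SLAB :
    S_SLAB := by
  intro n P S ξ c ρ hξ hρ hS
  obtain ⟨i0, hi0⟩ := Function.ne_iff.1 hξ
  obtain ⟨k, -, hk⟩ := exists_max_image univ (fun i => |ξ i|) ⟨i0, mem_univ _⟩
  have hk0 : 0 < |ξ k| := lt_of_lt_of_le (abs_pos.2 hi0) (hk i0 (mem_univ _))
  have hb : ∀ d ∈ S, |∑ i, (d i : ℝ) * ξ i - c| ≤ n * ρ * |ξ k| := by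
    intro d hd
    obtain ⟨-, z, hz, hz'⟩ := hS d hd
    rw [← hz, dotProduct, ← sum_sub_distrib]
    refine (abs_sum_le_sum_abs _ _).trans ((sum_le_card_nsmul _ _ (ρ * |ξ k|)
      fun i _ => ?_).trans_eq ?_)
    · rw [← sub_mul, abs_mul]
      exact mul_le_mul (hz' i) (hk i (mem_univ _)) (abs_nonneg _) hρ
    · simp [mul_assoc]
  have hdiff : ∀ d ∈ S, ∀ e ∈ S, Function.update d k 0 = Function.update e k 0 →
      (d k : ℝ) - e k ≤ 2 * n * ρ := by
    intro d hd e he h
    have h1 : ∑ i, (d i : ℝ) * ξ i - ∑ i, (e i : ℝ) * ξ i = ((d k : ℝ) - e k) * ξ k := by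
      rw [← sum_sub_distrib, sum_eq_single k]
      · ring
      · intro i _ hi
        have := congrFun h i
        rw [Function.update_of_ne hi, Function.update_of_ne hi] at this
        rw [this, sub_self]
      · simp
    have h2 : |(d k : ℝ) - e k| * |ξ k| ≤ 2 * n * ρ * |ξ k| := by
      rw [← abs_mul, ← h1]
      have h3 := abs_le.1 (hb d hd)
      have h4 := abs_le.1 (hb e he)
      rw [abs_le]
      constructor <;> linarith [h3.1, h3.2, h4.1, h4.2]
    exact (le_abs_self _).trans (le_of_mul_le_mul_right h2 hk0)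
  set m := ⌊2 * n * ρ⌋₊ with hm
  have hm0 : (0 : ℝ) ≤ 2 * n * ρ := by positivity
  let T : Finset (Vc n) :=
    Fintype.piFinset fun i => if i = k then ({0} : Finset ℤ) else Ico (0 : ℤ) P
  have hT : #T * P = P ^ n := by
    have h1 : #T = ∏ i ∈ univ.erase k, P := by
      rw [Fintype.card_piFinset, ← mul_prod_erase univ _ (mem_univ k), if_pos rfl, card_singleton,
        one_mul]
      refine prod_congr rfl fun i hi => ?_
      rw [if_neg (ne_of_mem_erase hi)]
      simp
    rw [h1, prod_const, card_erase_of_mem (mem_univ k), card_univ, Fintype.card_fin, ← pow_succ]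
    congr 1
    have := k.pos
    omega
  have hc : #S ≤ (m + 1) * #T := by
    refine card_le_mul_card_image_of_maps_to (f := fun d => Function.update d k 0)
      (fun d hd => Fintype.mem_piFinset.2 fun i => ?_) _ fun b _ => ?_
    · by_cases hi : i = k
      · subst hi; simp
      · rw [if_neg hi, Function.update_of_ne hi]
        exact mem_Ico.2 ((hS d hd).1 i)
    · rcases (S.filter fun d => Function.update d k 0 = b).eq_empty_or_nonempty with h | h
      · rw [h]; simp
      obtain ⟨e, he, hmin⟩ := exists_min_image _ (fun d : Vc n => d k) h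
      obtain ⟨e1, e2⟩ := mem_filter.1 he
      refine (card_le_card_of_injOn (t := Icc (e k) (e k + m)) (fun d => d k)
        (fun d hd => ?_) fun d hd d' hd' h' => ?_).trans_eq (by simp; omega)
      · have hd0 := mem_coe.1 hd
        obtain ⟨d1, d2⟩ := mem_filter.1 hd0
        have h1 := hmin d hd0
        have h2 := hdiff d d1 e e1 (d2.trans e2.symm)
        have h3 : (d k : ℝ) - e k < m + 1 := h2.trans_lt (Nat.lt_floor_add_one _)
        have h4 : d k - e k < m + 1 := by exact_mod_cast h3
        exact mem_coe.2 (mem_Icc.2 ⟨h1, show d k ≤ e k + m by omega⟩)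
      · have h1 := ((mem_filter.1 (mem_coe.1 hd)).2).trans (mem_filter.1 (mem_coe.1 hd')).2.symm
        funext i
        by_cases hi : i = k
        · rw [hi]; exact h'
        · have := congrFun h1 i
          rwa [Function.update_of_ne hi, Function.update_of_ne hi] at this
  have h1 : #S * P ≤ (m + 1) * P ^ n := by
    rw [← hT, ← mul_assoc]
    exact Nat.mul_le_mul_right _ hc
  have h2 : (#S : ℝ) * P ≤ (m + 1) * (P : ℝ) ^ n := by exact_mod_cast h1
  refine h2.trans (mul_le_mul_of_nonneg_right ?_ (by positivity))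
  linarith [Nat.floor_le hm0]

end Pool.Agent.P.MP_246241_nt.VN
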