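import Pool.Agent.P.MP_246241_nt.VN.Iface

/-! Step UNF. -/

set_option autoImplicit false
set_option linter.unusedSectionVars false

namespace Pool.Agent.P.MP_246241_nt.VN

open Finset Matrix
open scoped Classical

namespace UNFx

theorem unfold {D Q p j : ℕ} [NeZero Q] [Fact p.Prime] (B₁ B₂ : Finset (Mt D))
    (F₁ F₂ : AA D p j → ℝ) :
    ip (lift Q B₁ F₁) (lift Q B₂ F₂) = ∑ g ∈ B₁, ∑ g' ∈ fib Q B₂ (rowL Q g),
      ∑ y : AA D p j, F₁ (rd (RR p j) g *ᵥ y) * F₂ (rd (RR p j) g' *ᵥ y) := by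
  rw [← sum_fiberwise B₁ (rowL Q), ip, Fintype.sum_prod_type]
  refine sum_congr rfl fun L _ => ?_
  simp only [lift, sum_mul_sum]
  rw [sum_comm]
  refine sum_congr (by ext g; simp [fib]) fun g hg => ?_
  rw [(mem_filter.1 hg).2, sum_comm]

end UNFx

theorem p_UNF :
    S_UNF := by
  intro D Q p j _ _ S B₁ B₂ F₁ F₂ k h1 h2 hB hS
  set I : Gl D → ℝ := fun γ => ip F₁ (fun x => F₂ (rd (RR p j) (γ : Mt D) *ᵥ x)) with hI
  have I0 : ∀ γ, 0 ≤ I γ := fun γ => sum_nonneg fun x _ => mul_nonneg (h1 _) (h2 _)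
  rw [UNFx.unfold, mul_sum]
  calc ∑ γ ∈ S, k * I γ ≤ ∑ γ ∈ S, ∑ g ∈ B₁ with (γ : Mt D) * g ∈ B₂, I γ := by
        refine sum_le_sum fun γ hγ => ?_
        rw [sum_const, nsmul_eq_mul]
        exact mul_le_mul_of_nonneg_right (hS γ hγ) (I0 γ)
    _ = ∑ g ∈ B₁, ∑ γ ∈ S.filter (fun γ : Gl D => (γ : Mt D) * g ∈ B₂), I γ := by
        simp only [sum_filter]
        exact sum_comm
    _ ≤ _ := by
        refine sum_le_sum fun g hg => ?_
        have hd : g.det ≠ 0 := fun e => hB g hg (e ▸ dvd_zero _)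
        have inj : Function.Injective fun γ : Gl D => (γ : Mt D) * g := fun a b e => by
          have e' := congrArg (· * g.adjugate) e
          simp only [mul_assoc, mul_adjugate, Matrix.mul_smul, mul_one] at e'
          exact Units.ext (smul_right_injective _ hd e')
        have e : ∀ γ : Gl D, I γ = ∑ y : AA D p j, F₁ (rd (RR p j) g *ᵥ y) *
            F₂ (rd (RR p j) ((γ : Mt D) * g) *ᵥ y) := fun γ => by
          simp only [map_mul, ← mulVec_mulVec]
          exact (sum_mulVec_unit (mem_UU.1 (rd_mem_UU (hB g hg)))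
            fun x => F₁ x * F₂ (rd (RR p j) (γ : Mt D) *ᵥ x)).symm
        rw [sum_congr rfl fun γ _ => e γ, ← sum_image (f := fun g' : Mt D => ∑ y : AA D p j,
          F₁ (rd (RR p j) g *ᵥ y) * F₂ (rd (RR p j) g' *ᵥ y)) inj.injOn]
        refine sum_le_sum_of_subset_of_nonneg (fun g' hg' => ?_) fun _ _ _ =>
          sum_nonneg fun _ _ => mul_nonneg (h1 _) (h2 _)
        obtain ⟨γ, hγ, rfl⟩ := mem_image.1 hg'
        exact mem_fib.2 ⟨(mem_filter.1 hγ).2, rowL_left γ g⟩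

end Pool.Agent.P.MP_246241_nt.VN
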