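import Pool.Agent.P.MP_246241_nt.VN.Iface

/-! Step VAN. -/

set_option autoImplicit false
set_option linter.unusedSectionVars false

namespace Pool.Agent.P.MP_246241_nt.VN

open Finset Matrix
open scoped Classical

namespace VANx

variable {D p j : ℕ} [Fact p.Prime]

theorem sum_zero {f : AA D p j → ℝ} {u d e : RR p j} (hu : u * d = e)
    (hf : ∀ x, ∑ t : AA D p j, f (x + e • t) = 0) (x : AA D p j) :
    ∑ t : AA D p j, f (x + u • t) = 0 := by
  have h1 : ∀ t' : AA D p j, ∑ t : AA D p j, f (x + u • t) =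
      ∑ t : AA D p j, f (x + u • t + e • t') := fun t' => by
    rw [← Equiv.sum_comp (Equiv.addRight (d • t'))]
    simp only [Equiv.coe_addRight, smul_add, smul_smul, hu, add_assoc]
  have h2 : (Fintype.card (AA D p j) : ℝ) * ∑ t : AA D p j, f (x + u • t) = 0 := by
    rw [← nsmul_eq_mul, ← card_univ, ← sum_const, sum_congr rfl fun t' _ => h1 t', sum_comm]
    exact sum_eq_zero fun t _ => hf _
  exact (mul_eq_zero.1 h2).resolve_left (Nat.cast_ne_zero.2 Fintype.card_ne_zero)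

theorem sum_UU {h : MM D p j} (hh : IsUnit h.det) (Φ : MM D p j → ℝ) :
    ∑ G ∈ UU D p j, Φ (G * h) = ∑ G ∈ UU D p j, Φ G := by
  obtain ⟨v, rfl⟩ := (isUnit_iff_isUnit_det h).2 hh
  refine sum_equiv (Units.mulRight v) (fun G => ?_) fun _ _ => rfl
  simp only [mem_UU, Units.mulRight_apply, det_mul, IsUnit.mul_iff, hh, and_true]

theorem det_h (t lam : AA D p j) :
    IsUnit (1 + vecMulVec ((p : RR p j) • t) lam : MM D p j).det := by
  rw [vecMulVec_eq Unit, det_one_add_replicateCol_mul_replicateRow, dotProduct_smul, smul_eq_mul]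
  exact unit_one_add _

theorem h_mulVec (t lam x : AA D p j) :
    (1 + vecMulVec ((p : RR p j) • t) lam : MM D p j) *ᵥ x =
      x + ((p : RR p j) * (lam ⬝ᵥ x)) • t := by
  rw [add_mulVec, one_mulVec, vecMulVec_mulVec]
  ext i
  simp [mul_comm, mul_left_comm]

end VANx

theorem p_VAN :
    S_VAN := by
  intro D p j _ k b c f y s hk hbc hf hs hy
  obtain ⟨k, rfl⟩ : ∃ m, k = m + 1 := ⟨k - 1, by omega⟩
  obtain ⟨s', hs'⟩ := (dvd_or_dvd s k).resolve_left hs
  obtain ⟨y', hy'⟩ := (dvd_or_dvd (y c) k).resolve_left hy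
  have hu : (p * (s * y c ^ 2)) * (s' * y' ^ 2 * p ^ 2) = (p : RR p j) ^ (3 * (k + 1)) := by
    rw [show (p : RR p j) ^ (3 * (k + 1)) = p ^ 3 * (p ^ k * (p ^ k) ^ 2) by ring]
    nth_rewrite 2 [hy']
    rw [hs']
    ring
  set lam : AA D p j := Pi.single b (y c) - Pi.single c (y b) with hl
  have l1 : lam ⬝ᵥ y = 0 := by
    rw [hl, sub_dotProduct, single_dotProduct, single_dotProduct]; ring
  have l2 : lam ⬝ᵥ (y + Pi.single b (s * y c)) = s * y c ^ 2 := by
    rw [dotProduct_add, l1, hl, dotProduct_single, Pi.sub_apply, Pi.single_eq_same,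
      Pi.single_eq_of_ne hbc]; ring
  set W : AA D p j := y + Pi.single b (s * y c)
  have h1 : ∀ t : AA D p j, ∑ G ∈ UU D p j, f (G *ᵥ y) * f (G *ᵥ W) =
      ∑ G ∈ UU D p j, f (G *ᵥ y) * f (G *ᵥ W + (p * (s * y c ^ 2) : RR p j) • (G *ᵥ t)) := fun t => by
    rw [← VANx.sum_UU (VANx.det_h t lam)]
    simp only [← mulVec_mulVec, VANx.h_mulVec, l1, l2, mul_zero, zero_smul, add_zero, mulVec_add,
      mulVec_smul]
  have h2 : (Fintype.card (AA D p j) : ℝ) * ∑ G ∈ UU D p j, f (G *ᵥ y) * f (G *ᵥ W) = 0 := by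
    rw [← nsmul_eq_mul, ← card_univ, ← sum_const, sum_congr rfl fun t _ => h1 t, sum_comm]
    refine sum_eq_zero fun G hG => ?_
    rw [← mul_sum, sum_mulVec_unit (mem_UU.1 hG)
      fun t => f (G *ᵥ W + (p * (s * y c ^ 2) : RR p j) • t), VANx.sum_zero hu hf, mul_zero]
  exact (mul_eq_zero.1 h2).resolve_left (Nat.cast_ne_zero.2 Fintype.card_ne_zero)

end Pool.Agent.P.MP_246241_nt.VN
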