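import Pool.Agent.P.MP_246241_nt.VN.Iface

/-! Step VEC. -/

set_option autoImplicit false
set_option linter.unusedSectionVars false

namespace Pool.Agent.P.MP_246241_nt.VN

open Finset Matrix
open scoped Classical

theorem p_VEC (hQUOT : EK.S_QUOT) :
    S_VEC := by
  intro n
  obtain ⟨C, hC⟩ := hQUOT (n + 1)
  refine ⟨C + n, fun p B H l i a g hp hB hF ⟨w, hw, hs⟩ => ?_⟩
  have hp' : (0 : ℤ) < p := by exact_mod_cast hp
  set w' : Vc (n + 1) := Fin.cons ((p : ℤ) ^ i * w 0) fun j => w j.succ with hw'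
  have e0 : w' 0 = (p : ℤ) ^ i * w 0 := rfl
  have es : ∀ j : Fin n, w' j.succ = w j.succ := fun j => rfl
  have e1 : ∀ c, (w' ᵥ* Tm p (l + i) a) c = (p : ℤ) ^ i * (w ᵥ* Tm p l a) c := fun c => by
    refine Fin.cases ?_ (fun j => ?_) c
    · rw [vecMul_Tm_zero, vecMul_Tm_zero, e0]
    · rw [vecMul_Tm_succ, vecMul_Tm_succ, e0, es]; ring
  set ρ : Vc (n + 1) := w' ᵥ* ((g⁻¹ : Gl (n + 1)) : Mt (n + 1)) with hρ
  have e2 : ρ ᵥ* (g : Mt (n + 1)) = w' := by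
    rw [hρ, vecMul_vecMul, Units.inv_mul, vecMul_one]
  refine ⟨ρ, fun h => hw ?_, ?_, fun c => ?_⟩
  · rw [h, zero_vecMul] at e2
    funext c
    refine Fin.cases ?_ (fun j => ?_) c
    · have h1 : (p : ℤ) ^ i * w 0 = 0 := by rw [← e0, ← e2]; rfl
      exact (mul_eq_zero.1 h1).resolve_left (by positivity)
    · exact (es j).symm.trans (congrFun e2.symm j.succ)
  · have h1 : ρ ⬝ᵥ col g = (ρ ᵥ* (g : Mt (n + 1))) 0 := rfl
    rw [h1, e2, e0]
    exact dvd_mul_right _ _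
  · obtain ⟨c0, h0⟩ := Finite.exists_max fun c : Fin (n + 1) =>
      |(p : ℤ) ^ i * (w ᵥ* Tm p l a) c| ^ (n + 1)
    have h1 := hC (Matrix.of fun _ c => ρ c) ((g : Mt (n + 1)) * Tm p (l + i) a)
      (Matrix.of fun _ c => (p : ℤ) ^ i * (w ᵥ* Tm p l a) c) _ _
      (by
        ext r c
        have h2 : (Matrix.of (fun _ c => ρ c) * ((g : Mt (n + 1)) * Tm p (l + i) a)) r c =
            (ρ ᵥ* ((g : Mt (n + 1)) * Tm p (l + i) a)) c := rfl
        rw [h2, ← vecMul_vecMul, e2, e1]; rfl)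
      hF (fun _ c => h0 c) 0 c
    rw [det_frame, Nat.add_sub_cancel, Matrix.of_apply] at h1
    set P : ℤ := (p : ℤ) ^ (n * (l + i)) with hP
    have hP0 : 0 < P := by positivity
    have h2 : (H : ℤ) * |(p : ℤ) ^ i * (w ᵥ* Tm p l a) c0| ^ (n + 1) ≤ (p : ℤ) ^ i * P := by
      calc _ = ((p : ℤ) ^ i) ^ (n + 1) * ((H : ℤ) * |(w ᵥ* Tm p l a) c0| ^ (n + 1)) := by
            rw [abs_mul, abs_of_pos (pow_pos hp' i), mul_pow]; ring
        _ ≤ ((p : ℤ) ^ i) ^ (n + 1) * (p : ℤ) ^ (n * l) :=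
            mul_le_mul_of_nonneg_left (hs c0) (by positivity)
        _ = _ := by rw [hP]; ring
    have h3 : (C : ℤ) ≤ (B : ℤ) ^ C := by
      exact_mod_cast (Nat.lt_two_pow_self.le.trans (Nat.pow_le_pow_left hB C))
    refine le_of_mul_le_mul_right ?_ (pow_pos hP0 (n + 1))
    calc (H : ℤ) * |ρ c| ^ (n + 1) * P ^ (n + 1) = H * (|ρ c| ^ (n + 1) * P ^ (n + 1)) := by ring
      _ ≤ H * (C * |(p : ℤ) ^ i * (w ᵥ* Tm p l a) c0| ^ (n + 1) * ((B : ℤ) * P) ^ n) :=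
          mul_le_mul_of_nonneg_left h1 (Nat.cast_nonneg H)
      _ = (C * ((B : ℤ) * P) ^ n) * (H * |(p : ℤ) ^ i * (w ᵥ* Tm p l a) c0| ^ (n + 1)) := by ring
      _ ≤ ((B : ℤ) ^ C * ((B : ℤ) * P) ^ n) * ((p : ℤ) ^ i * P) :=
          mul_le_mul (mul_le_mul_of_nonneg_right h3 (by positivity)) h2 (by positivity)
            (by positivity)
      _ = _ := by push_cast; ring

end Pool.Agent.P.MP_246241_nt.VN
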