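import Pool.Agent.P.MP_246241_nt.VN.Iface

/-! Step WIN. -/

set_option autoImplicit false
set_option linter.unusedSectionVars false

namespace Pool.Agent.P.MP_246241_nt.VN

open Finset Matrix
open scoped Classical

theorem p_WIN (hVEC : S_VEC) (hESET : S_ESET) (hFFB : S_FFB) :
    S_WIN := by
  intro n
  obtain ⟨e1, hV⟩ := hVEC n
  refine ⟨e1 + 2 * (n + 1), fun p j hp B H l S hj hB hS => ?_⟩
  obtain ⟨-, hsum, -⟩ := hFFB n p j B l S
  have hB1 : (1 : ℝ) ≤ B := by exact_mod_cast (by omega : 1 ≤ B)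
  have hj1 : (1 : ℝ) ≤ j := by exact_mod_cast hj
  have hN := nn_nonneg (FF p j B l S)
  have key : ∀ E : Finset (AA (n + 1) p j), (∀ y, FF p j B l S y ≠ 0 → y ∈ E) →
      (#S : ℝ) ^ 2 ≤ #E * nn (FF p j B l S) := by
    intro E hsupp
    have h1 : ∑ y, FF p j B l S y = ∑ y ∈ E, FF p j B l S y :=
      (sum_subset (subset_univ E) fun y _ hy => by
        by_contra h
        exact hy (hsupp y h)).symm
    have h2 : (∑ y ∈ E, FF p j B l S y) ^ 2 ≤ #E * ∑ y ∈ E, FF p j B l S y ^ 2 :=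
      sq_sum_le_card_mul_sum_sq
    have h3 : ∑ y ∈ E, FF p j B l S y ^ 2 ≤ nn (FF p j B l S) :=
      sum_le_sum_of_subset_of_nonneg (subset_univ E) fun _ _ _ => sq_nonneg _
    rw [← hsum, h1]
    exact h2.trans (mul_le_mul_of_nonneg_left h3 (Nat.cast_nonneg _))
  have h3 : (3 : ℝ) ^ (n + 1) ≤ (B : ℝ) ^ (2 * (n + 1)) := by
    rw [pow_mul]
    refine pow_le_pow_left₀ (by norm_num) ?_ _
    have : (2 : ℝ) ≤ B := by exact_mod_cast hB
    nlinarith
  have h31 : (1 : ℝ) ≤ (3 : ℝ) ^ (n + 1) := one_le_pow₀ (by norm_num)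
  have fin : ∀ E : Finset (AA (n + 1) p j), (∀ y, FF p j B l S y ≠ 0 → y ∈ E) →
      (H : ℝ) * #E ≤ j * 3 ^ (n + 1) * (B : ℝ) ^ e1 * ((p : ℝ) ^ j) ^ (n + 1) →
      (H : ℝ) * (#S : ℝ) ^ 2 ≤
        j * (B : ℝ) ^ (e1 + 2 * (n + 1)) * (nn (FF p j B l S) * ((p : ℝ) ^ j) ^ (n + 1)) := by
    intro E hs hE
    calc (H : ℝ) * (#S : ℝ) ^ 2 ≤ H * (#E * nn (FF p j B l S)) :=
          mul_le_mul_of_nonneg_left (key E hs) (Nat.cast_nonneg _)
      _ = (H * #E) * nn (FF p j B l S) := by ring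
      _ ≤ (j * 3 ^ (n + 1) * (B : ℝ) ^ e1 * ((p : ℝ) ^ j) ^ (n + 1)) * nn (FF p j B l S) :=
          mul_le_mul_of_nonneg_right hE hN
      _ ≤ (j * (B : ℝ) ^ (2 * (n + 1)) * (B : ℝ) ^ e1 * ((p : ℝ) ^ j) ^ (n + 1)) *
            nn (FF p j B l S) := by gcongr
      _ = _ := by ring
  rcases le_or_gt H (B ^ e1) with hH | hH
  · refine fin univ (fun y _ => mem_univ y) ?_
    rw [card_univ, card_AA]
    push_cast
    have hH' : (H : ℝ) ≤ (B : ℝ) ^ e1 := by exact_mod_cast hH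
    refine mul_le_mul_of_nonneg_right (hH'.trans ?_) (by positivity)
    exact le_mul_of_one_le_left (by positivity) (one_le_mul_of_one_le_of_one_le hj1 h31)
  · obtain ⟨E, hE, hmem⟩ := hESET (n + 1) p j (B ^ e1) H hH
    refine fin E (fun y hy => ?_) (by exact_mod_cast hE)
    have hc : #{a ∈ S | rv (RR p j) (col (fr p B l a)) = y} ≠ 0 := by
      intro h
      apply hy
      rw [FF, h, Nat.cast_zero]
    obtain ⟨a, ha⟩ := card_ne_zero.1 hc
    obtain ⟨haS, hb⟩ := mem_filter.1 ha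
    obtain ⟨hg, i, hi, hil, hs⟩ := hS a haS
    have hf := fr_spec hg
    obtain ⟨ρ, h0, h1, h2⟩ := hV p B H (l - i) i a (fr p B l a) hp.out.pos hB
      (by rwa [Nat.sub_add_cancel hil]) hs
    exact hb ▸ hmem _ ρ i hi h0 h1 h2

end Pool.Agent.P.MP_246241_nt.VN
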