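import Pool.Agent.P.MP_246241_nt.VN.Iface

/-! Step WK. -/

set_option autoImplicit false
set_option linter.unusedSectionVars false

namespace Pool.Agent.P.MP_246241_nt.VN

open Finset Matrix
open scoped Classical

theorem p_WK (hREC : S_REC) (hWIN : S_WIN) (hFRAME : EK.S_FRAME) :
    S_WK := by
  intro n hn
  obtain ⟨e₁, hR⟩ := hREC n hn
  obtain ⟨e₂, hW⟩ := hWIN n
  obtain ⟨a, hF⟩ := hFRAME n
  refine ⟨(a + 1) * (e₂ + e₁), fun p _ h j m t H C hh hj hC hm S hS hs => ?_⟩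
  have hp : 2 ≤ p := two_le
  have h1 : p ≤ p ^ h := Nat.le_self_pow (by omega) p
  have h2 : p ^ h ≤ (p ^ h) ^ (a + 1) := Nat.le_self_pow (by omega) _
  have h3 : (p ^ h) ^ a ≤ (p ^ h) ^ (a + 1) := Nat.pow_le_pow_right (by omega) (by omega)
  have fr' : ∀ l (x : Vc n), ¬ Short p (p ^ h) l x → ∃ g, Frame p ((p ^ h) ^ (a + 1)) l x g :=
    fun l x hx => (hF p (p ^ h) l x (by omega) (by omega) hx).imp fun g hg => hg.mono h3
  have hjl : j ≤ t - m := by
    have : j ≤ 2 * (n + 1) ^ 2 * j := Nat.le_mul_of_pos_left j (by positivity)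
    omega
  have b := hR p j _ m t C (h1.trans h2)
    (hC.mono fun u _ x hx hu => fr' _ _ (hx hu)) hm S hS fun x hx => fr' _ _ (hs x hx).1
  have c := hW p j ((p ^ h) ^ (a + 1)) H (t - m) S hj (by omega) fun x hx =>
    ⟨fr' _ _ (hs x hx).1, (hs x hx).2.imp fun i hi => ⟨hi.1, hi.1.trans hjl, hi.2⟩⟩
  refine c.trans ((mul_le_mul_of_nonneg_left b (by positivity)).trans_eq ?_)
  push_cast
  ring

end Pool.Agent.P.MP_246241_nt.VN
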