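import Pool.Agent.P.MP_246241_nt.VN.Iface

/-! Step ZERO. -/

set_option autoImplicit false
set_option linter.unusedSectionVars false

namespace Pool.Agent.P.MP_246241_nt.VN

open Finset Matrix
open scoped Classical

namespace ZEROx

variable {D p j : ℕ} [hp : Fact p.Prime] {b c : Fin D}

/-- The shear. -/
def W (b c : Fin D) (y : AA D p j) (s : RR p j) : AA D p j := y + Pi.single b (s * y c)

theorem W_c (h : b ≠ c) (y : AA D p j) (s : RR p j) : W b c y s c = y c := by
  simp [W, Pi.single_eq_of_ne h.symm]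

theorem W_W (h : b ≠ c) (y : AA D p j) (s t : RR p j) :
    W b c (W b c y s) t = W b c y (s + t) := by
  rw [W, W_c h, W, W, add_assoc, ← Pi.single_add, add_mul]

theorem W_zero (y : AA D p j) : W b c y 0 = y := by simp [W]

theorem sum_W (h : b ≠ c) (s : RR p j) (F : AA D p j → ℝ) :
    ∑ y, F (W b c y s) = ∑ y, F y :=
  Fintype.sum_bijective (fun y => W b c y s) (Finite.injective_iff_bijective.1 fun y z e => by
    have := congrArg (fun x => W b c x (-s)) e
    simpa only [W_W h, add_neg_cancel, W_zero] using this) _ _ fun _ => rfl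

theorem expand (h : b ≠ c) (F : AA D p j → ℝ) :
    nn (fun y : AA D p j => ∑ s : RR p j, F (W b c y s)) =
      (p : ℝ) ^ j * ∑ y : AA D p j, ∑ t : RR p j, F y * F (W b c y t) := by
  have e1 : ∀ s : RR p j, ∑ y : AA D p j, ∑ t : RR p j, F (W b c y s) * F (W b c y t) =
      ∑ y : AA D p j, ∑ t : RR p j, F y * F (W b c y t) := fun s => by
    rw [← sum_W h s fun y => ∑ t : RR p j, F y * F (W b c y t)]
    refine sum_congr rfl fun y _ => ?_
    simp only [W_W h]
    exact (Equiv.sum_comp (Equiv.addLeft s) fun t => F (W b c y s) * F (W b c y t)).symm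
  simp only [nn, sq, sum_mul_sum]
  rw [sum_comm, sum_congr rfl fun s _ => e1 s, sum_const, card_univ, card_RR, nsmul_eq_mul,
    Nat.cast_pow]

theorem swap (h : b ≠ c) (P : RR p j → RR p j → ℝ) (F : AA D p j → ℝ) :
    ∑ y : AA D p j, ∑ t : RR p j, P t (y c) * F (W b c y t) =
      ∑ y : AA D p j, ∑ t : RR p j, P t (y c) * F y := by
  rw [sum_comm, sum_comm (f := fun y t => P t (y c) * F y)]
  refine sum_congr rfl fun t _ => ?_
  rw [← sum_W h t fun y => P t (y c) * F y]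
  simp only [W_c h]

theorem inv_sum (Φ : MM D p j → ℝ) : ∑ G ∈ UU D p j, Φ G⁻¹ = ∑ G ∈ UU D p j, Φ G :=
  sum_nbij' (fun G => G⁻¹) (fun G => G⁻¹)
    (fun _ hG => mem_UU.2 (isUnit_nonsing_inv_det _ (mem_UU.1 hG)))
    (fun _ hG => mem_UU.2 (isUnit_nonsing_inv_det _ (mem_UU.1 hG)))
    (fun _ hG => nonsing_inv_nonsing_inv _ (mem_UU.1 hG))
    (fun _ hG => nonsing_inv_nonsing_inv _ (mem_UU.1 hG)) fun _ _ => rfl

theorem second (P : AA D p j → ℝ) (f : AA D p j → ℝ) :
    ∑ G ∈ UU D p j, ∑ y : AA D p j, P y * f (G *ᵥ y) =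
      ∑ x : AA D p j, (∑ G ∈ UU D p j, P (G *ᵥ x)) * f x := by
  rw [← inv_sum]
  simp only [sum_mul]
  rw [sum_comm (s := univ)]
  refine sum_congr rfl fun G hG => ?_
  rw [← sum_mulVec_unit (mem_UU.1 hG)]
  refine sum_congr rfl fun x _ => ?_
  rw [mulVec_mulVec, nonsing_inv_mul _ (mem_UU.1 hG), one_mulVec]

end ZEROx

open ZEROx in
theorem p_ZERO (hEDEN : S_EDEN) (hVAN : S_VAN) :
    S_ZERO := by
  intro D p j hp k b c f hk hbc hPr hf
  have hp0 : (0 : ℝ) < p := lt_of_lt_of_le two_pos two_le'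
  by_cases hj : j ≤ 3 * k
  · have f0 : ∀ x, f x = 0 := fun x => by
      have := hf x
      rw [pow_eq_zero' hj] at this
      simp only [zero_smul, add_zero, sum_const, nsmul_eq_mul, mul_eq_zero, Nat.cast_eq_zero,
        card_univ, Fintype.card_ne_zero, false_or] at this
      exact this
    simp [nn, f0]
  have hkj : k ≤ j := by omega
  set a : RR p j := (p : RR p j) ^ k with ha
  let I : RR p j → ℝ := fun s => if a ∣ s then 1 else 0
  have I0 : ∀ s, 0 ≤ I s := fun s => by simp only [I]; split_ifs <;> norm_num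
  have key : ∀ (y : AA D p j) (t : RR p j),
      ∑ G ∈ UU D p j, f (G *ᵥ y) * f (G *ᵥ W b c y t) ≤
        ∑ G ∈ UU D p j, ((I t + I (y c)) / 2 * f (G *ᵥ y) ^ 2 +
          (I t + I (y c)) / 2 * f (G *ᵥ W b c y t) ^ 2) := fun y t => by
    by_cases h1 : a ∣ t ∨ a ∣ y c
    · have h2 : 1 ≤ I t + I (y c) := by
        have := I0 t
        have := I0 (y c)
        rcases h1 with h1 | h1
        · have : I t = 1 := if_pos h1
          linarith
        · have : I (y c) = 1 := if_pos h1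
          linarith
      refine sum_le_sum fun G _ => ?_
      nlinarith [sq_nonneg (f (G *ᵥ y) - f (G *ᵥ W b c y t)), sq_nonneg (f (G *ᵥ y)),
        sq_nonneg (f (G *ᵥ W b c y t)), mul_nonneg (sub_nonneg.2 h2) (sq_nonneg (f (G *ᵥ y))),
        mul_nonneg (sub_nonneg.2 h2) (sq_nonneg (f (G *ᵥ W b c y t)))]
    · rw [not_or] at h1
      refine (hVAN D p j k b c f y t hk hbc hf h1.1 h1.2).trans_le (sum_nonneg fun G _ => ?_)
      have := I0 t
      have := I0 (y c)
      positivity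
  have sI : (∑ t : RR p j, I t) * (p : ℝ) ^ k ≤ (p : ℝ) ^ j := by
    simp only [I, sum_boole]
    exact_mod_cast card_mult hkj
  have sU : (#(UU D p j) : ℝ) ≤ ((p : ℝ) ^ j) ^ (D * D) := by
    have := card_le_univ (UU D p j)
    rw [card_MM] at this
    exact_mod_cast this
  have s2 : ∀ x : AA D p j, (p : ℝ) ^ k * ((∑ G ∈ UU D p j, I ((G *ᵥ x) c)) * f x ^ 2) ≤
      ((p : ℝ) ^ j) ^ (D * D) * f x ^ 2 := fun x => by
    by_cases hx : Pr x
    · rw [← mul_assoc]
      refine mul_le_mul_of_nonneg_right ?_ (sq_nonneg _)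
      have h1 := (hEDEN D p j k x hkj hx).2 c
      rw [← ha] at h1
      have h2 : ∑ G ∈ UU D p j, I ((G *ᵥ x) c) ≤ ∑ G : MM D p j, I ((G *ᵥ x) c) :=
        sum_le_sum_of_subset_of_nonneg (subset_univ _) fun _ _ _ => I0 _
      refine (mul_le_mul_of_nonneg_left h2 (by positivity)).trans ?_
      simp only [I, sum_boole]
      rw [mul_comm]
      exact_mod_cast h1
    · simp [hPr x hx]
  have tot : ∑ G ∈ UU D p j, ∑ y : AA D p j, ∑ t : RR p j, f (G *ᵥ y) * f (G *ᵥ W b c y t) ≤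
      (∑ t : RR p j, I t) * (#(UU D p j) * nn f) +
        (p : ℝ) ^ j * ∑ x : AA D p j, (∑ G ∈ UU D p j, I ((G *ᵥ x) c)) * f x ^ 2 := by
    calc _ = ∑ y : AA D p j, ∑ t : RR p j, ∑ G ∈ UU D p j, f (G *ᵥ y) * f (G *ᵥ W b c y t) := by
          rw [sum_comm]
          exact sum_congr rfl fun y _ => sum_comm
      _ ≤ ∑ y : AA D p j, ∑ t : RR p j, ∑ G ∈ UU D p j, ((I t + I (y c)) / 2 * f (G *ᵥ y) ^ 2 +
          (I t + I (y c)) / 2 * f (G *ᵥ W b c y t) ^ 2) :=
          sum_le_sum fun y _ => sum_le_sum fun t _ => key y t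
      _ = ∑ G ∈ UU D p j, ∑ y : AA D p j, ∑ t : RR p j, ((I t + I (y c)) / 2 * f (G *ᵥ y) ^ 2 +
          (I t + I (y c)) / 2 * f (G *ᵥ W b c y t) ^ 2) := by
          rw [sum_comm (s := UU D p j)]
          exact sum_congr rfl fun y _ => sum_comm
      _ = ∑ G ∈ UU D p j, ((∑ t : RR p j, I t) * nn f +
          (p : ℝ) ^ j * ∑ y : AA D p j, I (y c) * f (G *ᵥ y) ^ 2) := by
          refine sum_congr rfl fun G hG => ?_
          simp only [sum_add_distrib]
          rw [swap hbc (fun t u => (I t + I u) / 2) fun y => f (G *ᵥ y) ^ 2, nn,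
            ← sum_mulVec_unit (mem_UU.1 hG) fun y => f y ^ 2, mul_sum, mul_sum,
            ← sum_add_distrib, ← sum_add_distrib]
          refine sum_congr rfl fun y _ => ?_
          rw [← sum_mul, ← sum_div, sum_add_distrib, sum_const, card_univ, card_RR, nsmul_eq_mul,
            Nat.cast_pow]
          ring
      _ = _ := by
          rw [sum_add_distrib, sum_const, nsmul_eq_mul, ← mul_sum,
            second (fun y => I (y c)) fun x => f x ^ 2]
          ring
  have e : ∑ G ∈ UU D p j,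
      nn (fun y : AA D p j => ∑ s : RR p j, f (G *ᵥ (y + Pi.single b (s * y c)))) =
      (p : ℝ) ^ j * ∑ G ∈ UU D p j, ∑ y : AA D p j, ∑ t : RR p j,
        f (G *ᵥ y) * f (G *ᵥ W b c y t) := by
    rw [mul_sum]
    exact sum_congr rfl fun G _ => expand hbc fun y => f (G *ᵥ y)
  have n0 := nn_nonneg f
  have t1 : (p : ℝ) ^ k * ((∑ t : RR p j, I t) * (#(UU D p j) * nn f)) ≤
      (p : ℝ) ^ j * (((p : ℝ) ^ j) ^ (D * D) * nn f) := by
    rw [← mul_assoc, mul_comm ((p : ℝ) ^ k)]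
    exact mul_le_mul sI (mul_le_mul_of_nonneg_right sU n0) (by positivity) (by positivity)
  have t2 : (p : ℝ) ^ k * ∑ x : AA D p j, (∑ G ∈ UU D p j, I ((G *ᵥ x) c)) * f x ^ 2 ≤
      ((p : ℝ) ^ j) ^ (D * D) * nn f := by
    rw [nn, mul_sum, mul_sum]
    exact sum_le_sum fun x _ => s2 x
  rw [e]
  have t3 := mul_le_mul_of_nonneg_left tot (show (0 : ℝ) ≤ (p : ℝ) ^ k by positivity)
  have t4 := mul_le_mul_of_nonneg_left t2 (show (0 : ℝ) ≤ (p : ℝ) ^ j by positivity)
  have t5 : (p : ℝ) ^ k * ∑ G ∈ UU D p j, ∑ y : AA D p j, ∑ t : RR p j,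
      f (G *ᵥ y) * f (G *ᵥ W b c y t) ≤ 2 * ((p : ℝ) ^ j * (((p : ℝ) ^ j) ^ (D * D) * nn f)) := by
    nlinarith [t1, t3, t4]
  have t6 := mul_le_mul_of_nonneg_left t5 (show (0 : ℝ) ≤ (p : ℝ) ^ j by positivity)
  nlinarith [t6]

end Pool.Agent.P.MP_246241_nt.VN
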