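import Pool.Agent.P.MP_246241_nt.VN.Iface

/-! Step ZL. -/

set_option autoImplicit false
set_option linter.unusedSectionVars false

namespace Pool.Agent.P.MP_246241_nt.VN

open Finset Matrix
open scoped Classical

namespace ZLx

theorem sum_unit {p j Q : ℕ} [hp : Fact p.Prime] (h : Q.Coprime p) (φ : RR p j → ℝ) :
    ∑ s ∈ range (p ^ j), φ ((Q * s : ℕ) : RR p j) = ∑ s : RR p j, φ s := by
  have : NeZero (p ^ j) := ⟨pow_ne_zero _ hp.out.ne_zero⟩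
  have hu : IsUnit (Q : RR p j) := (ZMod.isUnit_iff_coprime Q (p ^ j)).2 (h.pow_right j)
  rw [← Fintype.sum_bijective (fun s : RR p j => (Q : RR p j) * s)
    (Finite.injective_iff_bijective.1 hu.mul_right_injective) (fun s => φ (Q * s)) φ fun _ => rfl]
  refine sum_nbij' (fun s => (s : RR p j)) (fun s => s.val) (fun _ _ => mem_univ _)
    (fun s _ => mem_range.2 (ZMod.val_lt s)) (fun s hs => ZMod.val_cast_of_lt (mem_range.1 hs))
    (fun s _ => ZMod.natCast_zmod_val s) fun s _ => ?_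
  rw [Nat.cast_mul]

end ZLx

theorem p_ZL (hREL : S_REL) (hNL : S_NL) (hFIBR : S_FIBR) (hZERO : S_ZERO) :
    S_ZL := by
  intro k Q p j _ hp κ Δ N f μ hQ hκ hN hμ h0 h1
  have hμ0 : 0 ≤ μ := (Nat.cast_nonneg _).trans (hμ ∅)
  have hp0 : (0 : ℝ) < p := by exact_mod_cast hp.out.pos
  set Ψ : MM (k + 3) p j → AA (k + 3) p j → ℝ := fun G y =>
    ∑ s : RR p j, f (G *ᵥ (y + Pi.single 1 (s * y 2))) with hΨ
  have e : (fun z : ZZ (k + 3) Q p j => ∑ s ∈ range (p ^ j),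
      lift Q (box p N Δ) f (sg (k + 3) Q p j (ta k 0 (Q * s : ℕ)) z)) =
      fun z => ∑ g ∈ fib Q (box p N Δ) z.1, Ψ (rd (RR p j) g) z.2 := by
    funext z
    simp only [((hREL k).2.2.2 Q p j).2.2, lift]
    rw [sum_comm]
    refine sum_congr rfl fun g _ => ?_
    have a := ZLx.sum_unit (j := j) hQ
      fun s => f (rd (RR p j) g *ᵥ (z.2 + Pi.single 1 (s * z.2 2)))
    beta_reduce at a
    rw [a]
  have a1 := hNL (k + 3) Q (AA (k + 3) p j) (box p N Δ) (fun g => Ψ (rd (RR p j) g)) μ hμ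
  have a2 := hFIBR (k + 3) p j N Δ (fun G => nn (Ψ G)) (fun _ => nn_nonneg _) hN
  have a3 := hZERO (k + 3) p j κ 1 2 f hκ (ne12 k) h0 h1
  rw [e]
  set W : ℝ := ((p : ℝ) ^ j) ^ ((k + 3) * (k + 3)) with hW
  have hW0 : 0 < W := by positivity
  set V : ℝ := ((∏ c, 3 * N c : ℕ) : ℝ) ^ (k + 3) with hV
  have hV0 : 0 ≤ V := by positivity
  have hκ0 : (0 : ℝ) ≤ (p : ℝ) ^ κ := by positivity
  refine (mul_le_mul_of_nonneg_left a1 hκ0).trans (le_of_mul_le_mul_left ?_ hW0)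
  calc W * ((p : ℝ) ^ κ * (μ * ∑ g ∈ box p N Δ, nn (Ψ (rd (RR p j) g))))
      = μ * (p : ℝ) ^ κ * (W * ∑ g ∈ box p N Δ, nn (Ψ (rd (RR p j) g))) := by ring
    _ ≤ μ * (p : ℝ) ^ κ * (V * ∑ G ∈ UU (k + 3) p j, nn (Ψ G)) :=
        mul_le_mul_of_nonneg_left a2 (by positivity)
    _ = μ * V * ((p : ℝ) ^ κ * ∑ G ∈ UU (k + 3) p j, nn (Ψ G)) := by ring
    _ ≤ μ * V * (2 * ((p : ℝ) ^ j) ^ 2 * W * nn f) :=
        mul_le_mul_of_nonneg_left a3 (by positivity)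
    _ = _ := by ring

end Pool.Agent.P.MP_246241_nt.VN
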