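import Pool.Agent.P.MP_246241_nt.VN.TSPEC
import Pool.Agent.P.MP_246241_nt.VN.TDIR
import Pool.Agent.P.MP_246241_nt.VN.TSCAL
import Pool.Agent.P.MP_246241_nt.VN.TCONE
import Pool.Agent.P.MP_246241_nt.VN.TEDEN
import Pool.Agent.P.MP_246241_nt.VN.TVAN
import Pool.Agent.P.MP_246241_nt.VN.TZERO
import Pool.Agent.P.MP_246241_nt.VN.TFIBR
import Pool.Agent.P.MP_246241_nt.VN.TLOW
import Pool.Agent.P.MP_246241_nt.VN.TKA
import Pool.Agent.P.MP_246241_nt.VN.TINV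
import Pool.Agent.P.MP_246241_nt.VN.TKB
import Pool.Agent.P.MP_246241_nt.VN.TKLOW
import Pool.Agent.P.MP_246241_nt.VN.TSAME
import Pool.Agent.P.MP_246241_nt.VN.TMU
import Pool.Agent.P.MP_246241_nt.VN.TNL
import Pool.Agent.P.MP_246241_nt.VN.TLIFT
import Pool.Agent.P.MP_246241_nt.VN.TUNF
import Pool.Agent.P.MP_246241_nt.VN.TREL
import Pool.Agent.P.MP_246241_nt.VN.TABS
import Pool.Agent.P.MP_246241_nt.VN.TZL
import Pool.Agent.P.MP_246241_nt.VN.TPAIR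
import Pool.Agent.P.MP_246241_nt.VN.TGAP
import Pool.Agent.P.MP_246241_nt.VN.TSHELL
import Pool.Agent.P.MP_246241_nt.VN.TFFB
import Pool.Agent.P.MP_246241_nt.VN.TDOM
import Pool.Agent.P.MP_246241_nt.VN.TVEC
import Pool.Agent.P.MP_246241_nt.VN.TESET
import Pool.Agent.P.MP_246241_nt.VN.TWIN
import Pool.Agent.P.MP_246241_nt.VN.THYP
import Pool.Agent.P.MP_246241_nt.VN.TSLAB
import Pool.Agent.P.MP_246241_nt.VN.TPT
import Pool.Agent.P.MP_246241_nt.VN.TCRU1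
import Pool.Agent.P.MP_246241_nt.VN.TCRU
import Pool.Agent.P.MP_246241_nt.VN.TBLK
import Pool.Agent.P.MP_246241_nt.VN.TREC
import Pool.Agent.P.MP_246241_nt.VN.TWK
import Pool.Agent.P.MP_246241_nt.VN.TCOV
import Pool.Agent.P.MP_246241_nt.VN.TCORE
import Pool.Agent.P.MP_246241_nt.VN.TBUILD
import Pool.Agent.P.MP_246241_nt.VN.TLIM
import Pool.Agent.P.MP_246241_nt.VN.TFIN
import Pool.Agent.P.MP_246241_nt.VN.TLEV
import Pool.Agent.P.MP_246241_nt.VN.TDIM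
import Pool.Agent.P.MP_246241_nt.VN.TONE
import Pool.Agent.P.MP_246241_nt.EK.TQUOT
import Pool.Agent.P.MP_246241_nt.EK.TFRAME
import Pool.Agent.P.MP_246241_nt.EK.TBOX
import Pool.Agent.P.MP_246241_nt.EK.TMULT

/-! Assembly. -/

set_option autoImplicit false

namespace Pool.Agent.P.MP_246241_nt.VN

theorem f_SPEC : S_SPEC := p_SPEC
theorem f_DIR : S_DIR := p_DIR
theorem f_SCAL : S_SCAL := p_SCAL
theorem f_CONE : S_CONE := p_CONE f_SPEC f_DIR f_SCAL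
theorem f_EDEN : S_EDEN := p_EDEN
theorem f_VAN : S_VAN := p_VAN
theorem f_ZERO : S_ZERO := p_ZERO f_EDEN f_VAN
theorem f_FIBR : S_FIBR := p_FIBR
theorem f_LOW : S_LOW := p_LOW
theorem f_KA : S_KA := p_KA
theorem f_INV : S_INV := p_INV
theorem f_KB : S_KB := p_KB f_KA f_INV
theorem f_KLOW : S_KLOW := p_KLOW f_INV f_KB
theorem f_SAME : S_SAME := p_SAME
theorem f_MU : S_MU := p_MU f_SAME EK.p_BOX
theorem f_NL : S_NL := p_NL
theorem f_LIFT : S_LIFT := p_LIFT f_NL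
theorem f_UNF : S_UNF := p_UNF
theorem f_REL : S_REL := p_REL
theorem f_ABS : S_ABS := p_ABS
theorem f_ZL : S_ZL := p_ZL f_REL f_NL f_FIBR f_ZERO
theorem f_PAIR : S_PAIR := p_PAIR f_CONE f_REL f_ABS f_LIFT f_ZL f_LOW
theorem f_GAP : S_GAP := p_GAP f_UNF f_PAIR f_KLOW f_MU
theorem f_SHELL : S_SHELL := p_SHELL
theorem f_FFB : S_FFB := p_FFB
theorem f_DOM : S_DOM := p_DOM f_SHELL (EK.p_MULT EK.p_QUOT)
theorem f_VEC : S_VEC := p_VEC EK.p_QUOT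
theorem f_ESET : S_ESET := p_ESET f_EDEN
theorem f_WIN : S_WIN := p_WIN f_VEC f_ESET f_FFB
theorem f_HYP : S_HYP := p_HYP
theorem f_SLAB : S_SLAB := p_SLAB
theorem f_PT : S_PT := p_PT
theorem f_CRU1 : S_CRU1 := p_CRU1 f_HYP f_SLAB f_PT
theorem f_CRU : S_CRU := p_CRU f_CRU1
theorem f_BLK : S_BLK := p_BLK f_GAP f_DOM f_FFB
theorem f_REC : S_REC := p_REC f_BLK f_FFB
theorem f_WK : S_WK := p_WK f_REC f_WIN EK.p_FRAME
theorem f_COV : S_COV := p_COV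
theorem f_CORE : S_CORE := p_CORE f_COV f_CRU f_WK
theorem f_BUILD : S_BUILD := p_BUILD
theorem f_LIM : S_LIM := p_LIM
theorem f_FIN : S_FIN := p_FIN
theorem f_LEV : S_LEV := p_LEV
theorem f_DIM : S_DIM := p_DIM f_LEV
theorem f_ONE : S_ONE := p_ONE

theorem final (n p : ℕ) (hn : 1 ≤ n) (hp : p.Prime) : dimH (Mad n p) = n :=
  assemble f_CORE f_BUILD f_LIM f_FIN f_DIM f_ONE n p hn hp

end Pool.Agent.P.MP_246241_nt.VN
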