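import Pool.Agent.P.MP_246241_nt.BV.Base
import Pool.Agent.P.MP_246241_nt.EK.If

/-! Definitions and small tools. -/

set_option autoImplicit false
set_option linter.unusedSectionVars false

namespace Pool.Agent.P.MP_246241_nt.VN

export BV (ip nn nn_eq nn_nonneg ip_comm ip_sq_le nn_add nn_mono nn_mul RR two_le two_le' card_RR
  pow_eq_zero' unit_one_add unit_or_dvd dvd_or_dvd int_dvd_iff card_mult)
export EK (Vc Mt Gl Bd Tm Short Frame col fr pre vecMul_Tm_zero vecMul_Tm_succ mul_Tm_zero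
  mul_Tm_succ det_Tm det_frame col_mul fr_spec pre_pre pre_zero det_unit)

open Finset Matrix
open scoped Classical

/-! ### Determinants and reductions -/

theorem det_le_prod {R : Type} [CommRing R] [LinearOrder R] [IsStrictOrderedRing R] {D : ℕ}
    (M : Matrix (Fin D) (Fin D) R) (N : Fin D → R) (h : ∀ i c, |M i c| ≤ N c) :
    |M.det| ≤ D.factorial * ∏ c, N c := by
  rw [det_apply']
  refine (abs_sum_le_sum_abs _ _).trans ((sum_le_card_nsmul _ _ (∏ c, N c) fun σ _ => ?_).trans_eq ?_)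
  · rw [abs_mul, abs_prod]
    rcases Int.units_eq_one_or (Equiv.Perm.sign σ) with e | e <;>
      simpa [e] using prod_le_prod (fun _ _ => abs_nonneg _) fun c _ => h (σ c) c
  · simp [Fintype.card_perm]

/-- Reduction of an integer matrix. -/
def rd {D : ℕ} (R : Type) [CommRing R] : Mt D →+* Matrix (Fin D) (Fin D) R :=
  (Int.castRingHom R).mapMatrix
/-- Reduction of an integer vector. -/
def rv {D : ℕ} (R : Type) [CommRing R] (v : Vc D) : Fin D → R := fun i => (v i : R)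

section red
variable {D : ℕ} {R : Type} [CommRing R]

@[simp] theorem rd_apply (g : Mt D) (i c : Fin D) : rd R g i c = (g i c : R) := rfl
@[simp] theorem rv_apply (v : Vc D) (i : Fin D) : rv R v i = (v i : R) := rfl
theorem det_rd (g : Mt D) : (rd R g).det = (g.det : R) := ((Int.castRingHom R).map_det g).symm
theorem rv_mulVec (g : Mt D) (v : Vc D) : rv R (g *ᵥ v) = rd R g *ᵥ rv R v := by
  ext i; simp [mulVec, dotProduct]
theorem rv_vecMul (g : Mt D) (v : Vc D) : rv R (v ᵥ* g) = rv R v ᵥ* rd R g := by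
  ext i; simp [vecMul, dotProduct]
theorem rv_dot (u v : Vc D) : rv R u ⬝ᵥ rv R v = ((u ⬝ᵥ v : ℤ) : R) := by simp [dotProduct]
theorem rd_mul_inv (g : Gl D) : rd R (g : Mt D) * rd R ((g⁻¹ : Gl D) : Mt D) = 1 := by
  rw [← map_mul, Units.mul_inv, map_one]
theorem rd_inv_mul (g : Gl D) : rd R ((g⁻¹ : Gl D) : Mt D) * rd R (g : Mt D) = 1 := by
  rw [← map_mul, Units.inv_mul, map_one]

end red

/-- Vectors modulo `p ^ j`. -/
abbrev AA (D p j : ℕ) : Type := Fin D → RR p j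
/-- Matrices modulo `p ^ j`. -/
abbrev MM (D p j : ℕ) : Type := Matrix (Fin D) (Fin D) (RR p j)
/-- Primitive vectors. -/
def Pr {D p j : ℕ} (x : AA D p j) : Prop := ∃ c, IsUnit (x c)
/-- The invertible matrices. -/
noncomputable def UU (D p j : ℕ) [Fact p.Prime] : Finset (MM D p j) := {G | IsUnit G.det}

section res
variable {D p j : ℕ} [hp : Fact p.Prime]

theorem mem_UU {G : MM D p j} : G ∈ UU D p j ↔ IsUnit G.det := by simp [UU]
theorem card_AA : Fintype.card (AA D p j) = (p ^ j) ^ D := by simp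
theorem card_MM : Fintype.card (MM D p j) = (p ^ j) ^ (D * D) := by
  rw [show Fintype.card (MM D p j) = Fintype.card (Fin D → AA D p j) from
    Fintype.card_congr Matrix.of.symm, Fintype.card_fun, card_AA, Fintype.card_fin, ← pow_mul]
theorem unit_int {x : ℤ} (h : ¬ (p : ℤ) ∣ x) : IsUnit (x : RR p j) := by
  obtain ⟨a, b, e⟩ : IsCoprime ((p : ℤ) ^ j) x :=
    ((Nat.prime_iff_prime_int.1 hp.out).coprime_iff_not_dvd.2 h).pow_left
  have := congrArg (Int.cast : ℤ → RR p j) e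
  push_cast at this
  rw [pow_eq_zero' le_rfl, mul_zero, zero_add] at this
  exact IsUnit.of_mul_eq_one_right _ this
theorem rd_mem_UU {g : Mt D} (h : ¬ (p : ℤ) ∣ g.det) : rd (RR p j) g ∈ UU D p j :=
  mem_UU.2 (by rw [det_rd]; exact unit_int h)
/-- An invertible matrix permutes the vectors. -/
theorem sum_mulVec_unit {G : MM D p j} (h : IsUnit G.det) (f : AA D p j → ℝ) :
    ∑ y, f (G *ᵥ y) = ∑ y, f y :=
  Fintype.sum_bijective (G *ᵥ ·) (mulVec_injective_iff_isUnit_aux h) _ _ fun _ => rfl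
where
  mulVec_injective_iff_isUnit_aux {G : MM D p j} (h : IsUnit G.det) :
      Function.Bijective (G *ᵥ ·) :=
    Finite.injective_iff_bijective.1 (mulVec_injective_of_isUnit ((isUnit_iff_isUnit_det G).2 h))

end res

/-! ### The finite model -/

/-- The integer matrices in a box. -/
noncomputable def box {D : ℕ} (p : ℕ) (N : Fin D → ℕ) (Δ : ℕ) : Finset (Mt D) :=
  (Fintype.piFinset fun _ : Fin D => Fintype.piFinset fun c => Icc (-(N c : ℤ)) (N c) :
    Finset (Fin D → Fin D → ℤ)).filter fun g : Mt D => ¬ (p : ℤ) ∣ g.det ∧ (Δ : ℤ) ≤ 2 * |g.det|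

theorem mem_box {D p Δ : ℕ} {N : Fin D → ℕ} {g : Mt D} : g ∈ box p N Δ ↔
    (∀ i c, |g i c| ≤ N c) ∧ ¬ (p : ℤ) ∣ g.det ∧ (Δ : ℤ) ≤ 2 * |g.det| := by
  refine mem_filter.trans (and_congr_left' (Fintype.mem_piFinset.trans ?_))
  exact forall_congr' fun i => Fintype.mem_piFinset.trans
    (forall_congr' fun c => mem_Icc.trans abs_le.symm)

theorem card_box {D : ℕ} (p Δ : ℕ) {N : Fin D → ℕ} (h : ∀ c, 1 ≤ N c) :
    #(box p N Δ) ≤ (∏ c, 3 * N c) ^ D := by
  refine (card_filter_le _ _).trans ((Fintype.card_piFinset _).trans_le ?_)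
  simp only [Fintype.card_piFinset, Int.card_Icc, prod_const, card_univ, Fintype.card_fin]
  exact Nat.pow_le_pow_left (prod_le_prod' fun c _ => by have := h c; omega) _

/-- The points of the model. -/
abbrev ZZ (D Q p j : ℕ) : Type := Set (Fin D → ZMod Q) × AA D p j
/-- The row lattice modulo `Q`. -/
def rowL {D : ℕ} (Q : ℕ) (g : Mt D) : Set (Fin D → ZMod Q) :=
  Set.range fun ρ => ρ ᵥ* rd (ZMod Q) g
/-- The matrices with a given row lattice. -/
noncomputable def fib {D : ℕ} (Q : ℕ) (B : Finset (Mt D)) (L : Set (Fin D → ZMod Q)) :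
    Finset (Mt D) := {g ∈ B | rowL Q g = L}
theorem mem_fib {D Q : ℕ} {B : Finset (Mt D)} {L : Set (Fin D → ZMod Q)} {g : Mt D} :
    g ∈ fib Q B L ↔ g ∈ B ∧ rowL Q g = L := mem_filter
/-- The lift of a function. -/
noncomputable def lift {D p j : ℕ} (Q : ℕ) (B : Finset (Mt D)) (F : AA D p j → ℝ)
    (z : ZZ D Q p j) : ℝ := ∑ g ∈ fib Q B z.1, F (rd (RR p j) g *ᵥ z.2)
/-- The action on the model. -/
def sg (D Q p j : ℕ) : Gl D →* Equiv.Perm (ZZ D Q p j) := MonoidHom.toHomPerm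
  { toFun := fun h z => ((· ᵥ* rd (ZMod Q) (h : Mt D)) ⁻¹' z.1, rd (RR p j) (h : Mt D) *ᵥ z.2)
    map_one' := funext fun z => by simp [Function.End.one_def]
    map_mul' := fun g h => funext fun z => by
      simp only [Function.End.mul_def, Function.comp, Units.val_mul, map_mul, mulVec_mulVec,
        ← Set.preimage_comp, vecMul_vecMul, Function.comp_def] }

section model
variable {D Q p j : ℕ}

theorem sg_apply (h : Gl D) (z : ZZ D Q p j) : sg D Q p j h z =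
    ((· ᵥ* rd (ZMod Q) (h : Mt D)) ⁻¹' z.1, rd (RR p j) (h : Mt D) *ᵥ z.2) := rfl
theorem rowL_left (γ : Gl D) (g : Mt D) : rowL Q ((γ : Mt D) * g) = rowL Q g := by
  ext v
  refine ⟨fun ⟨ρ, e⟩ => ⟨ρ ᵥ* rd _ (γ : Mt D), ?_⟩,
    fun ⟨ρ, e⟩ => ⟨ρ ᵥ* rd _ ((γ⁻¹ : Gl D) : Mt D), ?_⟩⟩
  · simpa only [vecMul_vecMul, map_mul] using e
  · simpa only [vecMul_vecMul, map_mul, ← mul_assoc, rd_inv_mul, one_mul] using e
theorem rowL_right (h : Gl D) (g : Mt D) : rowL Q (g * ((h⁻¹ : Gl D) : Mt D)) =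
    (· ᵥ* rd (ZMod Q) (h : Mt D)) ⁻¹' rowL Q g := by
  ext v
  refine ⟨fun ⟨ρ, e⟩ => ⟨ρ, ?_⟩, fun ⟨ρ, e⟩ => ⟨ρ, ?_⟩⟩
  · simp only [← e, vecMul_vecMul, map_mul, mul_assoc, rd_inv_mul, mul_one]
  · simp only [map_mul, ← vecMul_vecMul] at e ⊢
    rw [e, vecMul_vecMul, rd_mul_inv, vecMul_one]
theorem lift_nonneg (B : Finset (Mt D)) {F : AA D p j → ℝ} (h : ∀ x, 0 ≤ F x) (z : ZZ D Q p j) :
    0 ≤ lift Q B F z := sum_nonneg fun _ _ => h _
theorem lift_add (B : Finset (Mt D)) (F G : AA D p j → ℝ) (z : ZZ D Q p j) :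
    lift Q B (F + G) z = lift Q B F z + lift Q B G z := sum_add_distrib
theorem lift_le {B B' : Finset (Mt D)} {F : AA D p j → ℝ} (hF : ∀ x, 0 ≤ F x) (h : Gl D)
    (hB : ∀ g ∈ B, g * ((h⁻¹ : Gl D) : Mt D) ∈ B') (z : ZZ D Q p j) :
    lift Q B F z ≤ lift Q B' F (sg D Q p j h z) := by
  have i : Function.Injective fun g : Mt D => g * ((h⁻¹ : Gl D) : Mt D) :=
    fun _ _ e => (Units.mul_left_inj h⁻¹).1 e
  have e : ∀ g : Mt D, rd (RR p j) (g * ((h⁻¹ : Gl D) : Mt D)) *ᵥ (sg D Q p j h z).2 =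
      rd (RR p j) g *ᵥ z.2 := fun g => by
    rw [sg_apply, mulVec_mulVec, map_mul, mul_assoc, rd_inv_mul, mul_one]
  rw [lift, lift, ← sum_congr rfl fun g _ => congrArg F (e g),
    ← sum_image (f := fun g => F (rd (RR p j) g *ᵥ (sg D Q p j h z).2)) i.injOn]
  refine sum_le_sum_of_subset_of_nonneg (fun g hg => ?_) fun _ _ _ => hF _
  obtain ⟨g, h1, rfl⟩ := mem_image.1 hg
  exact mem_fib.2 ⟨hB g (mem_fib.1 h1).1, by rw [rowL_right, (mem_fib.1 h1).2]; rfl⟩

end model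

theorem exists_modulus {p : ℕ} (hp : p.Prime) (T : ℕ) :
    ∃ Q : ℕ, Q ≠ 0 ∧ Q.Coprime p ∧ ∀ k ≤ T, ¬ p ∣ k → k ∣ Q :=
  ⟨∏ k ∈ range (T + 1) with ¬ p ∣ k, k,
    prod_ne_zero_iff.2 fun _ hk e => (mem_filter.1 hk).2 (e ▸ dvd_zero p),
    Nat.Coprime.prod_left fun _ hk => (hp.coprime_iff_not_dvd.2 (mem_filter.1 hk).2).symm,
    fun _ h1 h2 => dvd_prod_of_mem _ (mem_filter.2 ⟨mem_range.2 (Nat.lt_succ_of_le h1), h2⟩)⟩

/-- Elementary matrices. -/
def tv {D : ℕ} (a b : Fin D) (h : a ≠ b) (c : ℤ) : Gl D :=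
  ⟨transvection a b c, transvection a b (-c),
    by rw [transvection_mul_transvection_same _ _ h, add_neg_cancel, transvection_zero],
    by rw [transvection_mul_transvection_same _ _ h, neg_add_cancel, transvection_zero]⟩

section tv
variable {D : ℕ} {a b : Fin D} (h : a ≠ b)

theorem tv_val (c : ℤ) : (tv a b h c : Mt D) = transvection a b c := rfl
theorem tv_mul (c d : ℤ) : tv a b h c * tv a b h d = tv a b h (c + d) :=
  Units.ext (transvection_mul_transvection_same _ _ h c d)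
theorem tv_zero : tv a b h 0 = 1 := Units.ext (transvection_zero _ _)
theorem tv_inv (c : ℤ) : (tv a b h c)⁻¹ = tv a b h (-c) :=
  inv_eq_of_mul_eq_one_right (by rw [tv_mul, add_neg_cancel, tv_zero])
theorem tv_pow (c : ℤ) (m : ℕ) : tv a b h c ^ m = tv a b h (m * c) := by
  induction m with
  | zero => simp [tv_zero]
  | succ m ih => rw [pow_succ, ih, tv_mul]; congr 1; push_cast; ring

end tv

theorem ne01 (k : ℕ) : (0 : Fin (k + 3)) ≠ 1 := by simp
theorem ne02 (k : ℕ) : (0 : Fin (k + 3)) ≠ 2 := Fin.ne_of_val_ne (show 0 ≠ 2 by omega)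
theorem ne12 (k : ℕ) : (1 : Fin (k + 3)) ≠ 2 := Fin.ne_of_val_ne (show 1 ≠ 2 by omega)
/-- The first shear. -/
def al (k : ℕ) : Gl (k + 3) := tv 0 1 (ne01 k) (-1)
/-- The second shear. -/
def be (k : ℕ) : Gl (k + 3) := tv 1 0 (ne01 k).symm (-1)
/-- The translations. -/
def ta (k : ℕ) (a b : ℤ) : Gl (k + 3) := tv 0 2 (ne02 k) a * tv 1 2 (ne12 k) b

/-- A witness for the shell. -/
def ShW {n : ℕ} (C lam : ℕ) (γ : Mt (n + 1)) (w : Matrix (Fin (n + 1)) (Fin (n + 1)) ℝ) : Prop :=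
  1 ≤ |w.det| ∧ (∀ i c, |w i c| ≤ C) ∧ (∀ i, |(rd ℝ γ * w) i 0| ≤ C * (lam : ℝ) ^ n) ∧
    ∀ (i : Fin (n + 1)) (c : Fin n), |(rd ℝ γ * w) i c.succ| * lam ≤ C
/-- The shell. -/
def Shell {n : ℕ} (C lam : ℕ) (γ : Gl (n + 1)) : Prop := ∃ w, ShW C lam (γ : Mt (n + 1)) w

/-! ### Strings of digits -/

section digits
variable {n : ℕ}

theorem short_le {p H l : ℕ} {a : Vc n} (hp : 0 < p) (h : Short p H l a) : H ≤ p ^ (n * l) := by
  obtain ⟨w, h0, h1⟩ := h
  obtain ⟨c, hc⟩ : ∃ c, (w ᵥ* Tm p l a) c ≠ 0 := by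
    by_contra h2
    push Not at h2
    have e0 : w 0 = 0 := by rw [← vecMul_Tm_zero p l a w, h2]
    refine h0 (funext fun c => Fin.cases e0 (fun i => ?_) c)
    have := h2 i.succ
    rw [vecMul_Tm_succ, e0, zero_mul, zero_sub, neg_eq_zero] at this
    exact (mul_eq_zero.1 this).resolve_left (by positivity)
  have := (le_mul_of_one_le_right (Nat.cast_nonneg H)
    (one_le_pow₀ (Int.one_le_abs hc))).trans (h1 c)
  exact_mod_cast this

/-- The distribution of the first columns of the frames. -/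
noncomputable def FF (p j B l : ℕ) (S : Finset (Vc n)) (x : AA (n + 1) p j) : ℝ :=
  #{a ∈ S | rv (RR p j) (col (fr p B l a)) = x}

theorem FF_nonneg (p j B l : ℕ) (S : Finset (Vc n)) (x : AA (n + 1) p j) : 0 ≤ FF p j B l S x :=
  Nat.cast_nonneg _

/-- The loss in one step. -/
noncomputable def ls (n : ℕ) : ℝ := 1 + 1 / (16 * (n + 1))

theorem one_le_ls (n : ℕ) : 1 ≤ ls n := le_add_of_nonneg_right (by positivity)
theorem ls_pow (n : ℕ) : ls n ^ (4 * (n + 1)) ≤ 4 / 3 := by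
  have h : (0 : ℝ) < 16 * (n + 1) := by positivity
  have h1 : ls n ≤ Real.exp (1 / (16 * (n + 1))) := by rw [ls, add_comm]; exact Real.add_one_le_exp _
  refine (pow_le_pow_left₀ (by linarith [one_le_ls n]) h1 _).trans ?_
  rw [← Real.exp_nat_mul, show ((4 * (n + 1) : ℕ) : ℝ) * (1 / (16 * (n + 1))) = 1 / 4 by
    push_cast; field_simp; norm_num]
  have h2 := Real.add_one_le_exp (-(1 / 4) : ℝ)
  rw [Real.exp_neg, le_inv_comm₀ (by norm_num) (Real.exp_pos _)] at h2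
  exact h2.trans (by norm_num)

/-- A chain of sets of strings. -/
def Chain (p : ℕ) (good : ℕ → Vc n → Prop) (C : ℕ → Finset (Vc n)) (t : ℕ) : Prop :=
  ∀ u < t, (∀ a ∈ C (u + 1), pre p 1 a ∈ C u ∧ good u (pre p 1 a)) ∧
    (p : ℝ) ^ n * #(C u) ≤ ls n * #(C (u + 1))

theorem Chain.mono {p t : ℕ} {good good' : ℕ → Vc n → Prop} {C : ℕ → Finset (Vc n)}
    (h : Chain p good C t) (hg : ∀ u < t, ∀ a, good u a → good' u a) : Chain p good' C t :=
  fun u hu => ⟨fun a ha => ((h u hu).1 a ha).imp id (hg u hu _), (h u hu).2⟩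

theorem Chain.anc {p t : ℕ} {good : ℕ → Vc n → Prop} {C : ℕ → Finset (Vc n)}
    (h : Chain p good C t) (u b : ℕ) (hb : u + (b + 1) ≤ t) :
    ∀ a ∈ C (u + (b + 1)), pre p (b + 1) a ∈ C u ∧ good u (pre p (b + 1) a) := by
  induction b with
  | zero => exact (h u (by omega)).1
  | succ b ih =>
    intro a ha
    rw [add_comm (b + 1) 1, ← pre_pre]
    exact ih (by omega) _ ((h (u + (b + 1)) (by omega)).1 a ha).1

theorem Chain.grow {p t : ℕ} {good : ℕ → Vc n → Prop} {C : ℕ → Finset (Vc n)}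
    (h : Chain p good C t) (u b : ℕ) (hb : u + b ≤ t) :
    (p : ℝ) ^ (n * b) * #(C u) ≤ ls n ^ b * #(C (u + b)) := by
  have := one_le_ls n
  induction b with
  | zero => simp
  | succ b ih =>
    calc _ = (p : ℝ) ^ n * ((p : ℝ) ^ (n * b) * #(C u)) := by ring
      _ ≤ (p : ℝ) ^ n * (ls n ^ b * #(C (u + b))) :=
          mul_le_mul_of_nonneg_left (ih (by omega)) (by positivity)
      _ = ls n ^ b * ((p : ℝ) ^ n * #(C (u + b))) := by ring
      _ ≤ ls n ^ b * (ls n * #(C (u + b + 1))) :=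
          mul_le_mul_of_nonneg_left (h (u + b) (by omega)).2 (by positivity)
      _ = _ := by rw [add_assoc]; ring

/-- No short vector for the level that starts at time `m`. -/
def lev (p H m u : ℕ) (a : Vc n) : Prop := m ≤ u → ¬ Short p H (u - m) a
/-- A frame for the level that starts at time `m`. -/
def frm (p B m u : ℕ) (a : Vc n) : Prop := m ≤ u → ∃ g, Frame p B (u - m) a g

/-- The base levels of scale `s` that are active at time `t`. -/
def II (κ Λ t s : ℕ) : Finset ℕ :=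
  {m ∈ range (t + 1) | Λ ^ s ∣ m ∧ t - m ≤ (κ + 1) * Λ ^ (s + 1)}

/-- The threshold for the base levels of scale `s` at time `t`. -/
def th (p w Λ η t s : ℕ) : ℕ := p ^ (w * (η + (Nat.log Λ (t + 1) - s)))

/-- The rule. -/
def good (p w κ Λ η c t : ℕ) (a : Vc n) : Prop :=
  (∀ l ≤ t, ¬ Short p (c * (t + 1)) l a) ∧
    ∀ s, ∀ m ∈ II κ Λ t s, ¬ Short p (th p w Λ η t s) (t - m) a

end digits

/-- The set of the theorem. -/
def Mad (n p : ℕ) : Set (Fin n → ℝ) := {α | ∃ c : ℝ, 0 < c ∧ ∀ k : ℕ, 2 ≤ k → ∃ i,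
  c ≤ ((k : ℝ) * ((padicNorm p (k : ℚ) : ℚ) : ℝ) * Real.log k) ^ ((1 : ℝ) / (n : ℝ)) *
    |(k : ℝ) * α i - ((round ((k : ℝ) * α i) : ℤ) : ℝ)|}

end Pool.Agent.P.MP_246241_nt.VN
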