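import Pool.Agent.P.MP_246241_nt.VN.Base

/-! The statements of the steps. -/

set_option autoImplicit false

namespace Pool.Agent.P.MP_246241_nt.VN

open Finset Matrix
open scoped Classical

/-! ### The cone lemma -/

-- deps:
def S_SPEC : Prop :=
  ∀ (Z : Type) [Fintype Z] (Q : ℕ) [NeZero Q] (τ : ZMod Q → ZMod Q → Equiv.Perm Z),
    (∀ a b c d, τ (a + c) (b + d) = τ a b * τ c d) →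
    ∃ ν : ZMod Q × ZMod Q → (Z → ℝ) → ℝ, (∀ η ψ, 0 ≤ ν η ψ) ∧ (∀ ψ, ∑ η, ν η ψ ^ 2 = nn ψ) ∧
      (∀ α : Equiv.Perm Z, (∀ a b, τ a b * α = α * τ (a + b) b) →
        ∀ η ψ, ν η (fun z => ψ (α z)) = ν (η.1, η.2 + η.1) ψ) ∧
      (∀ β : Equiv.Perm Z, (∀ a b, τ a b * β = β * τ a (a + b)) →
        ∀ η ψ, ν η (fun z => ψ (β z)) = ν (η.1 + η.2, η.2) ψ) ∧
      (∀ (R : ℕ) (φ ψ : Z → ℝ),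
        ∑ a ∈ range R, ∑ b ∈ range R, ip (fun z => φ (τ (a : ℕ) (b : ℕ) z)) ψ ≤
          ∑ η : ZMod Q × ZMod Q, ‖∑ a ∈ range R, ZMod.stdAddChar (((a : ℕ) : ZMod Q) * η.1)‖ *
            ‖∑ b ∈ range R, ZMod.stdAddChar (((b : ℕ) : ZMod Q) * η.2)‖ * (ν η φ * ν η ψ)) ∧
      ∀ (ι : Type) (W : Finset ι) (w : ι → ZMod Q) (ψ : Z → ℝ),
        ν 0 (fun z => ∑ s ∈ W, ψ (τ 0 (w s) z)) = #W * ν 0 ψ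

-- deps:
def S_DIR : Prop :=
  ∀ (Q : ℕ) [NeZero Q] (R : ℕ) (ξ : ZMod Q),
    2 * |(ξ.valMinAbs : ℝ)| * ‖∑ a ∈ range R, ZMod.stdAddChar (((a : ℕ) : ZMod Q) * ξ)‖ ≤ Q

-- deps:
def S_SCAL : Prop :=
  ∀ (Q : ℕ) [NeZero Q] (M : ℕ) (a b π : ZMod Q × ZMod Q → ℝ) (X Y θ : ℝ), 1 ≤ M →
    (∀ η, 0 ≤ a η) → (∀ η, 0 ≤ b η) → 0 ≤ X → 0 ≤ Y → 0 ≤ θ →
    ∑ η, a η ^ 2 ≤ X ^ 2 → ∑ η, b η ^ 2 ≤ Y ^ 2 → (∀ η, π η ≤ 1) →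
    (∀ η : ZMod Q × ZMod Q,
      ((Q : ℤ) < 8 * M * |η.1.valMinAbs| ∨ (Q : ℤ) < 8 * M * |η.2.valMinAbs|) → π η ≤ θ) →
    ∑ η : ZMod Q × ZMod Q, π η * ((∑ m ∈ range M, a (η.1, η.2 + ((3 * m : ℕ) : ZMod Q) * η.1)) *
      ∑ m ∈ range M, b (η.1 + ((3 * m : ℕ) : ZMod Q) * η.2, η.2)) ≤
      (M : ℝ) ^ 2 * ((2 / √(M : ℝ) + θ) * X * Y + X * b 0)

-- deps: SPEC DIR SCAL
def S_CONE : Prop :=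
  ∀ (Z ι : Type) [Fintype Z] (τ : ℤ → ℤ → Equiv.Perm Z) (α β : Equiv.Perm Z) (Q M R : ℕ)
    (φ ψ : Z → ℝ) (W : Finset ι) (w : ι → ℤ) (X Y δ : ℝ), 1 ≤ Q → 1 ≤ M → 1 ≤ R →
    (∀ a b c d, τ (a + c) (b + d) = τ a b * τ c d) → τ Q 0 = 1 → τ 0 Q = 1 →
    (∀ a b, τ a b * α = α * τ (a + b) b) → (∀ a b, τ a b * β = β * τ a (a + b)) →
    0 ≤ X → 0 ≤ Y → 0 ≤ δ → nn φ ≤ X ^ 2 → nn ψ ≤ Y ^ 2 → W.Nonempty →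
    nn (fun z => ∑ s ∈ W, ψ (τ 0 (w s) z)) ≤ (#W * δ) ^ 2 →
    ∑ m ∈ range M, ∑ m' ∈ range M, ∑ a ∈ range R, ∑ b ∈ range R,
      ip (fun z => φ ((α ^ (3 * m) * τ (a : ℕ) (b : ℕ)) z)) (fun z => ψ ((β ^ (3 * m')) z)) ≤
      (M : ℝ) ^ 2 * (R : ℝ) ^ 2 * ((2 / √(M : ℝ) + 4 * M / R) * X * Y + X * δ)

/-! ### The zero frequency -/

-- deps:
def S_EDEN : Prop :=
  ∀ (D p j : ℕ) [Fact p.Prime] (i : ℕ) (x : AA D p j), i ≤ j → Pr x →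
    #{ρ : AA D p j | (p : RR p j) ^ i ∣ ρ ⬝ᵥ x} * p ^ i ≤ (p ^ j) ^ D ∧
    ∀ c, #{G : MM D p j | (p : RR p j) ^ i ∣ (G *ᵥ x) c} * p ^ i ≤ (p ^ j) ^ (D * D)

-- deps:
def S_VAN : Prop :=
  ∀ (D p j : ℕ) [Fact p.Prime] (k : ℕ) (b c : Fin D) (f : AA D p j → ℝ) (y : AA D p j)
    (s : RR p j), 1 ≤ k → b ≠ c →
    (∀ x, ∑ t : AA D p j, f (x + (p : RR p j) ^ (3 * k) • t) = 0) →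
    ¬ (p : RR p j) ^ k ∣ s → ¬ (p : RR p j) ^ k ∣ y c →
    ∑ G ∈ UU D p j, f (G *ᵥ y) * f (G *ᵥ (y + Pi.single b (s * y c))) = 0

-- deps: EDEN VAN
def S_ZERO : Prop :=
  ∀ (D p j : ℕ) [Fact p.Prime] (k : ℕ) (b c : Fin D) (f : AA D p j → ℝ), 1 ≤ k → b ≠ c →
    (∀ x, ¬ Pr x → f x = 0) → (∀ x, ∑ t : AA D p j, f (x + (p : RR p j) ^ (3 * k) • t) = 0) →
    (p : ℝ) ^ k * ∑ G ∈ UU D p j,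
      nn (fun y : AA D p j => ∑ s : RR p j, f (G *ᵥ (y + Pi.single b (s * y c)))) ≤
      2 * ((p : ℝ) ^ j) ^ 2 * ((p : ℝ) ^ j) ^ (D * D) * nn f

-- deps:
def S_FIBR : Prop :=
  ∀ (D p j : ℕ) [Fact p.Prime] (N : Fin D → ℕ) (Δ : ℕ) (Φ : MM D p j → ℝ), (∀ G, 0 ≤ Φ G) →
    (∀ c, p ^ j ≤ N c) → ((p : ℝ) ^ j) ^ (D * D) * ∑ g ∈ box p N Δ, Φ (rd (RR p j) g) ≤
      ((∏ c, 3 * N c : ℕ) : ℝ) ^ D * ∑ G ∈ UU D p j, Φ G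

-- deps:
def S_LOW : Prop :=
  ∀ (D p j : ℕ) [Fact p.Prime] (i : ℕ) (F : AA D p j → ℝ), 1 ≤ i → (∀ x, 0 ≤ F x) →
    (∀ x, ¬ Pr x → F x = 0) → ∃ f g : AA D p j → ℝ, F = f + g ∧
      (∀ x, 0 ≤ g x ∧ g x ≤ ((p : ℝ) ^ i) ^ D / ((p : ℝ) ^ j) ^ D * ∑ y, F y) ∧ nn f ≤ nn F ∧
      (∀ x, ¬ Pr x → f x = 0) ∧ ∀ x, ∑ t : AA D p j, f (x + (p : RR p j) ^ i • t) = 0

/-! ### Counting integer matrices -/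

-- deps:
def S_KA : Prop :=
  ∀ D : ℕ, ∃ T : ℕ, 1 ≤ T ∧ ∀ X : Matrix (Fin D) (Fin D) ℝ, (∀ i c, T * |X i c| ≤ 1) →
    1 / 2 ≤ (1 + X).det

-- deps:
def S_INV : Prop :=
  ∀ D : ℕ, ∃ e : ℕ, ∀ (C : ℕ) (w : Matrix (Fin D) (Fin D) ℝ), 2 ≤ C → 1 ≤ |w.det| →
    (∀ i c, |w i c| ≤ C) → ∀ i c, |w⁻¹ i c| ≤ (C : ℝ) ^ e

-- deps: KA INV
def S_KB : Prop :=
  ∀ n : ℕ, ∃ T e : ℕ, 1 ≤ T ∧ ∀ (C lam : ℕ) (γ : Mt (n + 1))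
    (w : Matrix (Fin (n + 1)) (Fin (n + 1)) ℝ), 2 ≤ C → 1 ≤ lam → ShW C lam γ w →
    ∃ n₀ : ℕ, ∀ (N : Fin (n + 1) → ℕ) (Y : Matrix (Fin (n + 1)) (Fin (n + 1)) ℝ)
      (g : Mt (n + 1)), (∀ c, n₀ ≤ N c) → (∀ i c, T * |Y i c| ≤ lam * N c) →
      (∀ c : Fin n, (lam : ℝ) ^ n * |Y 0 c.succ| ≤ N c.succ) →
      (∀ i c, |(g i c : ℝ) - (w * (diagonal (fun c => ((lam * N c : ℕ) : ℝ)) + Y)) i c| ≤ C) →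
      ((∏ c, lam * N c : ℕ) : ℤ) ≤ 2 * |g.det| ∧
      (∀ i c, |g i c| ≤ (C ^ e * (lam * N c) : ℕ)) ∧
      ∀ i c, |(γ * g) i c| ≤ (C ^ e * (if c = 0 then lam ^ (n + 1) * N c else N c) : ℕ)

-- deps: INV KB
def S_KLOW : Prop :=
  ∀ n : ℕ, ∃ e : ℕ, ∀ (p C lam : ℕ) (γ : Gl (n + 1)), 2 ≤ p → p ≤ C → 1 ≤ lam → Shell C lam γ →
    ∃ n₀ : ℕ, ∀ N : Fin (n + 1) → ℕ, (∀ c, n₀ ≤ N c) →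
      (∏ c, lam * N c) ^ (n + 1) ≤ C ^ e * lam ^ (n * (n + 1)) *
        #{g ∈ box p (fun c => C ^ e * (lam * N c)) (∏ c, lam * N c) | (γ : Mt (n + 1)) * g ∈
          box p (fun c => C ^ e * (if c = 0 then lam ^ (n + 1) * N c else N c)) (∏ c, lam * N c)}

-- deps:
def S_SAME : Prop :=
  ∀ (D Q : ℕ) (g g' : Mt D), g.det ∣ (Q : ℤ) → rowL Q g' = rowL Q g → ∃ γ : Mt D, g' = γ * g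

-- deps: SAME EK.BOX
def S_MU : Prop :=
  ∀ (D p Q R Δ : ℕ) (N : Fin D → ℕ) (L : Set (Fin D → ZMod Q)), 1 ≤ Δ →
    (∀ k ≤ D.factorial * ∏ c, N c, ¬ p ∣ k → k ∣ Q) → 2 * (D.factorial * ∏ c, N c) ≤ R * Δ →
    #(fib Q (box p N Δ) L) ≤ (2 * R + 1) ^ (D * D)

/-! ### The gap -/

-- deps:
def S_NL : Prop :=
  ∀ (D Q : ℕ) [NeZero Q] (A : Type) [Fintype A] (B : Finset (Mt D)) (Φ : Mt D → A → ℝ) (μ : ℝ),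
    (∀ L, (#(fib Q B L) : ℝ) ≤ μ) →
    nn (fun z : Set (Fin D → ZMod Q) × A => ∑ g ∈ fib Q B z.1, Φ g z.2) ≤ μ * ∑ g ∈ B, nn (Φ g)

-- deps: NL
def S_LIFT : Prop :=
  ∀ (D Q p j : ℕ) [NeZero Q] [Fact p.Prime] (B : Finset (Mt D)) (f : AA D p j → ℝ) (μ : ℝ),
    (∀ g ∈ B, ¬ (p : ℤ) ∣ g.det) → (∀ L, (#(fib Q B L) : ℝ) ≤ μ) →
    nn (lift Q B f) ≤ μ * #B * nn f ∧ ∑ z, lift Q B f z = #B * ∑ x, f x ∧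
      ∀ c : ℝ, 0 ≤ c → (∀ x, f x ≤ c) → ∀ z, lift Q B f z ≤ μ * c

-- deps:
def S_UNF : Prop :=
  ∀ (D Q p j : ℕ) [NeZero Q] [Fact p.Prime] (S : Finset (Gl D)) (B₁ B₂ : Finset (Mt D))
    (F₁ F₂ : AA D p j → ℝ) (k : ℝ), (∀ x, 0 ≤ F₁ x) → (∀ x, 0 ≤ F₂ x) →
    (∀ g ∈ B₁, ¬ (p : ℤ) ∣ g.det) → (∀ γ ∈ S, k ≤ #{g ∈ B₁ | (γ : Mt D) * g ∈ B₂}) →
    k * ∑ γ ∈ S, ip F₁ (fun x => F₂ (rd (RR p j) (γ : Mt D) *ᵥ x)) ≤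
      ip (lift Q B₁ F₁) (lift Q B₂ F₂)

-- deps:
def S_REL : Prop :=
  ∀ k : ℕ, (∀ a b c d, ta k (a + c) (b + d) = ta k a b * ta k c d) ∧
    (∀ a b, ta k a b * al k = al k * ta k (a + b) b) ∧
    (∀ a b, ta k a b * be k = be k * ta k a (a + b)) ∧
    ∀ Q p j : ℕ, sg (k + 3) Q p j (ta k (Q * p ^ j : ℕ) 0) = 1 ∧
      sg (k + 3) Q p j (ta k 0 (Q * p ^ j : ℕ)) = 1 ∧
      ∀ (s : ℕ) (z : ZZ (k + 3) Q p j), sg (k + 3) Q p j (ta k 0 (Q * s : ℕ)) z =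
        (z.1, z.2 + Pi.single 1 (((Q * s : ℕ) : RR p j) * z.2 2))

-- deps:
def S_ABS : Prop :=
  ∀ (k p Δ M R : ℕ) (N : Fin (k + 3) → ℕ) (g : Mt (k + 3)), g ∈ box p N Δ →
    (3 * M * N 0 ≤ N 1 → R * N 1 ≤ N 2 → ∀ m < M, ∀ a < R, ∀ b < R,
      g * (((al k ^ (3 * m) * ta k (a : ℕ) (b : ℕ))⁻¹ : Gl (k + 3)) : Mt (k + 3)) ∈
        box p (fun c => 3 * N c) Δ) ∧
    (3 * M * N 1 ≤ N 0 → ∀ m < M,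
      g * (((be k ^ (3 * m))⁻¹ : Gl (k + 3)) : Mt (k + 3)) ∈ box p (fun c => 3 * N c) Δ)

-- deps: REL NL FIBR ZERO
def S_ZL : Prop :=
  ∀ (k Q p j : ℕ) [NeZero Q] [Fact p.Prime] (κ Δ : ℕ) (N : Fin (k + 3) → ℕ)
    (f : AA (k + 3) p j → ℝ) (μ : ℝ), Q.Coprime p → 1 ≤ κ → (∀ c, p ^ j ≤ N c) →
    (∀ L, (#(fib Q (box p N Δ) L) : ℝ) ≤ μ) → (∀ x, ¬ Pr x → f x = 0) →
    (∀ x, ∑ t : AA (k + 3) p j, f (x + (p : RR p j) ^ (3 * κ) • t) = 0) →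
    (p : ℝ) ^ κ * nn (fun z => ∑ s ∈ range (p ^ j),
      lift Q (box p N Δ) f (sg (k + 3) Q p j (ta k 0 (Q * s : ℕ)) z)) ≤
      2 * ((p : ℝ) ^ j) ^ 2 * (μ * ((∏ c, 3 * N c : ℕ) : ℝ) ^ (k + 3) * nn f)

-- deps: CONE REL ABS LIFT ZL LOW
def S_PAIR : Prop :=
  ∀ (k Q p j : ℕ) [NeZero Q] [Fact p.Prime] (M R κ Δ : ℕ) (N₁ N₂ : Fin (k + 3) → ℕ)
    (F₁ F₂ : AA (k + 3) p j → ℝ) (μ V X Y : ℝ), Q.Coprime p → 1 ≤ M → 1 ≤ R → 1 ≤ κ →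
    3 * M * N₁ 0 ≤ N₁ 1 → R * N₁ 1 ≤ N₁ 2 → 3 * M * N₂ 1 ≤ N₂ 0 →
    (∀ c, 1 ≤ N₁ c) → (∀ c, p ^ j ≤ N₂ c) →
    (∀ L, (#(fib Q (box p (fun c => 3 * N₁ c) Δ) L) : ℝ) ≤ μ) →
    (∀ L, (#(fib Q (box p (fun c => 3 * N₂ c) Δ) L) : ℝ) ≤ μ) →
    ((∏ c, 3 * (3 * N₁ c) : ℕ) : ℝ) ^ (k + 3) ≤ V → ((∏ c, 3 * (3 * N₂ c) : ℕ) : ℝ) ^ (k + 3) ≤ V →
    (∀ x, 0 ≤ F₁ x) → (∀ x, 0 ≤ F₂ x) → (∀ x, ¬ Pr x → F₂ x = 0) → 0 ≤ X → 0 ≤ Y →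
    nn F₁ ≤ X ^ 2 → nn F₂ ≤ Y ^ 2 →
    ip (lift Q (box p N₁ Δ) F₁) (lift Q (box p N₂ Δ) F₂) ≤
      μ * V * ((2 / √(M : ℝ) + 4 * M / R + √(2 / (p : ℝ) ^ κ)) * X * Y +
        ((p : ℝ) ^ (3 * κ)) ^ (k + 3) / ((p : ℝ) ^ j) ^ (k + 3) * (∑ x, F₂ x) * ∑ x, F₁ x)

-- deps: UNF PAIR KLOW MU
def S_GAP : Prop :=
  ∀ n : ℕ, 2 ≤ n → ∃ e : ℕ, ∀ (p j : ℕ) [Fact p.Prime] (C β : ℕ) (S : Finset (Gl (n + 1)))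
    (F₁ F₂ : AA (n + 1) p j → ℝ) (X Y : ℝ), p ≤ C → 2 ≤ β → (∀ γ ∈ S, Shell C (p ^ (2 * β)) γ) →
    (∀ x, 0 ≤ F₁ x) → (∀ x, 0 ≤ F₂ x) → (∀ x, ¬ Pr x → F₂ x = 0) → 0 ≤ X → 0 ≤ Y →
    nn F₁ ≤ X ^ 2 → nn F₂ ≤ Y ^ 2 →
    ∑ γ ∈ S, ip F₁ (fun x => F₂ (rd (RR p j) (γ : Mt (n + 1)) *ᵥ x)) ≤
      (C : ℝ) ^ e * (p : ℝ) ^ (n * ((n + 1) * (2 * β))) * (X * Y / (p : ℝ) ^ β +
        (p : ℝ) ^ (6 * (n + 1) * β) / ((p : ℝ) ^ j) ^ (n + 1) * (∑ x, F₂ x) * ∑ x, F₁ x)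

/-! ### Frames -/

-- deps:
def S_SHELL : Prop :=
  ∀ (n p B l β : ℕ) (x x' : Vc n) (g g' : Gl (n + 1)), 0 < p → 1 ≤ B →
    pre p ((n + 1) * β) x' = x → Frame p B l x g → Frame p B (l + (n + 1) * β) x' g' →
    Shell (2 * B) (p ^ β) (g' * g⁻¹)

-- deps:
def S_FFB : Prop :=
  ∀ (n p j : ℕ) [Fact p.Prime] (B l : ℕ) (S : Finset (Vc n)),
    (∀ x, ¬ Pr x → FF p j B l S x = 0) ∧ ∑ x, FF p j B l S x = #S ∧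
      nn (FF p j B l S) ≤ (#S : ℝ) ^ 2

-- deps: SHELL EK.MULT
def S_DOM : Prop :=
  ∀ n : ℕ, ∃ e : ℕ, ∀ (p j : ℕ) [Fact p.Prime] (B l β : ℕ) (S S' : Finset (Vc n)), 2 ≤ B →
    (∀ a ∈ S', pre p ((n + 1) * β) a ∈ S) → (∀ a ∈ S, ∃ g, Frame p B l a g) →
    (∀ a ∈ S', ∃ g, Frame p B (l + (n + 1) * β) a g) →
    ∃ Γ : Finset (Gl (n + 1)), (∀ γ ∈ Γ, Shell (2 * B) (p ^ β) γ) ∧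
      nn (FF p j B (l + (n + 1) * β) S') ≤ (B : ℝ) ^ e * ∑ γ ∈ Γ, ip (FF p j B l S)
        (fun x => FF p j B (l + (n + 1) * β) S' (rd (RR p j) (γ : Mt (n + 1)) *ᵥ x))

-- deps: EK.QUOT
def S_VEC : Prop :=
  ∀ n : ℕ, ∃ e : ℕ, ∀ (p B H l i : ℕ) (a : Vc n) (g : Gl (n + 1)), 0 < p → 2 ≤ B →
    Frame p B (l + i) a g → Short p H l a → ∃ ρ : Vc (n + 1), ρ ≠ 0 ∧ (p : ℤ) ^ i ∣ ρ ⬝ᵥ col g ∧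
      ∀ c, (H : ℤ) * |ρ c| ^ (n + 1) ≤ (B ^ e : ℕ) * (p : ℤ) ^ i

-- deps: EDEN
def S_ESET : Prop :=
  ∀ (D p j : ℕ) [Fact p.Prime] (G H : ℕ), G < H → ∃ E : Finset (AA D p j),
    H * #E ≤ j * 3 ^ D * G * (p ^ j) ^ D ∧ ∀ (u ρ : Vc D) (i : ℕ), i ≤ j → ρ ≠ 0 →
      (p : ℤ) ^ i ∣ ρ ⬝ᵥ u → (∀ c, (H : ℤ) * |ρ c| ^ D ≤ G * (p : ℤ) ^ i) → rv (RR p j) u ∈ E

-- deps: VEC ESET FFB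
def S_WIN : Prop :=
  ∀ n : ℕ, ∃ e : ℕ, ∀ (p j : ℕ) [Fact p.Prime] (B H l : ℕ) (S : Finset (Vc n)), 1 ≤ j → 2 ≤ B →
    (∀ a ∈ S, (∃ g, Frame p B l a g) ∧ ∃ i ≤ j, i ≤ l ∧ Short p H (l - i) a) →
    (H : ℝ) * (#S : ℝ) ^ 2 ≤ j * (B : ℝ) ^ e * (nn (FF p j B l S) * ((p : ℝ) ^ j) ^ (n + 1))

/-! ### The crude bound -/

-- deps:
def S_HYP : Prop :=
  ∀ (D : ℕ) (V : Set (Fin D → ℝ)),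
    (∀ M : Matrix (Fin D) (Fin D) ℝ, (∀ i, M i ∈ V) → M.det = 0) →
    ∃ ξ : Fin D → ℝ, ξ ≠ 0 ∧ ∀ v ∈ V, v ⬝ᵥ ξ = 0

-- deps:
def S_SLAB : Prop :=
  ∀ (n P : ℕ) (S : Finset (Vc n)) (ξ : Fin n → ℝ) (c ρ : ℝ), ξ ≠ 0 → 0 ≤ ρ →
    (∀ d ∈ S, (∀ i, 0 ≤ d i ∧ d i < P) ∧
      ∃ z : Fin n → ℝ, z ⬝ᵥ ξ = c ∧ ∀ i, |(d i : ℝ) - z i| ≤ ρ) →
    (#S : ℝ) * P ≤ (2 * n * ρ + 1) * (P : ℝ) ^ n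

-- deps:
def S_PT : Prop :=
  ∀ (n p H η l : ℕ) (a₀ a : Vc n), 2 ≤ p → 1 ≤ η → ¬ Short p H l a₀ →
    pre p ((n + 1) * η) a = a₀ → Short p H (l + (n + 1) * η) a →
    ∃ w v : Vc (n + 1), v = w ᵥ* Tm p l a₀ ∧ v 0 ≠ 0 ∧
      (∀ c, (H : ℤ) * |v c| ^ (n + 1) ≤ 2 ^ (n + 1) * (p : ℤ) ^ (n * (l + (n + 1) * η))) ∧
      ∀ i : Fin n, |(p : ℤ) ^ ((n + 1) * η) * v i.succ +
        v 0 * (a i - (p : ℤ) ^ ((n + 1) * η) * a₀ i)| ≤ 2 * (p : ℤ) ^ (n * η) * |v 0|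

-- deps: HYP SLAB PT
def S_CRU1 : Prop :=
  ∀ n : ℕ, 1 ≤ n → ∃ w : ℕ, n * (n + 1) ≤ w ∧ ∀ (p η l : ℕ) (a₀ : Vc n) (S : Finset (Vc n)),
    2 ≤ p → 1 ≤ η → ¬ Short p (p ^ (w * η)) l a₀ →
    (∀ a ∈ S, pre p ((n + 1) * η) a = a₀ ∧ Short p (p ^ (w * η)) (l + (n + 1) * η) a) →
    #S * p ^ η ≤ 5 * n * p ^ (n * ((n + 1) * η))

-- deps: CRU1
def S_CRU : Prop :=
  ∀ n : ℕ, 1 ≤ n → ∃ w : ℕ, 1 ≤ w ∧ ∀ (p η m t : ℕ) (C : ℕ → Finset (Vc n)), 2 ≤ p → 1 ≤ η →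
    m ≤ t → Chain p (lev p (p ^ (w * η)) m) C t →
    (#{a ∈ C t | Short p (p ^ (w * η)) (t - m) a} : ℝ) ≤ 5 * n * (2 / 3) ^ η * #(C t)

/-! ### The recursion -/

-- deps: GAP DOM FFB
def S_BLK : Prop :=
  ∀ n : ℕ, 2 ≤ n → ∃ e : ℕ, 2 ≤ e ∧ ∀ (p j : ℕ) [Fact p.Prime] (B β m t u : ℕ)
    (C : ℕ → Finset (Vc n)) (ν : ℝ), p ≤ B → B ^ e ≤ p ^ β → Chain p (frm p B m) C t → m ≤ u →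
    u + (n + 1) * (2 * β) ≤ t → 0 ≤ ν →
    (∀ S ⊆ C u, (∀ a ∈ S, ∃ g, Frame p B (u - m) a g) →
      nn (FF p j B (u - m) S) * ((p : ℝ) ^ j) ^ (n + 1) ≤ ν * (#(C u) : ℝ) ^ 2) →
    ∀ S ⊆ C (u + (n + 1) * (2 * β)), (∀ a ∈ S, ∃ g, Frame p B (u + (n + 1) * (2 * β) - m) a g) →
      nn (FF p j B (u + (n + 1) * (2 * β) - m) S) * ((p : ℝ) ^ j) ^ (n + 1) ≤
        (ν / (p : ℝ) ^ β + (p : ℝ) ^ (e * β)) * (#(C (u + (n + 1) * (2 * β))) : ℝ) ^ 2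

-- deps: BLK FFB
def S_REC : Prop :=
  ∀ n : ℕ, 2 ≤ n → ∃ e : ℕ, ∀ (p j : ℕ) [Fact p.Prime] (B m t : ℕ) (C : ℕ → Finset (Vc n)),
    p ≤ B → Chain p (frm p B m) C t → m + 2 * (n + 1) ^ 2 * j ≤ t →
    ∀ S ⊆ C t, (∀ a ∈ S, ∃ g, Frame p B (t - m) a g) →
      nn (FF p j B (t - m) S) * ((p : ℝ) ^ j) ^ (n + 1) ≤ (B : ℝ) ^ e * (#(C t) : ℝ) ^ 2

-- deps: REC WIN EK.FRAME
def S_WK : Prop :=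
  ∀ n : ℕ, 2 ≤ n → ∃ e : ℕ, ∀ (p : ℕ) [Fact p.Prime] (h j m t H : ℕ) (C : ℕ → Finset (Vc n)),
    1 ≤ h → 1 ≤ j → Chain p (lev p (p ^ h) m) C t → m + 2 * (n + 1) ^ 2 * j ≤ t →
    ∀ S ⊆ C t, (∀ a ∈ S, ¬ Short p (p ^ h) (t - m) a ∧ ∃ i ≤ j, Short p H (t - m - i) a) →
      (H : ℝ) * (#S : ℝ) ^ 2 ≤ j * (p : ℝ) ^ (e * h) * (#(C t) : ℝ) ^ 2

-- deps:
def S_COV : Prop :=
  ∀ n p w κ Λ η c t : ℕ, 2 ≤ p → 2 ≤ Λ → 1 ≤ κ → p ^ (n * κ) < c →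
    (∀ s, #(II κ Λ t s) ≤ (κ + 1) * Λ + 1) ∧
    (∀ s, ∀ m ∈ II κ Λ t s, ∀ u < t, ∀ a : Vc n,
      good p w κ Λ η c u a → lev p (th p w Λ η t s) m u a) ∧
    ∀ a : Vc n, ¬ good p w κ Λ η c t a → ∃ s ≤ Nat.log Λ (t + 1), ∃ m ∈ II κ Λ t s,
      Short p (th p w Λ η t s) (t - m) a ∨ (¬ Short p (th p w Λ η t s) (t - m) a ∧
        m + κ * Λ ^ s ≤ t ∧ ∃ i ≤ Λ ^ s, Short p (c * (t + 1)) (t - m - i) a)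

-- deps: COV CRU WK
def S_CORE : Prop :=
  ∀ n : ℕ, 2 ≤ n → ∀ (p : ℕ) [Fact p.Prime] (ε : ℝ), 0 < ε → ∃ w κ Λ η c : ℕ, 1 ≤ c ∧
    ∀ (t : ℕ) (C : ℕ → Finset (Vc n)), Chain p (good p w κ Λ η c) C t →
      (#{a ∈ C t | ¬ good p w κ Λ η c t a} : ℝ) ≤ ε * #(C t)

/-! ### The Cantor set -/

-- deps:
def S_BUILD : Prop :=
  ∀ (n p : ℕ) (ε : ℝ) (g : ℕ → Vc n → Prop) (Z : ℕ → Finset (Vc n)), 1 ≤ p → 0 < ε →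
    1 ≤ ls n * (1 - 2 * ε) →
    (∀ t C, Chain p g C t → (#{a ∈ C t | ¬ g t a} : ℝ) ≤ ε * #(C t)) →
    (∀ t, (#(Z t) : ℝ) ≤ ε * ((1 - 2 * ε) * (p : ℝ) ^ n) ^ t) →
    ∃ C : ℕ → Finset (Vc n), ∀ t, (C t).Nonempty ∧ (∀ a ∈ C t, g t a ∧ a ∉ Z t) ∧
      ∀ a ∈ C (t + 1), pre p 1 a ∈ C t

-- deps:
def S_LIM : Prop :=
  ∀ (n p : ℕ) (C : ℕ → Finset (Vc n)), 2 ≤ p →
    (∀ t, (C t).Nonempty ∧ ∀ a ∈ C (t + 1), pre p 1 a ∈ C t) →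
    ∃ α : Fin n → ℝ, ∀ t, ∃ a ∈ C t, ∀ i, |(p : ℝ) ^ t * α i - a i| ≤ 1

-- deps:
def S_FIN : Prop :=
  ∀ (n p c : ℕ) (α : Fin n → ℝ), 1 ≤ n → p.Prime → 1 ≤ c →
    (∀ t, ∃ a : Vc n, (∀ i, |(p : ℝ) ^ t * α i - a i| ≤ 1) ∧
      ∀ l ≤ t, ¬ Short p (c * (t + 1)) l a) → α ∈ Mad n p

-- deps:
def S_LEV : Prop :=
  ∀ (n p : ℕ) (M : Set (Fin n → ℝ)) (s η : ℝ), 2 ≤ p → 0 < s → 0 < η →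
    MeasureTheory.Measure.hausdorffMeasure s M = 0 →
    ∃ (x : ℕ → Fin n → ℝ) (τ : ℕ → ℕ), (∀ α ∈ M, ∃ k, ∀ i, |α i - x k i| ≤ 1 / (p : ℝ) ^ τ k) ∧
      ∀ F : Finset ℕ, ∑ k ∈ F, 1 / ((p : ℝ) ^ s) ^ τ k ≤ η

-- deps: LEV
def S_DIM : Prop :=
  ∀ (n p : ℕ) (M : Set (Fin n → ℝ)) (ε₀ : ℝ), 1 ≤ n → 2 ≤ p → 0 < ε₀ →
    (∀ ε : ℝ, 0 < ε → ε ≤ ε₀ → ∀ Z : ℕ → Finset (Vc n),
      (∀ t, (#(Z t) : ℝ) ≤ ε * ((1 - 2 * ε) * (p : ℝ) ^ n) ^ t) →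
      ∃ α ∈ M, ∀ t, ∃ a : Vc n, a ∉ Z t ∧ ∀ i, |(p : ℝ) ^ t * α i - a i| ≤ 1) → dimH M = n

-- deps:
-- imports: Pool.Agent.P.MP_246241_nt.BV.Main
def S_ONE : Prop := ∀ p : ℕ, p.Prime → dimH (Mad 1 p) = (1 : ℕ)

theorem assemble (hCORE : S_CORE) (hBUILD : S_BUILD) (hLIM : S_LIM) (hFIN : S_FIN) (hDIM : S_DIM)
    (hONE : S_ONE) (n p : ℕ) (hn : 1 ≤ n) (hp : p.Prime) : dimH (Mad n p) = n := by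
  have : Fact p.Prime := ⟨hp⟩
  rcases hn.eq_or_lt with rfl | h2
  · exact hONE p hp
  have hE : (0 : ℝ) < 16 * (n + 1) := by positivity
  refine hDIM n p _ (1 / (2 * (16 * (n + 1) + 1))) hn hp.two_le (by positivity)
    fun ε h0 h1 Z hZ => ?_
  obtain ⟨w, κ, Λ, η, c, hc, h⟩ := hCORE n h2 p ε h0
  have hl : 1 ≤ ls n * (1 - 2 * ε) := by
    rw [ls]
    generalize (16 * (n + 1) : ℝ) = E at hE h1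
    refine le_trans (le_of_eq ?_) (mul_le_mul_of_nonneg_left
      (show 1 - 2 * (1 / (2 * (E + 1))) ≤ 1 - 2 * ε by linarith) (by positivity))
    field_simp
    ring
  obtain ⟨C, hC⟩ := hBUILD n p ε _ Z hp.one_le h0 hl h hZ
  obtain ⟨α, hα⟩ := hLIM n p C hp.two_le fun t => ⟨(hC t).1, (hC t).2.2⟩
  refine ⟨α, hFIN n p c α hn hp hc fun t => ?_, fun t => ?_⟩
  · obtain ⟨a, ha, e⟩ := hα t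
    exact ⟨a, e, ((hC t).2.1 a ha).1.1⟩
  · obtain ⟨a, ha, e⟩ := hα t
    exact ⟨a, ((hC t).2.1 a ha).2, e⟩

end Pool.Agent.P.MP_246241_nt.VN
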