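import Pool.Agent.P.MP_246241_nt.VN.Iface

/-! Step DIM. -/

set_option autoImplicit false
set_option linter.unusedSectionVars false

namespace Pool.Agent.P.MP_246241_nt.VN

open Finset Matrix
open scoped Classical

theorem p_DIM (hLEV : S_LEV) :
    S_DIM := by
  intro n p M ε₀ hn hp he H
  refine le_antisymm ((dimH_mono (Set.subset_univ M)).trans (Real.dimH_univ_pi_fin n).le) ?_
  refine le_of_forall_lt_imp_le_of_dense fun a ha => ?_
  rcases eq_or_ne a 0 with rfl | a0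
  · exact zero_le
  lift a to NNReal using ha.ne_top with s
  have s0 : (0 : ℝ) < s := by exact_mod_cast pos_iff_ne_zero.2 (ENNReal.coe_ne_zero.1 a0)
  have s1 : (s : ℝ) < n := by exact_mod_cast ha
  refine le_dimH_of_hausdorffMeasure_ne_zero fun h0 => ?_
  have p1 : (1 : ℝ) < p := by exact_mod_cast hp
  have p0 : (0 : ℝ) < p := one_pos.trans p1
  have P0 : (0 : ℝ) < (p : ℝ) ^ n := pow_pos p0 n
  have q0 : 0 < (p : ℝ) ^ (s : ℝ) := Real.rpow_pos_of_pos p0 _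
  have q1 : (p : ℝ) ^ (s : ℝ) < (p : ℝ) ^ n := by
    simpa using Real.rpow_lt_rpow_of_exponent_lt p1 s1
  obtain ⟨ε, e0, e1, e2⟩ : ∃ ε : ℝ, 0 < ε ∧ ε ≤ ε₀ ∧
      (p : ℝ) ^ (s : ℝ) ≤ (1 - 2 * ε) * (p : ℝ) ^ n := by
    have := (div_lt_one P0).2 q1
    refine ⟨min ε₀ ((1 - (p : ℝ) ^ (s : ℝ) / (p : ℝ) ^ n) / 2), lt_min he (by linarith),
      min_le_left _ _, (div_le_iff₀ P0).1 ?_⟩
    linarith [min_le_right ε₀ ((1 - (p : ℝ) ^ (s : ℝ) / (p : ℝ) ^ n) / 2)]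
  obtain ⟨x, τ, h1, h2⟩ := hLEV n p M s (ε / 5 ^ n) hp s0 (by positivity) h0
  generalize (p : ℝ) ^ (s : ℝ) = q at *
  have h3 : ∀ t (F : Finset ℕ), (↑F ⊆ {k | τ k = t}) → (#F : ℝ) ≤ ε / 5 ^ n * q ^ t :=
    fun t F hF => by
    have := h2 F
    rwa [sum_congr rfl fun k hk => by rw [show τ k = t from hF hk], sum_const, nsmul_eq_mul,
      mul_one_div, div_le_iff₀ (pow_pos q0 t)] at this
  have h4 : ∀ t, {k | τ k = t}.Finite := fun t => by
    by_contra hi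
    obtain ⟨F, hF, hc⟩ := Set.Infinite.exists_subset_card_eq hi (⌊ε / 5 ^ n * q ^ t⌋₊ + 1)
    have := h3 t F hF
    rw [hc] at this
    exact absurd (Nat.lt_floor_add_one (ε / 5 ^ n * q ^ t)) (by push_cast at this; linarith)
  obtain ⟨α, hα, h5⟩ := H ε e0 e1 (fun t => (h4 t).toFinset.biUnion fun k =>
    Fintype.piFinset fun i : Fin n =>
      Icc ⌈(p : ℝ) ^ t * x k i - 2⌉ (⌈(p : ℝ) ^ t * x k i - 2⌉ + 4)) fun t => by
      have a1 := card_biUnion_le_card_mul (h4 t).toFinset (fun k =>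
        Fintype.piFinset fun i : Fin n =>
          Icc ⌈(p : ℝ) ^ t * x k i - 2⌉ (⌈(p : ℝ) ^ t * x k i - 2⌉ + 4)) (5 ^ n) fun k _ => by
          rw [Fintype.card_piFinset, prod_congr rfl fun i _ =>
            (show #(Icc ⌈(p : ℝ) ^ t * x k i - 2⌉ (⌈(p : ℝ) ^ t * x k i - 2⌉ + 4)) = 5 by
              rw [Int.card_Icc]; omega)]
          simp
      have a2 := h3 t (h4 t).toFinset (by simp)
      have a3 := mul_le_mul_of_nonneg_left (pow_le_pow_left₀ q0.le e2 t) e0.le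
      rw [div_mul_eq_mul_div, le_div_iff₀ (by positivity)] at a2
      exact le_trans (by exact_mod_cast a1 : _ ≤ (#(h4 t).toFinset : ℝ) * 5 ^ n) (a2.trans a3)
  obtain ⟨k, hk⟩ := h1 α hα
  obtain ⟨a, ha1, ha2⟩ := h5 (τ k)
  refine ha1 (mem_biUnion.2 ⟨k, by simp, Fintype.mem_piFinset.2 fun i => ?_⟩)
  have b1 : |(p : ℝ) ^ τ k * α i - p ^ τ k * x k i| ≤ 1 := by
    rw [← mul_sub, abs_mul, abs_of_pos (pow_pos p0 _), mul_comm, ← le_div_iff₀ (pow_pos p0 _)]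
    exact hk i
  obtain ⟨b2, b3⟩ := abs_le.1 b1
  obtain ⟨b4, b5⟩ := abs_le.1 (ha2 i)
  refine mem_Icc.2 ⟨Int.ceil_le.2 (by linarith), ?_⟩
  have := Int.le_ceil ((p : ℝ) ^ τ k * x k i - 2)
  exact_mod_cast (by linarith : (a i : ℝ) ≤ ⌈(p : ℝ) ^ τ k * x k i - 2⌉ + 4)

end Pool.Agent.P.MP_246241_nt.VN
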