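import Pool.Agent.P.MP_246241_nt.VN.Iface

/-! Step INV. -/

set_option autoImplicit false
set_option linter.unusedSectionVars false

namespace Pool.Agent.P.MP_246241_nt.VN

open Finset Matrix
open scoped Classical

theorem p_INV :
    S_INV := by
  intro D
  refine ⟨D.factorial + D, fun C w hC hd hw i c => ?_⟩
  have h2 : (2 : ℝ) ≤ C := by exact_mod_cast hC
  have h1 : |w.adjugate i c| ≤ D.factorial * (C : ℝ) ^ D := by
    rw [adjugate_apply]
    have := det_le_prod (w.updateRow c (Pi.single i 1)) (fun _ => (C : ℝ)) fun a b => by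
      rw [updateRow_apply]
      split_ifs
      · rw [Pi.single_apply]
        split_ifs
        · rw [abs_one]; linarith
        · rw [abs_zero]; linarith
      · exact hw a b
    simpa using this
  have h3 : (D.factorial : ℝ) ≤ (C : ℝ) ^ D.factorial := by
    have : (D.factorial : ℝ) ≤ 2 ^ D.factorial := by
      exact_mod_cast (Nat.lt_two_pow_self (n := D.factorial)).le
    exact this.trans (pow_le_pow_left₀ (by norm_num) h2 _)
  rw [Matrix.inv_def, Matrix.smul_apply, smul_eq_mul, Ring.inverse_eq_inv', abs_mul, abs_inv, pow_add]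
  calc |w.det|⁻¹ * |w.adjugate i c| ≤ 1 * |w.adjugate i c| :=
        mul_le_mul_of_nonneg_right (inv_le_one_of_one_le₀ hd) (abs_nonneg _)
    _ ≤ D.factorial * (C : ℝ) ^ D := by rw [one_mul]; exact h1
    _ ≤ _ := mul_le_mul_of_nonneg_right h3 (by positivity)

end Pool.Agent.P.MP_246241_nt.VN
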