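import Pool.Agent.P.MP_246241_nt.VN.Iface

/-! Step PAIR. -/

set_option autoImplicit false
set_option linter.unusedSectionVars false

namespace Pool.Agent.P.MP_246241_nt.VN

open Finset Matrix
open scoped Classical

namespace PAIRx

theorem avg {M R : ℕ} (hM : 1 ≤ M) (hR : 1 ≤ R) {L A B : ℝ} (u : ℕ → ℕ → ℕ → ℕ → ℝ)
    (h : ∀ m < M, ∀ m' < M, ∀ a < R, ∀ b < R, L ≤ u m m' a b + B)
    (hs : ∑ m ∈ range M, ∑ m' ∈ range M, ∑ a ∈ range R, ∑ b ∈ range R, u m m' a b ≤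
      (M : ℝ) ^ 2 * (R : ℝ) ^ 2 * A) : L ≤ A + B := by
  have h1 : ∑ _m ∈ range M, ∑ _m' ∈ range M, ∑ _a ∈ range R, ∑ _b ∈ range R, (L - B) ≤
      ∑ m ∈ range M, ∑ m' ∈ range M, ∑ a ∈ range R, ∑ b ∈ range R, u m m' a b :=
    sum_le_sum fun m hm => sum_le_sum fun m' hm' => sum_le_sum fun a ha => sum_le_sum fun b hb =>
      sub_le_iff_le_add.2 (h m (mem_range.1 hm) m' (mem_range.1 hm') a (mem_range.1 ha) b
        (mem_range.1 hb))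
  simp only [sum_const, card_range, nsmul_eq_mul] at h1
  have h0 : (0 : ℝ) < (M : ℝ) ^ 2 * (R : ℝ) ^ 2 := by positivity
  exact sub_le_iff_le_add.1 (le_of_mul_le_mul_left
    ((le_of_eq (by ring)).trans (h1.trans hs)) h0)

theorem split {Z : Type} [Fintype Z] {φ₀ ψ₀ φ ψ f g : Z → ℝ} (π π' : Equiv.Perm Z) {c S : ℝ}
    (h0 : ∀ z, 0 ≤ ψ₀ z) (h1 : ∀ z, 0 ≤ φ z) (h2 : ∀ z, φ₀ z ≤ φ (π z))
    (h3 : ∀ z, ψ₀ z ≤ ψ (π' z)) (e : ∀ z, ψ z = f z + g z) (hg : ∀ z, g z ≤ c) (hc : 0 ≤ c)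
    (hS : ∑ z, φ z ≤ S) :
    ip φ₀ ψ₀ ≤ ip (fun z => φ (π z)) (fun z => f (π' z)) + c * S := by
  have h4 : ∑ z, c * φ (π z) ≤ c * S := by
    rw [← mul_sum, Equiv.sum_comp π φ]; exact mul_le_mul_of_nonneg_left hS hc
  refine le_trans ?_ (add_le_add_right h4 _)
  rw [ip, ip, ← sum_add_distrib]
  refine sum_le_sum fun z _ => (mul_le_mul (h2 z) (h3 z) (h0 z) (h1 _)).trans ?_
  rw [e, mul_add, mul_comm c]
  exact add_le_add_right (mul_le_mul_of_nonneg_left (hg _) (h1 _)) _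

end PAIRx

open PAIRx in
theorem p_PAIR (hCONE : S_CONE) (hREL : S_REL) (hABS : S_ABS) (hLIFT : S_LIFT) (hZL : S_ZL) (hLOW : S_LOW) :
    S_PAIR := by
  intro k Q p j _ hp M R κ Δ N₁ N₂ F₁ F₂ μ V X Y hQ hM hR hκ n1 n2 n3 n4 n5 m1 m2 v1 v2 f1 f2 f3
    hX hY x1 y1
  obtain ⟨f, g, hF, hg, hf, hf0, hf1⟩ := hLOW (k + 3) p j (3 * κ) F₂ (by omega) f2 f3
  obtain ⟨r1, r2, r3, r4⟩ := hREL k
  obtain ⟨r4, r5, -⟩ := r4 Q p j
  have hq : 0 < p ^ j := pow_pos hp.out.pos j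
  have hp0 : (0 : ℝ) < p := by exact_mod_cast hp.out.pos
  have hμ : 0 ≤ μ := (Nat.cast_nonneg _).trans (m1 ∅)
  have hV : 0 ≤ V := le_trans (by positivity) v1
  have c1 : (#(box p (fun c => 3 * N₁ c) Δ) : ℝ) ≤ V := le_trans (by
    exact_mod_cast card_box p Δ (N := fun c => 3 * N₁ c) fun c => by have := n4 c; omega) v1
  have c2 : (#(box p (fun c => 3 * N₂ c) Δ) : ℝ) ≤ V := le_trans (by
    exact_mod_cast card_box p Δ (N := fun c => 3 * N₂ c) fun c => by have := n5 c; omega) v2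
  obtain ⟨l1, l2, -⟩ := hLIFT (k + 3) Q p j _ F₁ μ (fun _ h => (mem_box.1 h).2.1) m1
  obtain ⟨l3, -, -⟩ := hLIFT (k + 3) Q p j _ f μ (fun _ h => (mem_box.1 h).2.1) m2
  obtain ⟨-, -, l4⟩ := hLIFT (k + 3) Q p j _ g μ (fun _ h => (mem_box.1 h).2.1) m2
  have hz := hZL k Q p j κ Δ (fun c => 3 * N₂ c) f μ hQ hκ (fun c => by have := n5 c; omega) m2
    hf0 hf1
  have s2 : 0 ≤ ∑ x, F₂ x := sum_nonneg fun x _ => f2 x
  have s1 : 0 ≤ ∑ x, F₁ x := sum_nonneg fun x _ => f1 x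
  have l5 := l4 _ (by positivity) fun x => (hg x).2
  have hs : √(μ * V) ^ 2 = μ * V := Real.sq_sqrt (by positivity)
  have ht : √(2 / (p : ℝ) ^ κ) ^ 2 = 2 / (p : ℝ) ^ κ := Real.sq_sqrt (by positivity)
  have nf := nn_nonneg f
  have nF := nn_nonneg F₁
  have y2 := hf.trans y1
  have hC := hCONE (ZZ (k + 3) Q p j) ℕ (fun a b => sg (k + 3) Q p j (ta k a b))
    (sg (k + 3) Q p j (al k)) (sg (k + 3) Q p j (be k)) (Q * p ^ j) M R
    (lift Q (box p (fun c => 3 * N₁ c) Δ) F₁) (lift Q (box p (fun c => 3 * N₂ c) Δ) f)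
    (range (p ^ j)) (fun s => (Q * s : ℕ)) (√(μ * V) * X) (√(μ * V) * Y)
    (√(2 / (p : ℝ) ^ κ) * (√(μ * V) * Y)) (Nat.mul_pos (NeZero.pos Q) hq) hM hR
    (fun a b c d => by rw [r1, map_mul]) r4 r5
    (fun a b => by rw [← map_mul, r2, map_mul]) (fun a b => by rw [← map_mul, r3, map_mul])
    (by positivity) (by positivity) (by positivity)
    (l1.trans (by rw [mul_pow, hs]; gcongr)) (l3.trans (by rw [mul_pow, hs]; gcongr))
    (nonempty_range_iff.2 hq.ne')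
    (le_of_mul_le_mul_left (hz.trans (by
      rw [mul_pow, mul_pow, mul_pow, hs, ht, card_range, Nat.cast_pow]
      calc _ ≤ 2 * ((p : ℝ) ^ j) ^ 2 * (μ * V * Y ^ 2) := by gcongr
        _ = _ := by field_simp)) (pow_pos hp0 κ))
  refine (avg hM hR _ (B := μ * (((p : ℝ) ^ (3 * κ)) ^ (k + 3) / ((p : ℝ) ^ j) ^ (k + 3) *
    ∑ y, F₂ y) * (V * ∑ x, F₁ x)) (fun m hm m' hm' a ha b hb => ?_) hC).trans (le_of_eq ?_)
  · refine split (ψ := lift Q (box p (fun c => 3 * N₂ c) Δ) F₂) _ _ (lift_nonneg _ f2)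
      (lift_nonneg _ f1) (fun z => ?_) (fun z => ?_) (fun z => by rw [hF, lift_add]) l5
      (by positivity) (by rw [l2]; gcongr)
    · rw [← map_pow, ← map_mul]
      exact lift_le f1 _ (fun g hg => (hABS k p Δ M R N₁ g hg).1 n1 n2 m hm a ha b hb) z
    · rw [← map_pow]
      exact lift_le f2 _ (fun g hg => (hABS k p Δ M R N₂ g hg).2 n3 m' hm') z
  · linear_combination ((2 / √(M : ℝ) + 4 * M / R + √(2 / (p : ℝ) ^ κ)) * X * Y) * hs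

end Pool.Agent.P.MP_246241_nt.VN
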