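import Pool.Agent.P.MP_246241_nt.VN.Iface

/-! Step SPEC. -/

set_option autoImplicit false
set_option linter.unusedSectionVars false

namespace Pool.Agent.P.MP_246241_nt.VN

open Finset Matrix
open scoped Classical

namespace SPECx

open ComplexConjugate

variable {Z : Type} [Fintype Z] {Q : ℕ} [NeZero Q]

/-- The character of a pair. -/
noncomputable def ch (v η : ZMod Q × ZMod Q) : ℂ := ZMod.stdAddChar (v.1 * η.1 + v.2 * η.2)

theorem ch_add (u v η : ZMod Q × ZMod Q) : ch (u + v) η = ch u η * ch v η := by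
  rw [ch, ch, ch, ← AddChar.map_add_eq_mul, Prod.fst_add, Prod.snd_add]; congr 1; ring

theorem ch_conj (v η : ZMod Q × ZMod Q) : conj (ch (-v) η) = ch v η := by
  rw [ch, ch, ← AddChar.map_neg_eq_conj, Prod.fst_neg, Prod.snd_neg]; congr 1; ring

theorem ch_sum (v : ZMod Q × ZMod Q) : ∑ η, ch (-v) η = if v = 0 then (Q : ℂ) ^ 2 else 0 := by
  have h : ∀ a : ZMod Q, ∑ x : ZMod Q, ZMod.stdAddChar (-a * x) = if a = 0 then (Q : ℂ) else 0 :=
    fun a => by
      simpa [mul_comm, ZMod.card] using AddChar.sum_mulShift (-a) (ZMod.isPrimitive_stdAddChar Q)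
  simp only [ch, Fintype.sum_prod_type, AddChar.map_add_eq_mul, ← sum_mul_sum, Prod.fst_neg,
    Prod.snd_neg, h, Prod.ext_iff, Prod.fst_zero, Prod.snd_zero]
  split_ifs <;> simp_all [sq]

variable (τ : ZMod Q → ZMod Q → Equiv.Perm Z)

/-- The projection on a character. -/
noncomputable def E (η : ZMod Q × ZMod Q) (ψ : Z → ℝ) (z : Z) : ℂ :=
  ((Q : ℂ) ^ 2)⁻¹ * ∑ v : ZMod Q × ZMod Q, ch (-v) η * ψ (τ v.1 v.2 z)

/-- Its norm. -/
noncomputable def nu (η : ZMod Q × ZMod Q) (ψ : Z → ℝ) : ℝ := √(∑ z, ‖E τ η ψ z‖ ^ 2)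

theorem nu_perm (α : Equiv.Perm Z) {η η' : ZMod Q × ZMod Q} {φ ψ : Z → ℝ}
    (h : ∀ z, E τ η φ z = E τ η' ψ (α z)) : nu τ η φ = nu τ η' ψ := by
  simp only [nu, h]
  rw [Equiv.sum_comp α fun z => ‖E τ η' ψ z‖ ^ 2]

variable {τ} (hτ : ∀ a b c d, τ (a + c) (b + d) = τ a b * τ c d)
include hτ

theorem shift (η u : ZMod Q × ZMod Q) (ψ : Z → ℝ) (z : Z) :
    E τ η ψ (τ u.1 u.2 z) = ch u η * E τ η ψ z := by
  rw [E, E, mul_left_comm, mul_sum _ _ (ch u η), ← Equiv.sum_comp (Equiv.addRight u)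
    fun v => ch u η * (ch (-v) η * ψ (τ v.1 v.2 z))]
  refine congrArg _ (sum_congr rfl fun v _ => ?_)
  rw [Equiv.coe_addRight, ← mul_assoc, ← ch_add, Prod.fst_add, Prod.snd_add, hτ,
    show u + -(v + u) = -v by ring]
  rfl

theorem shift' (η : ZMod Q × ZMod Q) (a b : ZMod Q) (ψ : Z → ℝ) (z : Z) :
    E τ η (fun z => ψ (τ a b z)) z = ch (a, b) η * E τ η ψ z := by
  rw [← shift hτ η (a, b), E, E]
  refine congrArg _ (sum_congr rfl fun v _ => ?_)
  rw [← Equiv.Perm.mul_apply, ← Equiv.Perm.mul_apply, ← hτ, ← hτ, add_comm a, add_comm b]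

theorem inversion (ψ : Z → ℝ) (z : Z) : ∑ η, E τ η ψ z = ψ z := by
  have h0 : τ 0 0 = 1 := by simpa using hτ 0 0 0 0
  have hQ : (Q : ℂ) ≠ 0 := Nat.cast_ne_zero.2 (NeZero.ne Q)
  simp only [E, ← mul_sum]
  rw [sum_comm]
  simp only [← sum_mul, ch_sum, ite_mul, zero_mul, sum_ite_eq', mem_univ, if_true, Prod.fst_zero,
    Prod.snd_zero, h0, Equiv.Perm.one_apply]
  field_simp

theorem adj (η : ZMod Q × ZMod Q) (φ ψ : Z → ℝ) :
    ∑ z, E τ η φ z * conj (E τ η ψ z) = ∑ z, E τ η φ z * ψ z := by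
  have hQ : (Q : ℂ) ≠ 0 := Nat.cast_ne_zero.2 (NeZero.ne Q)
  have e : ∀ z, E τ η φ z * conj (E τ η ψ z) = ((Q : ℂ) ^ 2)⁻¹ *
      ∑ v : ZMod Q × ZMod Q, E τ η φ (τ v.1 v.2 z) * ψ (τ v.1 v.2 z) := fun z => by
    rw [E.eq_1 τ η ψ, map_mul, map_sum, mul_left_comm, mul_sum, map_inv₀, map_pow, map_natCast]
    refine congrArg _ (sum_congr rfl fun v _ => ?_)
    rw [map_mul, ch_conj, Complex.conj_ofReal, shift hτ]; ring
  simp only [e, ← mul_sum]
  rw [sum_comm, sum_congr rfl fun v _ => Equiv.sum_comp (τ v.1 v.2) fun z => E τ η φ z * ψ z,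
    sum_const, card_univ, Fintype.card_prod, ZMod.card, nsmul_eq_mul]
  push_cast
  field_simp

theorem pars (φ ψ : Z → ℝ) :
    ∑ η, ∑ z, E τ η φ z * conj (E τ η ψ z) = (ip φ ψ : ℝ) := by
  simp only [adj hτ]
  rw [sum_comm]
  simp only [← sum_mul, inversion hτ, BV.ip, Complex.ofReal_sum, Complex.ofReal_mul]

end SPECx

open SPECx in
theorem p_SPEC :
    S_SPEC := by
  intro Z _ Q _ τ hτ
  refine ⟨nu τ, fun _ _ => Real.sqrt_nonneg _, fun ψ => ?_, fun α h η ψ => nu_perm τ α fun z => ?_,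
    fun β h η ψ => nu_perm τ β fun z => ?_, fun R φ ψ => ?_, fun ι W w ψ => ?_⟩
  · have := pars hτ ψ ψ
    simp only [Complex.mul_conj'] at this
    rw [nn_eq]
    simp only [nu, Real.sq_sqrt (sum_nonneg fun _ _ => sq_nonneg _)]
    exact_mod_cast this
  · rw [E, E]
    refine congrArg _ (Fintype.sum_equiv (⟨fun v => (v.1 - v.2, v.2), fun v => (v.1 + v.2, v.2),
      fun v => by simp, fun v => by simp⟩ : ZMod Q × ZMod Q ≃ ZMod Q × ZMod Q) _ _ fun v => ?_)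
    simp only [Equiv.coe_fn_mk, ch, Prod.fst_neg, Prod.snd_neg]
    rw [← Equiv.Perm.mul_apply (τ _ _) α, h, sub_add_cancel]
    congr 2; ring
  · rw [E, E]
    refine congrArg _ (Fintype.sum_equiv (⟨fun v => (v.1, v.2 - v.1), fun v => (v.1, v.1 + v.2),
      fun v => by simp, fun v => by simp⟩ : ZMod Q × ZMod Q ≃ ZMod Q × ZMod Q) _ _ fun v => ?_)
    simp only [Equiv.coe_fn_mk, ch, Prod.fst_neg, Prod.snd_neg]
    rw [← Equiv.Perm.mul_apply (τ _ _) β, h, add_sub_cancel]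
    congr 2; ring
  · have e : ((∑ a ∈ range R, ∑ b ∈ range R, ip (fun z => φ (τ (a : ℕ) (b : ℕ) z)) ψ : ℝ) : ℂ) =
        ∑ η : ZMod Q × ZMod Q, (∑ a ∈ range R, ZMod.stdAddChar (((a : ℕ) : ZMod Q) * η.1)) *
          (∑ b ∈ range R, ZMod.stdAddChar (((b : ℕ) : ZMod Q) * η.2)) *
            ∑ z, E τ η φ z * (starRingEnd ℂ) (E τ η ψ z) := by
      simp only [Complex.ofReal_sum, ← pars hτ, shift' hτ, ch, AddChar.map_add_eq_mul, mul_assoc,
        ← mul_sum]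
      simp only [sum_mul]
      rw [sum_comm (s := univ)]
      refine sum_congr rfl fun a _ => ?_
      rw [sum_comm]
      exact sum_congr rfl fun η _ => by rw [mul_sum]
    refine (le_abs_self _).trans ?_
    rw [← Real.norm_eq_abs, ← Complex.norm_real, e]
    refine (norm_sum_le _ _).trans (sum_le_sum fun η _ => ?_)
    rw [norm_mul, norm_mul]
    refine mul_le_mul_of_nonneg_left ((norm_sum_le _ _).trans ?_) (by positivity)
    simp only [norm_mul, RCLike.norm_conj]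
    exact Real.sum_mul_le_sqrt_mul_sqrt _ _ _
  · have e : ∀ z, E τ 0 (fun z => ∑ s ∈ W, ψ (τ 0 (w s) z)) z = (#W : ℝ) * E τ 0 ψ z := fun z => by
      have : ∀ s, E τ 0 (fun z => ψ (τ 0 (w s) z)) z = E τ 0 ψ z := fun s => by
        rw [shift' hτ]; simp [ch]
      rw [Complex.ofReal_natCast, ← nsmul_eq_mul, ← sum_const, ← sum_congr rfl fun s _ => this s]
      simp only [E, Complex.ofReal_sum, ← mul_sum]
      rw [sum_comm]
      simp only [mul_sum]
    simp only [nu, e, norm_mul, mul_pow, ← mul_sum, Complex.norm_real, Real.norm_natCast]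
    rw [Real.sqrt_mul (sq_nonneg _), Real.sqrt_sq (Nat.cast_nonneg _)]

end Pool.Agent.P.MP_246241_nt.VN
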